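import Mathlib

set_option autoImplicit false

/-!
# The weak maximum principle for `∂_t w - ∂_x² w + W w ≥ 0` on the line
-/

open MeasureTheory Set Real Filter Topology

namespace Pool.Agent.helper34.Soliton

/-- Necessary second order condition at a local minimum. -/
theorem second_deriv_nonneg {f f' : ℝ → ℝ} {f'' x₀ : ℝ} (h1 : ∀ x, HasDerivAt f (f' x) x)
    (h2 : HasDerivAt f' f'' x₀) (hmin : IsLocalMin f x₀) : 0 ≤ f'' := by
  by_contra hcon
  push Not at hcon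
  have hd : deriv f = f' := funext fun x => (h1 x).deriv
  have hd0 : f' x₀ = 0 := hmin.hasDerivAt_eq_zero (h1 x₀)
  have hmax : IsLocalMax f x₀ := by
    refine isLocalMax_of_deriv_deriv_neg ?_ ?_ (h1 x₀).continuousAt
    · rw [hd, h2.deriv]
      exact hcon
    · rw [hd, hd0]
  have hc : ∀ᶠ x in 𝓝 x₀, f x = f x₀ := by
    filter_upwards [hmin, hmax] with x hx1 hx2
    exact le_antisymm hx2 hx1
  have hc' : ∀ᶠ x in 𝓝 x₀, f' x = 0 := by
    filter_upwards [hc.eventually_nhds] with x hx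
    have h3 : HasDerivAt f 0 x := (hasDerivAt_const x (f x₀)).congr_of_eventuallyEq hx
    exact (h1 x).unique h3
  have h3 : HasDerivAt f' 0 x₀ := (hasDerivAt_const x₀ (0 : ℝ)).congr_of_eventuallyEq hc'
  have h4 := h2.unique h3
  linarith

/-- The derivative at a minimum from the left is nonpositive. -/
theorem deriv_nonpos_of_left {f : ℝ → ℝ} {f' t₀ : ℝ} (h : HasDerivAt f f' t₀) {a : ℝ}
    (ha : a < t₀) (hmin : ∀ s ∈ Icc a t₀, f t₀ ≤ f s) : f' ≤ 0 := by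
  have h1 : Tendsto (slope f t₀) (𝓝[<] t₀) (𝓝 f') :=
    (hasDerivAt_iff_tendsto_slope.1 h).mono_left
      (nhdsWithin_mono _ fun s hs => ne_of_lt hs)
  refine le_of_tendsto h1 ?_
  filter_upwards [Ioo_mem_nhdsLT ha] with s hs
  rw [slope_def_field]
  have h2 := hmin s ⟨hs.1.le, hs.2.le⟩
  exact div_nonpos_of_nonneg_of_nonpos (by linarith) (by linarith [hs.2])

theorem max_principle {W : ℝ → ℝ} {m : ℝ} (hW : ∀ x, m ≤ W x) {T : ℝ}
    {w wx wxx wt : ℝ → ℝ → ℝ}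
    (hc : ContinuousOn (fun p : ℝ × ℝ => w p.1 p.2) (univ ×ˢ Icc 0 T))
    (h1 : ∀ x, ∀ t ∈ Ioc 0 T, HasDerivAt (fun x => w x t) (wx x t) x)
    (h2 : ∀ x, ∀ t ∈ Ioc 0 T, HasDerivAt (fun x => wx x t) (wxx x t) x)
    (h3 : ∀ x, ∀ t ∈ Ioc 0 T, HasDerivAt (fun t => w x t) (wt x t) t)
    (hpde : ∀ x, ∀ t ∈ Ioc 0 T, 0 ≤ wt x t - wxx x t + W x * w x t)
    (h0 : ∀ x, 0 ≤ w x 0)
    (hinf : ∀ ε > 0, ∃ R, ∀ x, R ≤ |x| → ∀ t ∈ Icc 0 T, -ε ≤ w x t) :
    ∀ x, ∀ t ∈ Icc 0 T, 0 ≤ w x t := by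
  intro x₁ t₁ ht₁
  by_contra hcon
  push Not at hcon
  set l := 1 - m with hl
  set z : ℝ → ℝ → ℝ := fun x t => exp (-(l * t)) * w x t with hz
  have hexp : ∀ t ∈ Icc 0 T, exp (-(l * t)) ≤ exp (|l| * T) := by
    intro t ht
    rw [exp_le_exp]
    have h4 := neg_abs_le l
    have h5 := abs_nonneg l
    have h6 := ht.1
    have h7 := ht.2
    nlinarith
  have hz₁ : z x₁ t₁ < 0 := mul_neg_of_pos_of_neg (exp_pos _) hcon
  obtain ⟨R, hR⟩ := hinf (-(z x₁ t₁) / (2 * exp (|l| * T)))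
    (div_pos (by linarith) (by positivity))
  set R' := max R |x₁| with hR'
  have hbd : ∀ x, R' ≤ |x| → ∀ t ∈ Icc 0 T, z x₁ t₁ < z x t := by
    intro x hx t ht
    have h4 := hR x ((le_max_left _ _).trans hx) t ht
    have h5 : -(-(z x₁ t₁) / 2) ≤ z x t := by
      have h6 : exp (-(l * t)) * (-(-(z x₁ t₁) / (2 * exp (|l| * T)))) ≤ z x t :=
        mul_le_mul_of_nonneg_left h4 (exp_pos _).le
      refine le_trans ?_ h6
      rw [mul_neg, neg_le_neg_iff]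
      calc exp (-(l * t)) * (-(z x₁ t₁) / (2 * exp (|l| * T)))
          ≤ exp (|l| * T) * (-(z x₁ t₁) / (2 * exp (|l| * T))) :=
            mul_le_mul_of_nonneg_right (hexp t ht) (div_nonneg (by linarith) (by positivity))
        _ = _ := by field_simp
    linarith
  have hcomp : IsCompact (Icc (-R') R' ×ˢ Icc 0 T) := isCompact_Icc.prod isCompact_Icc
  have hzc : ContinuousOn (fun p : ℝ × ℝ => z p.1 p.2) (Icc (-R') R' ×ˢ Icc 0 T) := by
    have h4 : ContinuousOn (fun p : ℝ × ℝ => exp (-(l * p.2))) (Icc (-R') R' ×ˢ Icc 0 T) := by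
      fun_prop
    exact h4.mul (hc.mono (prod_mono (subset_univ _) subset_rfl))
  have hx₁ : x₁ ∈ Icc (-R') R' := by
    exact abs_le.1 (le_max_right _ _)
  obtain ⟨⟨x₀, t₀⟩, hmem, hmin⟩ := hcomp.exists_isMinOn ⟨(x₁, t₁), hx₁, ht₁⟩ hzc
  have hmin' : ∀ x ∈ Icc (-R') R', ∀ t ∈ Icc 0 T, z x₀ t₀ ≤ z x t := fun x hx t ht =>
    hmin (show (x, t) ∈ _ from ⟨hx, ht⟩)
  have hle : z x₀ t₀ ≤ z x₁ t₁ := hmin' x₁ hx₁ t₁ ht₁
  have ht₀ : t₀ ∈ Icc 0 T := hmem.2
  have hx₀ : |x₀| < R' := by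
    by_contra hcon2
    push Not at hcon2
    have := hbd x₀ hcon2 t₀ ht₀
    linarith
  have ht₀pos : 0 < t₀ := by
    rcases eq_or_lt_of_le ht₀.1 with h | h
    · exfalso
      have h4 : 0 ≤ z x₀ t₀ := by
        rw [← h]
        exact mul_nonneg (exp_pos _).le (h0 x₀)
      linarith
    · exact h
  have htI : t₀ ∈ Ioc 0 T := ⟨ht₀pos, ht₀.2⟩
  have hw₀ : w x₀ t₀ < 0 := by
    have h4 : z x₀ t₀ < 0 := by linarith
    by_contra hcon3
    push Not at hcon3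
    have : 0 ≤ z x₀ t₀ := mul_nonneg (exp_pos _).le hcon3
    linarith
  -- space derivative
  have hxx : 0 ≤ wxx x₀ t₀ := by
    refine second_deriv_nonneg (f := fun x => w x t₀) (f' := fun x => wx x t₀)
      (fun x => h1 x t₀ htI) (h2 x₀ t₀ htI) ?_
    have hnb : ∀ᶠ x in 𝓝 x₀, x ∈ Icc (-R') R' := by
      have := abs_lt.1 hx₀
      exact Icc_mem_nhds this.1 this.2
    filter_upwards [hnb] with x hx
    have h4 := hmin' x hx t₀ ht₀
    exact le_of_mul_le_mul_left h4 (exp_pos _)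
  have htt : exp (-(l * t₀)) * (wt x₀ t₀ - l * w x₀ t₀) ≤ 0 := by
    have h4 : HasDerivAt (fun t => z x₀ t) (exp (-(l * t₀)) * (wt x₀ t₀ - l * w x₀ t₀)) t₀ := by
      have h5 : HasDerivAt (fun t : ℝ => exp (-(l * t))) (-(l * exp (-(l * t₀)))) t₀ := by
        have := (((hasDerivAt_id t₀).const_mul l).neg).exp
        refine this.congr_deriv ?_
        simp only [Pi.neg_apply, id]
        ring
      refine (h5.mul (h3 x₀ t₀ htI)).congr_deriv ?_
      ring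
    exact deriv_nonpos_of_left h4 ht₀pos fun s hs =>
      hmin' x₀ ⟨(abs_lt.1 hx₀).1.le, (abs_lt.1 hx₀).2.le⟩ s ⟨hs.1, hs.2.trans ht₀.2⟩
  have htt' : wt x₀ t₀ - l * w x₀ t₀ ≤ 0 := by
    by_contra hcon4
    push Not at hcon4
    have := mul_pos (exp_pos (-(l * t₀))) hcon4
    linarith
  have hp := hpde x₀ t₀ htI
  have hW₀ := hW x₀
  nlinarith

end Pool.Agent.helper34.Soliton
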