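import Mathlib

set_option autoImplicit false
set_option linter.unusedSectionVars false

/-!
# Infinite soliton systems: the operator identities

`K`, `C₀` are bounded self-adjoint operators on a real Hilbert space, `C₀ ≥ 0`, and
`K C₀ + C₀ K = e₀ ⊗ e₀`.  With `U x = exp (-x K)`, `e x = U x e₀`, `C x = U x C₀ U x`,
`M x = (1 + C x)⁻¹` and `ψ x = M x (e x)` we have `ψ'' = K² ψ + V ψ` with `V = -4 ⟪ψ, K ψ⟫`.
-/

open scoped RealInnerProductSpace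
open NormedSpace

namespace Pool.Agent.helper34.Soliton

variable {H : Type*} [NormedAddCommGroup H] [InnerProductSpace ℝ H] [CompleteSpace H]

/-- The group `exp (-x K)`. -/
noncomputable def expK (K : H →L[ℝ] H) (x : ℝ) : H →L[ℝ] H := exp ((-x) • K)

theorem expK_zero (K : H →L[ℝ] H) : expK K 0 = 1 := by
  simp [expK]

theorem expK_add (K : H →L[ℝ] H) (x y : ℝ) : expK K (x + y) = expK K x * expK K y := by
  let +nondep : NormedAlgebra ℚ (H →L[ℝ] H) := .restrictScalars ℚ ℝ (H →L[ℝ] H)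
  unfold expK
  rw [← exp_add_of_commute]
  · congr 1
    rw [neg_add, add_smul]
  · exact (Commute.refl K).smul_left _ |>.smul_right _

theorem expK_comm (K : H →L[ℝ] H) (x : ℝ) (u : H) : expK K x (K u) = K (expK K x u) := by
  have : Commute (exp ((-x) • K)) K :=
    ((Commute.refl K).smul_left (-x)).exp_left
  exact congrArg (fun T : H →L[ℝ] H => T u) this.eq

theorem hasDerivAt_expK (K : H →L[ℝ] H) (x : ℝ) :
    HasDerivAt (expK K) (-(K * expK K x)) x := by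
  have h := hasDerivAt_exp_smul_const (𝕂 := ℝ) K (-x)
  have h2 := h.scomp x (hasDerivAt_neg x)
  have h3 : HasDerivAt (expK K) ((-1 : ℝ) • (exp ((-x) • K) * K)) x := h2
  have h4 : (-1 : ℝ) • (exp ((-x) • K) * K) = -(K * expK K x) := by
    have : Commute (exp ((-x) • K)) K :=
      ((Commute.refl K).smul_left (-x)).exp_left
    rw [this.eq, neg_smul, one_smul]
    rfl
  rwa [h4] at h3

theorem hasDerivAt_expK_apply (K : H →L[ℝ] H) (u : H) (x : ℝ) :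
    HasDerivAt (fun y => expK K y u) (-K (expK K x u)) x := by
  have h := (hasDerivAt_expK K x).clm_apply (hasDerivAt_const x u)
  have h2 : (-(K * expK K x)) u + (expK K x) 0 = -K (expK K x u) := by
    rw [map_zero, add_zero]
    rfl
  rwa [h2] at h

theorem expK_sa (K : H →L[ℝ] H) (K_sa : ∀ u v, ⟪K u, v⟫ = ⟪u, K v⟫) (x : ℝ) (u v : H) :
    ⟪expK K x u, v⟫ = ⟪u, expK K x v⟫ := by
  have hK : star K = K := by
    rw [ContinuousLinearMap.star_eq_adjoint]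
    apply ContinuousLinearMap.ext
    intro w
    refine ext_inner_right ℝ fun v => ?_
    rw [ContinuousLinearMap.adjoint_inner_left, K_sa]
  have h : star (expK K x) = expK K x := by
    unfold expK
    let +nondep : NormedAlgebra ℚ (H →L[ℝ] H) := .restrictScalars ℚ ℝ (H →L[ℝ] H)
    rw [star_exp, star_smul, hK]
    simp
  have h2 := ContinuousLinearMap.adjoint_inner_left (expK K x) v u
  rwa [← ContinuousLinearMap.star_eq_adjoint, h] at h2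

/-- The data of a soliton system. -/
structure Data (H : Type*) [NormedAddCommGroup H] [InnerProductSpace ℝ H] where
  K : H →L[ℝ] H
  C₀ : H →L[ℝ] H
  e₀ : H
  K_sa : ∀ u v, ⟪K u, v⟫ = ⟪u, K v⟫
  C₀_sa : ∀ u v, ⟪C₀ u, v⟫ = ⟪u, C₀ v⟫
  C₀_pos : ∀ u, 0 ≤ ⟪C₀ u, u⟫
  lyap : ∀ u, K (C₀ u) + C₀ (K u) = ⟪e₀, u⟫ • e₀
  K_le : ‖K‖ ≤ 1
  K_pos : ∀ u, 0 ≤ ⟪u, K u⟫

namespace Data

variable (D : Data H)

/-- The semigroup (group) `exp (-x K)`. -/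
noncomputable def U (x : ℝ) : H →L[ℝ] H := expK D.K x

theorem U_zero : D.U 0 = 1 := expK_zero _

theorem U_add (x y : ℝ) : D.U (x + y) = D.U x * D.U y := expK_add _ _ _

theorem U_add_apply (x y : ℝ) (u : H) : D.U (x + y) u = D.U x (D.U y u) := by
  rw [U_add]
  rfl

theorem U_zero_apply (u : H) : D.U 0 u = u := by
  rw [U_zero]
  rfl

theorem U_comm_K (x : ℝ) (u : H) : D.U x (D.K u) = D.K (D.U x u) := expK_comm _ _ _

theorem hasDerivAt_U (x : ℝ) : HasDerivAt D.U (-(D.K * D.U x)) x := hasDerivAt_expK _ _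

theorem U_sa (x : ℝ) (u v : H) : ⟪D.U x u, v⟫ = ⟪u, D.U x v⟫ := expK_sa _ D.K_sa _ _ _

/-- The vector `e x = exp (-x K) e₀`. -/
noncomputable def e (x : ℝ) : H := D.U x D.e₀

/-- The operator `C x = exp (-x K) C₀ exp (-x K)`. -/
noncomputable def C (x : ℝ) : H →L[ℝ] H := D.U x * D.C₀ * D.U x

theorem C_apply (x : ℝ) (u : H) : D.C x u = D.U x (D.C₀ (D.U x u)) := rfl

theorem C_sa (x : ℝ) (u v : H) : ⟪D.C x u, v⟫ = ⟪u, D.C x v⟫ := by
  rw [C_apply, C_apply, U_sa, C₀_sa, U_sa]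

theorem C_pos (x : ℝ) (u : H) : 0 ≤ ⟪D.C x u, u⟫ := by
  rw [C_apply, U_sa]
  exact D.C₀_pos _

theorem lyap_C (x : ℝ) (u : H) : D.K (D.C x u) + D.C x (D.K u) = ⟪D.e x, u⟫ • D.e x := by
  rw [C_apply, C_apply, U_comm_K, ← U_comm_K, ← map_add, D.lyap, map_smul, e, D.U_sa]

theorem hasDerivAt_e (x : ℝ) : HasDerivAt D.e (-D.K (D.e x)) x := by
  have h := (D.hasDerivAt_U x).clm_apply (hasDerivAt_const x D.e₀)
  have h2 : (-(D.K * D.U x)) D.e₀ + (D.U x) 0 = -D.K (D.e x) := by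
    rw [map_zero, add_zero]
    rfl
  rw [h2] at h
  exact h

theorem hasDerivAt_C (x : ℝ) : HasDerivAt D.C (-(D.K * D.C x + D.C x * D.K)) x := by
  have h := ((D.hasDerivAt_U x).mul_const D.C₀).mul (D.hasDerivAt_U x)
  have h2 : -(D.K * D.U x) * D.C₀ * D.U x + D.U x * D.C₀ * (-(D.K * D.U x)) =
      -(D.K * D.C x + D.C x * D.K) := by
    have h3 : D.U x * D.K = D.K * D.U x := by
      apply ContinuousLinearMap.ext
      intro u
      exact D.U_comm_K x u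
    have h4 : D.C x * D.K = D.U x * D.C₀ * (D.K * D.U x) := by
      rw [C, mul_assoc, h3]
    rw [h4, C]
    noncomm_ring
  rw [h2] at h
  exact h

theorem isUnit (x : ℝ) : IsUnit (1 + D.C x) := by
  refine ContinuousLinearMap.isUnit_of_forall_le_norm_inner_map _ (c := 1) one_pos fun u => ?_
  rw [NNReal.coe_one, mul_one]
  have h : ⟪(1 + D.C x) u, u⟫ = ‖u‖ ^ 2 + ⟪D.C x u, u⟫ := by
    rw [add_apply, one_apply_eq_self, inner_add_left,
      real_inner_self_eq_norm_sq]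
  rw [h, Real.norm_eq_abs]
  have := D.C_pos x u
  rw [abs_of_nonneg (by positivity)]
  linarith

/-- The operator `M x = (1 + C x)⁻¹`. -/
noncomputable def M (x : ℝ) : H →L[ℝ] H := Ring.inverse (1 + D.C x)

theorem M_mul (x : ℝ) (u : H) : D.M x (u + D.C x u) = u := by
  have h := Ring.inverse_mul_cancel _ (D.isUnit x)
  exact congrArg (fun T : H →L[ℝ] H => T u) h

theorem mul_M (x : ℝ) (u : H) : D.M x u + D.C x (D.M x u) = u := by
  have h := Ring.mul_inverse_cancel _ (D.isUnit x)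
  exact congrArg (fun T : H →L[ℝ] H => T u) h

theorem M_C (x : ℝ) (u : H) : D.M x (D.C x u) = u - D.M x u := by
  have h := D.M_mul x u
  rw [map_add] at h
  rw [eq_sub_iff_add_eq, add_comm, h]

theorem C_M (x : ℝ) (u : H) : D.C x (D.M x u) = u - D.M x u := by
  rw [eq_sub_iff_add_eq, add_comm, D.mul_M]

theorem M_sa (x : ℝ) (u v : H) : ⟪D.M x u, v⟫ = ⟪u, D.M x v⟫ := by
  have h : ⟪D.M x u, D.M x v + D.C x (D.M x v)⟫ = ⟪D.M x u + D.C x (D.M x u), D.M x v⟫ := by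
    rw [inner_add_left, inner_add_right, D.C_sa]
  rwa [D.mul_M, D.mul_M] at h

/-- The vector `ψ x = M x (e x)`. -/
noncomputable def ψ (x : ℝ) : H := D.M x (D.e x)

theorem inner_e_M (x : ℝ) (u : H) : ⟪D.e x, D.M x u⟫ = ⟪D.ψ x, u⟫ := by
  rw [ψ, D.M_sa]

/-- The rank one operator `ψ ⊗ ψ`. -/
noncomputable def R (x : ℝ) : H →L[ℝ] H := (innerSL ℝ (D.ψ x)).smulRight (D.ψ x)

theorem R_apply (x : ℝ) (u : H) : D.R x u = ⟪D.ψ x, u⟫ • D.ψ x := rfl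

theorem hasDerivAt_M (x : ℝ) : HasDerivAt D.M (D.R x) x := by
  obtain ⟨a, ha⟩ := D.isUnit x
  have h1 := hasFDerivAt_ringInverse (𝕜 := ℝ) a
  rw [ha] at h1
  have h2 : HasDerivAt (fun y => 1 + D.C y) (-(D.K * D.C x + D.C x * D.K)) x :=
    (D.hasDerivAt_C x).const_add 1
  have h3 := h1.comp_hasDerivAt x h2
  have h4 : (↑a⁻¹ : H →L[ℝ] H) = D.M x := by
    rw [M, ← ha, Ring.inverse_unit]
  rw [h4] at h3
  have h6 : HasDerivAt D.M
    ((-((ContinuousLinearMap.mulLeftRight ℝ (H →L[ℝ] H)) (D.M x)) (D.M x))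
      (-(D.K * D.C x + D.C x * D.K))) x := h3
  convert h6 using 1
  apply ContinuousLinearMap.ext
  intro u
  change _ = -((D.M x) ((-(D.K * D.C x + D.C x * D.K)) (D.M x u)))
  have h7 : (-(D.K * D.C x + D.C x * D.K)) (D.M x u) = -(⟪D.ψ x, u⟫ • D.e x) := by
    change -(D.K (D.C x (D.M x u)) + D.C x (D.K (D.M x u))) = _
    rw [D.lyap_C, D.inner_e_M]
  rw [h7, map_neg, neg_neg, map_smul]
  rfl

/-- The basic identity `M K + K M = 2 M K M + ψ ⊗ ψ`. -/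
theorem identity (x : ℝ) (u : H) :
    D.M x (D.K u) + D.K (D.M x u) = (2 : ℝ) • D.M x (D.K (D.M x u)) + ⟪D.ψ x, u⟫ • D.ψ x := by
  have h1 : D.M x (D.K u) = D.M x (D.K (D.M x u)) + D.M x (D.K (D.C x (D.M x u))) := by
    rw [← map_add, ← map_add, D.mul_M]
  have h2 : D.K (D.C x (D.M x u)) = ⟪D.ψ x, u⟫ • D.e x - D.C x (D.K (D.M x u)) := by
    rw [eq_sub_iff_add_eq, D.lyap_C, D.inner_e_M]
  have h3 : D.M x (D.e x) = D.ψ x := rfl
  rw [h1, h2, map_sub, map_smul, D.M_C, h3, two_smul]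
  abel

/-- The derivative of `ψ`. -/
noncomputable def ψ' (x : ℝ) : H := D.K (D.ψ x) - (2 : ℝ) • D.M x (D.K (D.ψ x))

theorem hasDerivAt_ψ (x : ℝ) : HasDerivAt D.ψ (D.ψ' x) x := by
  have h := (D.hasDerivAt_M x).clm_apply (D.hasDerivAt_e x)
  have h1 := D.identity x (D.e x)
  have h2 : D.M x (D.e x) = D.ψ x := rfl
  have h3 : (D.R x) (D.e x) + (D.M x) (-D.K (D.e x)) = D.ψ' x := by
    rw [h2] at h1
    rw [D.R_apply, map_neg, ψ']
    have h4 : D.M x (D.K (D.e x)) = (2 : ℝ) • D.M x (D.K (D.ψ x)) + ⟪D.ψ x, D.e x⟫ • D.ψ x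
        - D.K (D.ψ x) := by
      rw [← h1]
      abel
    rw [h4]
    abel
  rw [h3] at h
  exact h

/-- The potential. -/
noncomputable def V (x : ℝ) : ℝ := -4 * ⟪D.ψ x, D.K (D.ψ x)⟫

theorem hasDerivAt_ψ' (x : ℝ) : HasDerivAt D.ψ' (D.K (D.K (D.ψ x)) + D.V x • D.ψ x) x := by
  have h1 : HasDerivAt (fun y => D.K (D.ψ y)) (D.K (D.ψ' x)) x :=
    D.K.hasFDerivAt.comp_hasDerivAt x (D.hasDerivAt_ψ x)
  have h2 := (D.hasDerivAt_M x).clm_apply h1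
  have h3 := h1.sub (h2.const_smul (2 : ℝ))
  have h4 : D.K (D.ψ' x) - (2 : ℝ) • ((D.R x) (D.K (D.ψ x)) + (D.M x) (D.K (D.ψ' x))) =
      D.K (D.K (D.ψ x)) + D.V x • D.ψ x := by
    have h5 := D.identity x (D.K (D.ψ x))
    rw [D.R_apply, ψ', map_sub, map_smul, map_sub, map_smul, V]
    have h6 : D.M x (D.K (D.K (D.ψ x))) = (2 : ℝ) • D.M x (D.K (D.M x (D.K (D.ψ x)))) +
        ⟪D.ψ x, D.K (D.ψ x)⟫ • D.ψ x - D.K (D.M x (D.K (D.ψ x))) := by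
      rw [← h5]
      abel
    rw [h6]
    module
  rw [h4] at h3
  exact h3

theorem K_sub (x : ℝ) : D.K (D.ψ x) - D.ψ' x = (2 : ℝ) • D.M x (D.K (D.ψ x)) := by
  rw [ψ']
  abel

theorem K_add (x : ℝ) : D.K (D.ψ x) + D.ψ' x = (2 : ℝ) • D.C x (D.M x (D.K (D.ψ x))) := by
  rw [ψ', D.C_M]
  module

/-- The bilinear identity. -/
theorem bilinear (x y : ℝ) :
    ⟪D.ψ y, (1 / 2 : ℝ) • (D.U (y - x) (D.K (D.ψ x) + D.ψ' x) +
      D.U (x - y) (D.K (D.ψ x) - D.ψ' x))⟫ = ⟪D.ψ x, D.K (D.ψ x)⟫ := by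
  set q := D.M x (D.K (D.ψ x)) with hq
  have h1 : D.U (y - x) (D.C x q) = D.C y (D.U (x - y) q) := by
    rw [C_apply, C_apply, ← D.U_add_apply, ← D.U_add_apply]
    congr 2
    · ring_nf
    · congr 2
      ring
  have h2 : (1 / 2 : ℝ) • (D.U (y - x) (D.K (D.ψ x) + D.ψ' x) +
      D.U (x - y) (D.K (D.ψ x) - D.ψ' x)) = D.U (x - y) q + D.C y (D.U (x - y) q) := by
    rw [D.K_sub, D.K_add, map_smul, map_smul, ← hq, h1]
    module
  rw [h2]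
  have h3 : ∀ w, ⟪D.ψ y, w + D.C y w⟫ = ⟪D.e y, w⟫ := by
    intro w
    rw [← D.inner_e_M, D.M_mul]
  have h4 : D.U (x - y) (D.e y) = D.e x := by
    rw [e, e, ← D.U_add_apply]
    congr 2
    ring
  rw [h3, ← D.U_sa, h4, hq, D.inner_e_M]

theorem norm_M_le (x : ℝ) (u : H) : ‖D.M x u‖ ≤ ‖u‖ := by
  set w := D.M x u
  have h1 : w + D.C x w = u := D.mul_M x u
  have h2 : ‖u‖ ^ 2 = ‖w‖ ^ 2 + 2 * ⟪w, D.C x w⟫ + ‖D.C x w‖ ^ 2 := by
    rw [← h1, norm_add_sq_real]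
  have h3 := D.C_pos x w
  rw [real_inner_comm] at h3
  exact abs_le_of_sq_le_sq' (by nlinarith [sq_nonneg ‖D.C x w‖]) (norm_nonneg _) |>.2

theorem norm_sub_M_le (x : ℝ) (u : H) : ‖u - D.M x u‖ ≤ ‖u‖ := by
  rw [← D.C_M]
  set w := D.M x u
  have h1 : w + D.C x w = u := D.mul_M x u
  have h2 : ‖u‖ ^ 2 = ‖w‖ ^ 2 + 2 * ⟪w, D.C x w⟫ + ‖D.C x w‖ ^ 2 := by
    rw [← h1, norm_add_sq_real]
  have h3 := D.C_pos x w
  rw [real_inner_comm] at h3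
  exact abs_le_of_sq_le_sq' (by nlinarith [sq_nonneg ‖w‖]) (norm_nonneg _) |>.2

theorem norm_K_le (u : H) : ‖D.K u‖ ≤ ‖u‖ := by
  have := D.K.le_opNorm u
  have h := D.K_le
  nlinarith [norm_nonneg u]

theorem norm_ψ_sq_le (x : ℝ) : ‖D.ψ x‖ ^ 2 ≤ 2 := by
  have h1 := congrArg (fun w => ⟪D.ψ x, w⟫) (D.identity x (D.ψ x))
  simp only [inner_add_right, inner_smul_right, real_inner_self_eq_norm_sq] at h1
  have h2 : ⟪D.ψ x, D.M x (D.K (D.ψ x))⟫ = ⟪D.ψ x, D.K (D.M x (D.ψ x))⟫ := by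
    rw [← D.M_sa, ← D.K_sa, real_inner_comm]
  have h3 : ⟪D.ψ x, D.M x (D.K (D.M x (D.ψ x)))⟫ = ⟪D.M x (D.ψ x), D.K (D.M x (D.ψ x))⟫ := by
    rw [← D.M_sa]
  rw [h2, h3] at h1
  have h4 : ‖D.ψ x‖ ^ 2 * ‖D.ψ x‖ ^ 2 =
      2 * ⟪D.ψ x - D.M x (D.ψ x), D.K (D.M x (D.ψ x))⟫ := by
    rw [inner_sub_left]
    linarith
  have h5 : ⟪D.ψ x - D.M x (D.ψ x), D.K (D.M x (D.ψ x))⟫ ≤ ‖D.ψ x‖ * ‖D.ψ x‖ := by
    refine (real_inner_le_norm _ _).trans ?_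
    refine mul_le_mul (D.norm_sub_M_le x _) ?_ (norm_nonneg _) (norm_nonneg _)
    exact (D.norm_K_le _).trans (D.norm_M_le x _)
  by_contra hcon
  push Not at hcon
  nlinarith [sq_nonneg ‖D.ψ x‖]

theorem norm_ψ_le_e (x : ℝ) : ‖D.ψ x‖ ≤ ‖D.e x‖ := D.norm_M_le x _

theorem V_nonpos (x : ℝ) : D.V x ≤ 0 := by
  have := D.K_pos (D.ψ x)
  unfold V
  linarith

theorem V_ge (x : ℝ) : -8 ≤ D.V x := by
  have h1 := D.norm_ψ_sq_le x
  have h2 := real_inner_le_norm (D.ψ x) (D.K (D.ψ x))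
  have h3 := D.norm_K_le (D.ψ x)
  unfold V
  nlinarith [norm_nonneg (D.ψ x)]

theorem hasDerivAt_V (x : ℝ) : HasDerivAt D.V (-8 * ⟪D.ψ' x, D.K (D.ψ x)⟫) x := by
  have h1 : HasDerivAt (fun y => D.K (D.ψ y)) (D.K (D.ψ' x)) x :=
    D.K.hasFDerivAt.comp_hasDerivAt x (D.hasDerivAt_ψ x)
  have h2 := ((D.hasDerivAt_ψ x).inner ℝ h1).const_mul (-4)
  have h3 : -4 * (⟪D.ψ x, D.K (D.ψ' x)⟫ + ⟪D.ψ' x, D.K (D.ψ x)⟫) =
      -8 * ⟪D.ψ' x, D.K (D.ψ x)⟫ := by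
    rw [← D.K_sa, real_inner_comm]
    ring
  rw [h3] at h2
  exact h2

theorem continuous_ψ : Continuous D.ψ :=
  continuous_iff_continuousAt.2 fun x => (D.hasDerivAt_ψ x).continuousAt

theorem continuous_ψ' : Continuous D.ψ' :=
  continuous_iff_continuousAt.2 fun x => (D.hasDerivAt_ψ' x).continuousAt

theorem continuous_V : Continuous D.V :=
  continuous_iff_continuousAt.2 fun x => (D.hasDerivAt_V x).continuousAt

/-- The function `β x = ⟪v x, ψ x⟫`, where `v x = exp (-x K) v₀`. -/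
noncomputable def β (v₀ : H) (x : ℝ) : ℝ := ⟪D.U x v₀, D.ψ x⟫

/-- The derivative of `β`. -/
noncomputable def β' (v₀ : H) (x : ℝ) : ℝ := ⟪D.U x v₀, D.ψ' x⟫ - ⟪D.K (D.U x v₀), D.ψ x⟫

theorem hasDerivAt_Uv (v₀ : H) (x : ℝ) :
    HasDerivAt (fun y => D.U y v₀) (-D.K (D.U x v₀)) x := hasDerivAt_expK_apply _ _ _

theorem hasDerivAt_β (v₀ : H) (x : ℝ) : HasDerivAt (D.β v₀) (D.β' v₀ x) x := by
  have h := (D.hasDerivAt_Uv v₀ x).inner ℝ (D.hasDerivAt_ψ x)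
  rw [inner_neg_left, ← sub_eq_add_neg] at h
  exact h

theorem hasDerivAt_β' (v₀ : H) (hv : v₀ + D.K v₀ = D.e₀) (x : ℝ) :
    HasDerivAt (D.β' v₀) (2 * D.β' v₀ x + D.V x * D.β v₀ x - D.V x) x := by
  have h1 : HasDerivAt (fun y => D.K (D.U y v₀)) (D.K (-D.K (D.U x v₀))) x :=
    D.K.hasFDerivAt.comp_hasDerivAt x (D.hasDerivAt_Uv v₀ x)
  have h := ((D.hasDerivAt_Uv v₀ x).inner ℝ (D.hasDerivAt_ψ' x)).sub
    (h1.inner ℝ (D.hasDerivAt_ψ x))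
  refine h.congr_deriv ?_
  have hv' : D.U x v₀ + D.K (D.U x v₀) = D.e x := by
    rw [← D.U_comm_K, ← map_add, hv, e]
  set v := D.U x v₀ with hvdef
  have h2 : ⟪D.e x, D.M x (D.K (D.ψ x))⟫ = ⟪D.ψ x, D.K (D.ψ x)⟫ := D.inner_e_M x _
  have h3 : ⟪D.e x, D.ψ' x⟫ = ⟪D.e x, D.K (D.ψ x)⟫ - 2 * ⟪D.ψ x, D.K (D.ψ x)⟫ := by
    rw [ψ', inner_sub_right, inner_smul_right, h2]
  have h4 : ⟪D.e x, D.K (D.ψ x)⟫ = ⟪v, D.K (D.ψ x)⟫ + ⟪v, D.K (D.K (D.ψ x))⟫ := by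
    rw [← hv', inner_add_left, D.K_sa]
  have h5 : ⟪D.e x, D.ψ' x⟫ = ⟪v, D.ψ' x⟫ + ⟪v, D.K (D.ψ' x)⟫ := by
    rw [← hv', inner_add_left, D.K_sa]
  have hβ : D.β v₀ x = ⟪v, D.ψ x⟫ := rfl
  have hβ' : D.β' v₀ x = ⟪v, D.ψ' x⟫ - ⟪v, D.K (D.ψ x)⟫ := by
    rw [β', ← hvdef, D.K_sa]
  have hV : D.V x = -4 * ⟪D.ψ x, D.K (D.ψ x)⟫ := rfl
  rw [hβ', hβ, inner_add_right, inner_smul_right, inner_neg_left, map_neg, inner_neg_left,
    D.K_sa, D.K_sa, D.K_sa]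
  rw [h4, h5] at h3
  linear_combination -2 * h3 + hV

/-- The function `e^{-x} (1 - β x)` solves `w'' = (V + 1) w`. -/
noncomputable def w (v₀ : H) (x : ℝ) : ℝ := Real.exp (-x) * (1 - D.β v₀ x)

/-- The derivative of `w`. -/
noncomputable def w' (v₀ : H) (x : ℝ) : ℝ := -Real.exp (-x) * (1 - D.β v₀ x + D.β' v₀ x)

theorem hasDerivAt_w (v₀ : H) (x : ℝ) : HasDerivAt (D.w v₀) (D.w' v₀ x) x := by
  have h1 : HasDerivAt (fun y : ℝ => Real.exp (-y)) (-Real.exp (-x)) x := by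
    simpa using (hasDerivAt_neg x).exp
  have h := h1.mul ((D.hasDerivAt_β v₀ x).const_sub 1)
  refine h.congr_deriv ?_
  rw [w']
  ring

theorem hasDerivAt_w' (v₀ : H) (hv : v₀ + D.K v₀ = D.e₀) (x : ℝ) :
    HasDerivAt (D.w' v₀) ((D.V x + 1) * D.w v₀ x) x := by
  have h1 : HasDerivAt (fun y : ℝ => -Real.exp (-y)) (Real.exp (-x)) x := by
    have h0 : HasDerivAt (fun y : ℝ => Real.exp (-y)) (-Real.exp (-x)) x := by
      simpa using (hasDerivAt_neg x).exp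
    exact h0.neg.congr_deriv (neg_neg _)
  have h := h1.mul (((D.hasDerivAt_β v₀ x).const_sub 1).add (D.hasDerivAt_β' v₀ hv x))
  refine h.congr_deriv ?_
  rw [w, Pi.add_apply]
  ring

/-- If `⟪v x, ψ x⟫ = 1` then `q = (1 + K)⁻¹ ψ` satisfies `(1 + K) q = - (1 - K) C q`. -/
theorem key_of_β_eq_one (v₀ : H) (hv : v₀ + D.K v₀ = D.e₀) (x : ℝ) (h : D.β v₀ x = 1) (q : H)
    (hq : q + D.K q = D.ψ x) : q + D.K q = -(D.C x q - D.K (D.C x q)) := by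
  have hv' : D.U x v₀ + D.K (D.U x v₀) = D.e x := by
    rw [← D.U_comm_K, ← map_add, hv, e]
  have h1 : ⟪D.e x, q⟫ = 1 := by
    rw [← hv', inner_add_left, D.K_sa, ← inner_add_right, hq]
    exact h
  have h2 := D.lyap_C x q
  rw [h1, one_smul] at h2
  have h3 : D.ψ x + D.C x (D.ψ x) = D.e x := D.mul_M x _
  rw [← hq, map_add, ← h2] at h3
  have h4 : q + D.K q + D.C x q = D.K (D.C x q) := by
    have h5 : q + D.K q + D.C x q + D.C x (D.K q) = D.K (D.C x q) + D.C x (D.K q) := by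
      rw [← h3]
      abel
    exact add_right_cancel h5
  rw [neg_sub, ← h4]
  abel

end Data

end Pool.Agent.helper34.Soliton
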