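import Pool.Agent.helper34.Soliton.Positive

set_option autoImplicit false

/-!
# Two-sided bounds for the heat kernel and the Green function
-/

open MeasureTheory Set Real Filter Topology
open scoped NNReal ENNReal

namespace Pool.Agent.helper34.Soliton

open HeatLine

theorem g_zero_le {t : ℝ} (ht : 1 ≤ t) (ξ : ℝ) : g ξ t ≤ 1 := by
  have h0 : 0 < t := by linarith
  rw [g_eq h0]
  have h1 := one_le_sqrt_pi
  have h2 : 1 ≤ √t := one_le_sqrt.2 ht
  rw [div_le_one (by positivity)]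
  have h3 : exp (-(ξ ^ 2 / (4 * t))) ≤ 1 := exp_le_one_iff.2 (by
    have : 0 ≤ ξ ^ 2 / (4 * t) := by positivity
    linarith)
  nlinarith

theorem g_le_inv {ξ t : ℝ} (ht : 0 < t) (hξ : ξ ≠ 0) : g ξ t ≤ 1 / |ξ| := by
  have hs : 0 < √t := sqrt_pos.2 ht
  have hp := one_le_sqrt_pi
  have hx : 0 < |ξ| := abs_pos.2 hξ
  rw [g_eq ht, div_le_div_iff₀ (by positivity) hx, one_mul]
  set a := |ξ| / (2 * √t) with ha
  have ha2 : ξ ^ 2 / (4 * t) = a ^ 2 := by
    rw [ha, div_pow, mul_pow, sq_sqrt ht.le, sq_abs]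
    norm_num
  rw [ha2]
  have h1 : 2 * a ≤ exp (a ^ 2) := by
    have := add_one_le_exp (a ^ 2)
    nlinarith [sq_nonneg (a - 1)]
  have h2 : exp (-(a ^ 2)) * (2 * a) ≤ 1 := by
    calc exp (-(a ^ 2)) * (2 * a) ≤ exp (-(a ^ 2)) * exp (a ^ 2) :=
          mul_le_mul_of_nonneg_left h1 (exp_pos _).le
      _ = 1 := by rw [← exp_add, neg_add_cancel, exp_zero]
  have h3 : |ξ| = 2 * a * √t := by
    rw [ha]
    field_simp
  rw [h3]
  calc exp (-(a ^ 2)) * (2 * a * √t) = exp (-(a ^ 2)) * (2 * a) * √t := by ring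
    _ ≤ 1 * √t := mul_le_mul_of_nonneg_right h2 hs.le
    _ ≤ 2 * √π * √t := by nlinarith

namespace Params

variable (P : Params)

/-- `λ_j = 1 - κ_j²`. -/
noncomputable def lam (j : ℕ) : ℝ := 1 - P.κ j ^ 2

theorem lam_pos (j : ℕ) : 0 < P.lam j := by
  have h1 := P.κ_pos j
  have h2 := P.κ_lt j
  unfold lam
  nlinarith

theorem lam_le_one (j : ℕ) : P.lam j ≤ 1 := by
  unfold lam
  nlinarith [sq_nonneg (P.κ j)]

theorem exp_E_le (j : ℕ) (ξ t : ℝ) : exp (-t) * E (P.κ j) ξ t ≤ exp (-(P.lam j * t)) := by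
  have h := mul_le_mul_of_nonneg_left (E_le_exp (P.κ_pos j).le ξ t) (exp_pos (-t)).le
  refine h.trans (le_of_eq ?_)
  rw [← exp_add]
  congr 1
  unfold lam
  ring

theorem le_exp_E (j : ℕ) {ξ t : ℝ} (hξ : |ξ| ≤ 1) (ht : 1 ≤ t) :
    exp (-(P.lam j * t)) / 8 ≤ exp (-t) * E (P.κ j) ξ t := by
  have h := mul_le_mul_of_nonneg_left (le_E (P.κ_ge j) hξ ht) (exp_pos (-t)).le
  refine le_trans (le_of_eq ?_) h
  rw [mul_div_assoc', ← exp_add]
  congr 2
  unfold lam
  ring

theorem summable_T (x y : ℝ) {t : ℝ} (ht : 0 < t) : Summable fun j => P.T j x y t :=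
  P.summable_of_le fun j => P.abs_T_le j x y ht

theorem K_eq (x y t : ℝ) :
    P.K' x y t = exp (-t) * g (x - y) t + ∑' j, exp (-t) * P.T j x y t := by
  rw [tsum_mul_left, ← mul_add]
  rfl

theorem c_le (j : ℕ) : P.c j ≤ 1 / 8 :=
  (P.c_sum.le_tsum j fun i _ => (P.c_pos i).le).trans P.c_small

theorem summable_c_sq : Summable fun j => P.c j ^ 2 :=
  Summable.of_nonneg_of_le (fun j => sq_nonneg _) (fun j => by
    have h1 := P.c_le j
    have h2 := P.c_pos j
    nlinarith : ∀ j, P.c j ^ 2 ≤ P.c j) P.c_sum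

theorem exp_T_le (j : ℕ) (x y t : ℝ) :
    exp (-t) * P.T j x y t ≤ P.c j ^ 2 * (bd x * bd y) * exp (-(P.lam j * t)) := by
  have h1 := P.exp_E_le j (x - y) t
  have h2 := P.abs_ψ_le j x
  have h3 := P.abs_ψ_le j y
  have h4 : P.ψ j x * P.ψ j y ≤ P.c j ^ 2 * (bd x * bd y) := by
    refine (le_abs_self _).trans ?_
    rw [abs_mul]
    refine (mul_le_mul h2 h3 (abs_nonneg _) (mul_nonneg (P.c_pos j).le (bd_pos x).le)).trans
      (le_of_eq ?_)
    ring
  have h5 : 0 ≤ exp (-t) * E (P.κ j) (x - y) t :=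
    mul_nonneg (exp_pos _).le (E_nonneg (P.κ_pos j).le _ _)
  have h6 : 0 ≤ P.c j ^ 2 * (bd x * bd y) :=
    mul_nonneg (sq_nonneg _) (mul_pos (bd_pos x) (bd_pos y)).le
  calc exp (-t) * P.T j x y t = P.ψ j x * P.ψ j y * (exp (-t) * E (P.κ j) (x - y) t) := by
        unfold T
        ring
    _ ≤ P.c j ^ 2 * (bd x * bd y) * (exp (-t) * E (P.κ j) (x - y) t) :=
        mul_le_mul_of_nonneg_right h4 h5
    _ ≤ _ := mul_le_mul_of_nonneg_left h1 h6

theorem summable_bound (x y : ℝ) {t : ℝ} (ht : 0 ≤ t) :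
    Summable fun j => P.c j ^ 2 * (bd x * bd y) * exp (-(P.lam j * t)) := by
  have h := P.summable_c_sq.mul_right (bd x * bd y)
  refine Summable.of_nonneg_of_le (fun j => ?_) (fun j => ?_) h
  · exact mul_nonneg (mul_nonneg (sq_nonneg _) (mul_pos (bd_pos x) (bd_pos y)).le) (exp_pos _).le
  · refine mul_le_of_le_one_right (mul_nonneg (sq_nonneg _) (mul_pos (bd_pos x) (bd_pos y)).le) ?_
    rw [exp_le_one_iff]
    have := mul_nonneg (P.lam_pos j).le ht
    linarith

/-- Upper bound. -/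
theorem K_le (x y : ℝ) {t : ℝ} (ht : 0 < t) :
    P.K' x y t ≤ exp (-t) * g (x - y) t +
      ∑' j, P.c j ^ 2 * (bd x * bd y) * exp (-(P.lam j * t)) := by
  rw [P.K_eq]
  have h := ((P.summable_T x y ht).mul_left (exp (-t))).tsum_le_tsum
    (fun j => P.exp_T_le j x y t) (P.summable_bound x y ht.le)
  linarith

theorem ψ_ge {x : ℝ} (hx : x ∈ Icc (0 : ℝ) 1) (j : ℕ) :
    3 / 4 * (exp (-x) * P.c j) ≤ P.ψ j x := by
  have h1 := P.ψ_near (x := x) (by rw [abs_of_nonneg hx.1]; exact hx.2) j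
  have h2 := (abs_le.1 h1).1
  have h3 : exp (-x) ≤ exp (-(P.κ j * x)) := by
    rw [exp_le_exp]
    have := P.κ_lt j
    nlinarith [hx.1]
  have h4 := mul_le_mul_of_nonneg_right h3 (P.c_pos j).le
  linarith

theorem T_ge (j : ℕ) {x t : ℝ} (hx : x ∈ Icc (0 : ℝ) 1) (ht : 1 ≤ t) :
    1 / 40 * (P.c j ^ 2 * exp (-(P.lam j * t))) ≤ exp (-t) * P.T j x 0 t := by
  have h1 := P.ψ_ge hx j
  have h2 := P.ψ_ge (x := 0) (by constructor <;> norm_num) j
  rw [neg_zero, exp_zero, one_mul] at h2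
  have h3 := P.le_exp_E j (ξ := x - 0) (t := t) (by
    rw [sub_zero, abs_of_nonneg hx.1]
    exact hx.2) ht
  have h4 := P.c_pos j
  have h5 : exp (-1) ≤ exp (-x) := by
    rw [exp_le_exp]
    linarith [hx.2]
  have h6 : 0.36 ≤ exp (-1 : ℝ) := by
    have := exp_neg_one_gt_d9
    linarith
  have h7 : 0.36 * P.c j ≤ exp (-x) * P.c j := mul_le_mul_of_nonneg_right (by linarith) h4.le
  have h8 : (3 / 4 * (0.36 * P.c j)) * (3 / 4 * P.c j) ≤ P.ψ j x * P.ψ j 0 :=
    mul_le_mul (by linarith) h2 (by positivity) (by nlinarith)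
  have h9 : 0 < exp (-(P.lam j * t)) := exp_pos _
  calc 1 / 40 * (P.c j ^ 2 * exp (-(P.lam j * t)))
      ≤ (3 / 4 * (0.36 * P.c j)) * (3 / 4 * P.c j) * (exp (-(P.lam j * t)) / 8) := by
        have : 0 < P.c j ^ 2 * exp (-(P.lam j * t)) := by positivity
        nlinarith
    _ ≤ P.ψ j x * P.ψ j 0 * (exp (-t) * E (P.κ j) (x - 0) t) :=
        mul_le_mul h8 h3 (by positivity) (by nlinarith)
    _ = exp (-t) * P.T j x 0 t := by
        unfold T
        ring

/-- Lower bound. -/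
theorem le_K {x t : ℝ} (hx : x ∈ Icc (0 : ℝ) 1) (ht : 1 ≤ t) (s : Finset ℕ) :
    ∑ j ∈ s, 1 / 40 * (P.c j ^ 2 * exp (-(P.lam j * t))) ≤ P.K' x 0 t := by
  have ht0 : 0 < t := by linarith
  rw [P.K_eq]
  have h1 : ∀ j, 0 ≤ exp (-t) * P.T j x 0 t := fun j =>
    le_trans (by positivity) (P.T_ge j hx ht)
  have h2 : ∑ j ∈ s, exp (-t) * P.T j x 0 t ≤ ∑' j, exp (-t) * P.T j x 0 t :=
    ((P.summable_T x 0 ht0).mul_left (exp (-t))).sum_le_tsum s fun j _ => h1 j
  have h3 : ∑ j ∈ s, 1 / 40 * (P.c j ^ 2 * exp (-(P.lam j * t))) ≤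
      ∑ j ∈ s, exp (-t) * P.T j x 0 t := Finset.sum_le_sum fun j _ => P.T_ge j hx ht
  have h4 : 0 < exp (-t) * g (x - 0) t := mul_pos (exp_pos _) (g_pos ht0 _)
  linarith

/-- The Green function is finite if `∑ c_j² / λ_j < ∞`. -/
theorem green_lt_top (hs : Summable fun j => P.c j ^ 2 / P.lam j) {x y : ℝ} (hxy : x ≠ y) :
    green P.K' x y < ∞ := by
  unfold green
  have h1 : ∀ t ∈ Ioi (0 : ℝ), ENNReal.ofReal (P.K' x y t) ≤
      ENNReal.ofReal (exp (-t) * (1 / |x - y|)) +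
      ∑' j, ENNReal.ofReal (P.c j ^ 2 * (bd x * bd y) * exp (-(P.lam j * t))) := by
    intro t ht
    have ht' : 0 < t := ht
    have h2 := P.K_le x y ht'
    have h3 : exp (-t) * g (x - y) t ≤ exp (-t) * (1 / |x - y|) :=
      mul_le_mul_of_nonneg_left (g_le_inv ht' (sub_ne_zero.2 hxy)) (exp_pos _).le
    have h4 : ∀ j, 0 ≤ P.c j ^ 2 * (bd x * bd y) * exp (-(P.lam j * t)) := fun j =>
      mul_nonneg (mul_nonneg (sq_nonneg _) (mul_pos (bd_pos x) (bd_pos y)).le) (exp_pos _).le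
    rw [← ENNReal.ofReal_tsum_of_nonneg h4 (P.summable_bound x y ht'.le),
      ← ENNReal.ofReal_add (by positivity) (tsum_nonneg h4)]
    exact ENNReal.ofReal_le_ofReal (by linarith)
  have hint : ∀ a : ℝ, 0 < a → ∫⁻ t in Ioi (0 : ℝ), ENNReal.ofReal (exp (-(a * t))) =
      ENNReal.ofReal (1 / a) := by
    intro a ha
    have h2 : IntegrableOn (fun t => exp (-(a * t))) (Ioi (0 : ℝ)) := by
      have := integrableOn_exp_mul_Ioi (a := -a) (by linarith) 0
      simpa [neg_mul] using this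
    rw [← ofReal_integral_eq_lintegral_ofReal h2 (Eventually.of_forall fun t => (exp_pos _).le)]
    congr 1
    have := integral_exp_mul_Ioi (a := -a) (by linarith) 0
    simp only [neg_mul, mul_zero, exp_zero] at this
    rw [this]
    field_simp
  calc ∫⁻ t in Ioi (0 : ℝ), ENNReal.ofReal (P.K' x y t)
      ≤ ∫⁻ t in Ioi (0 : ℝ), (ENNReal.ofReal (exp (-t) * (1 / |x - y|)) +
          ∑' j, ENNReal.ofReal (P.c j ^ 2 * (bd x * bd y) * exp (-(P.lam j * t)))) :=
        setLIntegral_mono' measurableSet_Ioi h1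
    _ = (∫⁻ t in Ioi (0 : ℝ), ENNReal.ofReal (exp (-t) * (1 / |x - y|))) +
          ∑' j, ∫⁻ t in Ioi (0 : ℝ),
            ENNReal.ofReal (P.c j ^ 2 * (bd x * bd y) * exp (-(P.lam j * t))) := by
        rw [lintegral_add_left (by fun_prop), lintegral_tsum]
        intro j
        fun_prop
    _ = ENNReal.ofReal (1 / |x - y|) +
          ∑' j, ENNReal.ofReal (P.c j ^ 2 / P.lam j * (bd x * bd y)) := by
        congr 1
        · have h2 : ∀ t : ℝ, ENNReal.ofReal (exp (-t) * (1 / |x - y|)) =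
              ENNReal.ofReal (1 / |x - y|) * ENNReal.ofReal (exp (-(1 * t))) := by
            intro t
            rw [← ENNReal.ofReal_mul (by positivity), one_mul, mul_comm]
          simp_rw [h2]
          rw [lintegral_const_mul _ (by fun_prop), hint 1 one_pos]
          simp
        · refine tsum_congr fun j => ?_
          have h4 : 0 ≤ P.c j ^ 2 * (bd x * bd y) :=
            mul_nonneg (sq_nonneg _) (mul_pos (bd_pos x) (bd_pos y)).le
          have h2 : ∀ t : ℝ, ENNReal.ofReal (P.c j ^ 2 * (bd x * bd y) * exp (-(P.lam j * t))) =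
              ENNReal.ofReal (P.c j ^ 2 * (bd x * bd y)) *
                ENNReal.ofReal (exp (-(P.lam j * t))) := by
            intro t
            rw [← ENNReal.ofReal_mul h4]
          simp_rw [h2]
          rw [lintegral_const_mul _ (by fun_prop), hint _ (P.lam_pos j), ← ENNReal.ofReal_mul h4]
          congr 1
          ring
    _ < ∞ := by
        have h5 : Summable fun j => P.c j ^ 2 / P.lam j * (bd x * bd y) := hs.mul_right _
        have h6 : ∀ j, 0 ≤ P.c j ^ 2 / P.lam j * (bd x * bd y) := fun j =>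
          mul_nonneg (div_nonneg (sq_nonneg _) (P.lam_pos j).le)
            (mul_pos (bd_pos x) (bd_pos y)).le
        rw [← ENNReal.ofReal_tsum_of_nonneg h6 h5]
        exact ENNReal.add_lt_top.2 ⟨ENNReal.ofReal_lt_top, ENNReal.ofReal_lt_top⟩

/-- The Green function is infinite if `c_j² / λ_j` is bounded below. -/
theorem green_eq_top {δ : ℝ} (hδ : 0 < δ) (hs : ∀ j, δ ≤ P.c j ^ 2 / P.lam j) :
    green P.K' 1 0 = ∞ := by
  refine ENNReal.eq_top_of_forall_nnreal_le fun r => ?_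
  obtain ⟨N, hN⟩ := exists_nat_gt ((r : ℝ) / (δ / 40 * exp (-1)))
  have h0 : 0 < δ / 40 * exp (-1) := by positivity
  rw [div_lt_iff₀ h0] at hN
  unfold green
  have hint : ∀ a : ℝ, 0 < a → IntegrableOn (fun t => exp (-(a * t))) (Ioi (1 : ℝ)) := by
    intro a ha
    have := integrableOn_exp_mul_Ioi (a := -a) (by linarith) 1
    simpa [neg_mul] using this
  have hval : ∀ a : ℝ, 0 < a → ∫ t in Ioi (1 : ℝ), exp (-(a * t)) = exp (-a) / a := by
    intro a ha
    have := integral_exp_mul_Ioi (a := -a) (by linarith) 1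
    simp only [neg_mul, mul_one] at this
    rw [this]
    field_simp
  have h1 : ENNReal.ofReal (∫ t in Ioi (1 : ℝ), ∑ j ∈ Finset.range N,
      1 / 40 * (P.c j ^ 2 * exp (-(P.lam j * t)))) ≤
      ∫⁻ t in Ioi (0 : ℝ), ENNReal.ofReal (P.K' 1 0 t) := by
    rw [ofReal_integral_eq_lintegral_ofReal]
    · refine (setLIntegral_mono' measurableSet_Ioi fun t ht => ?_).trans
        (lintegral_mono_set (Ioi_subset_Ioi zero_le_one))
      exact ENNReal.ofReal_le_ofReal
        (P.le_K (x := 1) (by constructor <;> norm_num) (le_of_lt ht) _)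
    · exact integrable_finsetSum _ fun j _ =>
        (((hint _ (P.lam_pos j)).const_mul (P.c j ^ 2)).const_mul (1 / 40))
    · refine Eventually.of_forall fun t => Finset.sum_nonneg fun j _ => ?_
      positivity
  refine le_trans ?_ h1
  rw [← ENNReal.ofReal_coe_nnreal]
  refine ENNReal.ofReal_le_ofReal ?_
  rw [integral_finsetSum _ fun j _ =>
    (((hint _ (P.lam_pos j)).const_mul (P.c j ^ 2)).const_mul (1 / 40))]
  have h2 : ∀ j ∈ Finset.range N, δ / 40 * exp (-1) ≤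
      ∫ t in Ioi (1 : ℝ), 1 / 40 * (P.c j ^ 2 * exp (-(P.lam j * t))) := by
    intro j _
    rw [integral_const_mul, integral_const_mul, hval _ (P.lam_pos j)]
    have h3 : exp (-1) ≤ exp (-P.lam j) := by
      rw [exp_le_exp]
      linarith [P.lam_le_one j]
    have h4 : 1 / 40 * (P.c j ^ 2 * (exp (-P.lam j) / P.lam j)) =
        (P.c j ^ 2 / P.lam j) / 40 * exp (-P.lam j) := by ring
    rw [h4]
    have h5 := hs j
    exact mul_le_mul (by linarith) h3 (exp_pos _).le (by linarith)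
  have h3 := Finset.card_nsmul_le_sum (Finset.range N) _ _ h2
  rw [Finset.card_range, nsmul_eq_mul] at h3
  exact hN.le.trans h3

end Params

end Pool.Agent.helper34.Soliton
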