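import Pool.Agent.helper34.Soliton.Bounds

set_option autoImplicit false

/-!
# The two operators
-/

open MeasureTheory Set Real Filter Topology
open scoped NNReal ENNReal

namespace Pool.Agent.helper34.Soliton

open HeatLine

/-- Parameters from `l j = 1 - κ_j²`. -/
noncomputable def mkParams (l : ℕ → ℝ) (hl : ∀ j, 0 < l j) (hl' : ∀ j, l j ≤ 3 / 4)
    (c : ℕ → ℝ) (hc : ∀ j, 0 < c j) (hs : Summable c) (hs' : ∑' j, c j ≤ 1 / 8) : Params where
  κ j := √(1 - l j)
  c := c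
  κ_ge j := by
    rw [le_sqrt (by norm_num) (by linarith [hl' j])]
    linarith [hl' j]
  κ_lt j := by
    rw [sqrt_lt' one_pos]
    linarith [hl j]
  c_pos := hc
  c_sum := hs
  c_small := hs'

theorem mkParams_lam (l : ℕ → ℝ) (hl : ∀ j, 0 < l j) (hl' : ∀ j, l j ≤ 3 / 4)
    (c : ℕ → ℝ) (hc : ∀ j, 0 < c j) (hs : Summable c) (hs' : ∑' j, c j ≤ 1 / 8) (j : ℕ) :
    (mkParams l hl hl' c hc hs hs').lam j = l j := by
  change 1 - √(1 - l j) ^ 2 = l j
  rw [sq_sqrt (by linarith [hl' j])]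
  ring

/-- A super-lacunary sequence. -/
noncomputable def mu (n : ℕ) : ℝ := (1 / 2) ^ (16 ^ n)

theorem mu_pos (n : ℕ) : 0 < mu n := by
  unfold mu
  positivity

theorem mu_anti {m n : ℕ} (h : m ≤ n) : mu n ≤ mu m :=
  pow_le_pow_of_le_one (by norm_num) (by norm_num) (Nat.pow_le_pow_right (by norm_num) h)

theorem mu_succ (n : ℕ) : mu (n + 1) = mu n ^ 16 := by
  unfold mu
  rw [← pow_mul, pow_succ]

theorem mu_le (n : ℕ) : mu n ≤ (1 / 2) ^ (n + 1) := by
  refine pow_le_pow_of_le_one (by norm_num) (by norm_num) ?_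
  exact Nat.succ_le_of_lt (Nat.lt_pow_self (by norm_num))

theorem mu_le_half (n : ℕ) : mu n ≤ 1 / 2 := by
  have h := mu_anti (Nat.zero_le n)
  have h0 : mu 0 = 1 / 2 := by simp [mu]
  linarith

theorem hasSum_half : HasSum (fun n : ℕ => (1 / 2 : ℝ) ^ (n + 1)) 1 := by
  have h := hasSum_geometric_two.mul_left (1 / 2 : ℝ)
  have h2 : (fun n : ℕ => (1 / 2 : ℝ) ^ (n + 1)) = fun n => 1 / 2 * (1 / 2 : ℝ) ^ n := by
    funext n
    rw [pow_succ]
    ring
  have h3 : (1 / 2 : ℝ) * 2 = 1 := by norm_num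
  rw [h3] at h
  rw [h2]
  exact h

theorem summable_mu : Summable mu :=
  Summable.of_nonneg_of_le (fun n => (mu_pos n).le) mu_le hasSum_half.summable

theorem tsum_mu_le : ∑' n, mu n ≤ 1 := by
  rw [← hasSum_half.tsum_eq]
  exact summable_mu.tsum_le_tsum mu_le hasSum_half.summable

/-- The parameters of the critical operator. -/
noncomputable def P₀ : Params := mkParams (fun j => mu j ^ 2) (fun j => pow_pos (mu_pos j) 2)
  (fun j => by
    have h1 := mu_pos j
    have h2 := mu_le_half j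
    nlinarith) (fun j => 1 / 8 * mu j) (fun j => by have := mu_pos j; positivity)
  (summable_mu.mul_left _) (by
    rw [tsum_mul_left]
    have := tsum_mu_le
    linarith)

theorem P₀_lam (j : ℕ) : P₀.lam j = mu j ^ 2 := mkParams_lam _ _ _ _ _ _ _ j

theorem P₀_c (j : ℕ) : P₀.c j = 1 / 8 * mu j := rfl

theorem P₀_critical : P₀.op.IsCritical P₀.K' := by
  refine ⟨P₀.nonneg, P₀.isHeatKernel, fun h => ?_⟩
  have h1 : green P₀.K' 1 0 = ∞ := P₀.green_eq_top (δ := 1 / 64) (by norm_num) fun j => by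
    rw [P₀_lam, P₀_c]
    have := mu_pos j
    refine le_of_eq ?_
    field_simp
    norm_num
  have h2 := h 1 0 one_ne_zero
  rw [h1] at h2
  exact lt_irrefl _ h2

/-- A geometric sequence. -/
noncomputable def nu (n : ℕ) : ℝ := (1 / 4) ^ (n + 1)

theorem nu_pos (n : ℕ) : 0 < nu n := by
  unfold nu
  positivity

theorem nu_le (n : ℕ) : nu n ≤ (1 / 2) ^ (n + 1) :=
  pow_le_pow_left₀ (by norm_num) (by norm_num) _

theorem nu_le_quarter (n : ℕ) : nu n ≤ 1 / 4 := by
  unfold nu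
  rw [pow_succ]
  have : (1 / 4 : ℝ) ^ n ≤ 1 := pow_le_one₀ (by norm_num) (by norm_num)
  linarith

theorem summable_nu : Summable nu :=
  Summable.of_nonneg_of_le (fun n => (nu_pos n).le) nu_le hasSum_half.summable

theorem tsum_nu_le : ∑' n, nu n ≤ 1 := by
  rw [← hasSum_half.tsum_eq]
  exact summable_nu.tsum_le_tsum nu_le hasSum_half.summable

/-- The parameters of the subcritical operator. -/
noncomputable def P₁ : Params := mkParams nu nu_pos
  (fun j => by
    have h2 := nu_le_quarter j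
    linarith) (fun j => 1 / 8 * nu j) (fun j => by have := nu_pos j; positivity)
  (summable_nu.mul_left _) (by
    rw [tsum_mul_left]
    have := tsum_nu_le
    linarith)

theorem P₁_lam (j : ℕ) : P₁.lam j = nu j := mkParams_lam _ _ _ _ _ _ _ j

theorem P₁_c (j : ℕ) : P₁.c j = 1 / 8 * nu j := rfl

theorem P₁_subcritical : P₁.op.IsSubcritical P₁.K' := by
  refine ⟨P₁.nonneg, P₁.isHeatKernel, fun x y hxy => P₁.green_lt_top ?_ hxy⟩
  have h : (fun j => P₁.c j ^ 2 / P₁.lam j) = fun j => 1 / 64 * nu j := by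
    funext j
    rw [P₁_lam, P₁_c]
    have := nu_pos j
    field_simp
    norm_num
  rw [h]
  exact summable_nu.mul_left _

/-- The times. -/
noncomputable def tn (n : ℕ) : ℝ := 2 ^ (4 * 16 ^ n)

theorem tn_pos (n : ℕ) : 0 < tn n := by
  unfold tn
  positivity

theorem one_le_tn (n : ℕ) : 1 ≤ tn n := one_le_pow₀ (by norm_num)

theorem mu_tn (n : ℕ) : mu n ^ 4 * tn n = 1 := by
  unfold mu tn
  rw [← pow_mul, mul_comm (16 ^ n) 4, ← mul_pow]
  norm_num

theorem nu_tn (n : ℕ) : nu (2 * 16 ^ n - 1) * tn n = 1 := by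
  unfold nu tn
  have h1 : 2 * 16 ^ n - 1 + 1 = 2 * 16 ^ n := Nat.sub_add_cancel (by
    have : 0 < 16 ^ n := by positivity
    omega)
  have h2 : 4 * 16 ^ n = 2 * (2 * 16 ^ n) := by ring
  rw [h1, h2, pow_mul 2 2 (2 * 16 ^ n), ← mul_pow]
  norm_num

theorem tendsto_tn : Tendsto tn atTop atTop := by
  have h1 : Tendsto (fun n : ℕ => (2 : ℝ) ^ n) atTop atTop :=
    tendsto_pow_atTop_atTop_of_one_lt (by norm_num)
  refine tendsto_atTop_mono (fun n => ?_) h1
  unfold tn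
  refine pow_le_pow_right₀ (by norm_num) ?_
  have : n < 16 ^ n := Nat.lt_pow_self (by norm_num)
  omega

theorem exp_neg_le {s : ℝ} (hs : 0 < s) (n : ℕ) : exp (-s) ≤ n.factorial / s ^ n := by
  have h := pow_div_factorial_le_exp s hs.le n
  rw [exp_neg, inv_le_comm₀ (exp_pos _) (by positivity), inv_div]
  exact h

theorem term_le (n j : ℕ) : mu j ^ 2 * exp (-(mu j ^ 2 * tn n)) ≤ 40320 / tn n ^ 4 * mu j := by
  have h0 := mu_pos j
  have h0' := mu_pos n
  have h1 := mu_le_half j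
  have ht := tn_pos n
  have h16 : mu n ^ 16 = 1 / tn n ^ 4 := by
    rw [eq_div_iff (by positivity)]
    calc mu n ^ 16 * tn n ^ 4 = (mu n ^ 4 * tn n) ^ 4 := by ring
      _ = 1 := by rw [mu_tn, one_pow]
  rcases Nat.lt_or_ge n j with h | h
  · have h2 : mu j ≤ mu n ^ 16 := by
      rw [← mu_succ]
      exact mu_anti h
    have h3 : exp (-(mu j ^ 2 * tn n)) ≤ 1 := exp_le_one_iff.2 (by
      have : 0 < mu j ^ 2 * tn n := by positivity
      linarith)
    calc mu j ^ 2 * exp (-(mu j ^ 2 * tn n)) ≤ mu j ^ 2 * 1 :=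
          mul_le_mul_of_nonneg_left h3 (by positivity)
      _ = mu j * mu j := by ring
      _ ≤ mu n ^ 16 * mu j := mul_le_mul_of_nonneg_right h2 h0.le
      _ = 1 / tn n ^ 4 * mu j := by rw [h16]
      _ ≤ 40320 / tn n ^ 4 * mu j := by
          refine mul_le_mul_of_nonneg_right ?_ h0.le
          exact div_le_div_of_nonneg_right (by norm_num) (by positivity)
  · have h2 : mu n ^ 2 ≤ mu j ^ 2 := pow_le_pow_left₀ h0'.le (mu_anti h) 2
    have h3 : exp (-(mu j ^ 2 * tn n)) ≤ exp (-(mu n ^ 2 * tn n)) := by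
      rw [exp_le_exp]
      have := mul_le_mul_of_nonneg_right h2 ht.le
      linarith
    have h4 : (mu n ^ 2 * tn n) ^ 8 = tn n ^ 4 := by
      calc (mu n ^ 2 * tn n) ^ 8 = (mu n ^ 4 * tn n) ^ 4 * tn n ^ 4 := by ring
        _ = tn n ^ 4 := by rw [mu_tn, one_pow, one_mul]
    have h5 := exp_neg_le (s := mu n ^ 2 * tn n) (by positivity) 8
    rw [h4] at h5
    have h6 : ((8 : ℕ).factorial : ℝ) = 40320 := by norm_num [Nat.factorial]
    rw [h6] at h5
    have h7 : mu j ^ 2 ≤ mu j := by nlinarith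
    calc mu j ^ 2 * exp (-(mu j ^ 2 * tn n)) ≤ mu j * (40320 / tn n ^ 4) :=
          mul_le_mul h7 (h3.trans h5) (exp_pos _).le h0.le
      _ = _ := mul_comm _ _

theorem bd_zero : Params.bd 0 = 3 := by
  simp [Params.bd]

theorem K₀_le (n : ℕ) : P₀.K' 0 0 (tn n) ≤ 6000 / tn n ^ 4 := by
  have ht := tn_pos n
  have ht1 := one_le_tn n
  have h1 := P₀.K_le 0 0 ht
  have h2 : exp (-tn n) * g (0 - 0) (tn n) ≤ 24 / tn n ^ 4 := by
    have h3 := exp_neg_le ht 4
    have h4 : ((4 : ℕ).factorial : ℝ) = 24 := by norm_num [Nat.factorial]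
    rw [h4] at h3
    have h5 := g_zero_le ht1 (0 - 0)
    have h6 := exp_pos (-tn n)
    calc exp (-tn n) * g (0 - 0) (tn n) ≤ exp (-tn n) * 1 := mul_le_mul_of_nonneg_left h5 h6.le
      _ = exp (-tn n) := mul_one _
      _ ≤ _ := h3
  have h3 : ∀ j, P₀.c j ^ 2 * (Params.bd 0 * Params.bd 0) * exp (-(P₀.lam j * tn n)) ≤
      9 / 64 * (40320 / tn n ^ 4) * mu j := by
    intro j
    rw [P₀_c, P₀_lam, bd_zero]
    have h4 := term_le n j
    calc (1 / 8 * mu j) ^ 2 * (3 * 3) * exp (-(mu j ^ 2 * tn n)) =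
        9 / 64 * (mu j ^ 2 * exp (-(mu j ^ 2 * tn n))) := by ring
      _ ≤ 9 / 64 * (40320 / tn n ^ 4 * mu j) := by linarith
      _ = _ := by ring
  have h4 := (P₀.summable_bound 0 0 ht.le).tsum_le_tsum h3 (summable_mu.mul_left _)
  rw [tsum_mul_left] at h4
  have h5 : 9 / 64 * (40320 / tn n ^ 4) * ∑' j, mu j ≤ 9 / 64 * (40320 / tn n ^ 4) * 1 :=
    mul_le_mul_of_nonneg_left tsum_mu_le (by positivity)
  have h6 : 24 / tn n ^ 4 + 9 / 64 * (40320 / tn n ^ 4) * 1 ≤ 6000 / tn n ^ 4 := by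
    have h7 : 0 < 1 / tn n ^ 4 := by positivity
    have h8 : 24 / tn n ^ 4 = 24 * (1 / tn n ^ 4) := by ring
    have h9 : 9 / 64 * (40320 / tn n ^ 4) * 1 = 5670 * (1 / tn n ^ 4) := by ring
    have h10 : 6000 / tn n ^ 4 = 6000 * (1 / tn n ^ 4) := by ring
    rw [h8, h9, h10]
    nlinarith
  exact h1.trans ((add_le_add h2 (h4.trans h5)).trans h6)

theorem K₁_ge (n : ℕ) : 1 / 10000 / tn n ^ 2 ≤ P₁.K' 0 0 (tn n) := by
  have ht := tn_pos n
  have ht1 := one_le_tn n
  have h1 := P₁.le_K (x := 0) (by constructor <;> norm_num) ht1 {2 * 16 ^ n - 1}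
  rw [Finset.sum_singleton, P₁_c, P₁_lam, nu_tn] at h1
  refine le_trans ?_ h1
  have h2 : nu (2 * 16 ^ n - 1) = 1 / tn n := by
    rw [eq_div_iff ht.ne']
    exact nu_tn n
  rw [h2]
  have h3 : 0.36 ≤ exp (-1 : ℝ) := by
    have := exp_neg_one_gt_d9
    linarith
  have h4 : 1 / 40 * ((1 / 8 * (1 / tn n)) ^ 2 * exp (-1)) = exp (-1) / 2560 / tn n ^ 2 := by
    field_simp
    norm_num
  rw [h4]
  exact div_le_div_of_nonneg_right (by linarith) (by positivity)

theorem ratio_ge (n : ℕ) : 1 / 60000000 * tn n ≤ P₁.K' 0 0 (tn n) / P₀.K' 0 0 (tn n) := by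
  have ht := tn_pos n
  have ht1 := one_le_tn n
  have h0 := P₀.K_pos' 0 0 ht
  rw [le_div_iff₀ h0]
  calc 1 / 60000000 * tn n * P₀.K' 0 0 (tn n) ≤ 1 / 60000000 * tn n * (6000 / tn n ^ 4) :=
        mul_le_mul_of_nonneg_left (K₀_le n) (by positivity)
    _ ≤ 1 / 10000 / tn n ^ 2 := by
        have h1 : 1 / 60000000 * tn n * (6000 / tn n ^ 4) = 1 / 10000 / tn n ^ 2 * (1 / tn n) := by
          field_simp
          norm_num
        rw [h1]
        refine mul_le_of_le_one_right (by positivity) ?_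
        rw [div_le_one ht]
        exact ht1
    _ ≤ _ := K₁_ge n

theorem tendsto_ratio :
    Tendsto (fun n => P₁.K' 0 0 (tn n) / P₀.K' 0 0 (tn n)) atTop atTop :=
  tendsto_atTop_mono ratio_ge (tendsto_tn.const_mul_atTop (by norm_num))

end Pool.Agent.helper34.Soliton
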