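import Mathlib

set_option autoImplicit false

/-!
# Integrals of kernels against continuous functions with compact support
-/

open MeasureTheory Set Real Filter Topology

namespace Pool.Agent.helper34.Soliton

/-- Differentiation under the integral sign against a continuous function with compact support. -/
theorem hasDerivAt_integral_cs {F F' : ℝ → ℝ → ℝ} {f : ℝ → ℝ} (hf : Continuous f)
    (hcs : HasCompactSupport f) {s : Set ℝ} (hs : IsOpen s) {a : ℝ} (ha : a ∈ s)
    (hF : ∀ a ∈ s, ∀ y, HasDerivAt (fun a => F a y) (F' a y) a)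
    (hFc : ContinuousOn (fun p : ℝ × ℝ => F p.1 p.2) (s ×ˢ univ))
    (hF'c : ContinuousOn (fun p : ℝ × ℝ => F' p.1 p.2) (s ×ˢ univ)) :
    HasDerivAt (fun a => ∫ y, F a y * f y) (∫ y, F' a y * f y) a := by
  obtain ⟨ε, hε, hball⟩ := Metric.nhds_basis_closedBall.mem_iff.1 (hs.mem_nhds ha)
  have hcomp : IsCompact (Metric.closedBall a ε ×ˢ tsupport f) :=
    (isCompact_closedBall a ε).prod hcs
  obtain ⟨C, hC⟩ := hcomp.exists_bound_of_continuousOn
    (hF'c.mono (prod_mono hball (subset_univ _)))
  have hcont : ∀ a ∈ s, Continuous fun y => F a y := fun a ha => by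
    have h := hFc.comp (s := univ) (f := fun y : ℝ => (a, y)) (by fun_prop)
      (fun y _ => ⟨ha, mem_univ _⟩)
    exact continuousOn_univ.1 h
  have hcont' : ∀ a ∈ s, Continuous fun y => F' a y := fun a ha => by
    have h := hF'c.comp (s := univ) (f := fun y : ℝ => (a, y)) (by fun_prop)
      (fun y _ => ⟨ha, mem_univ _⟩)
    exact continuousOn_univ.1 h
  refine (hasDerivAt_integral_of_dominated_loc_of_deriv_le (bound := fun y => |C| * |f y|)
    (F := fun a y => F a y * f y) (F' := fun a y => F' a y * f y)
    (Metric.closedBall_mem_nhds a hε) ?_ ?_ ?_ ?_ ?_ ?_).2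
  · filter_upwards [hs.mem_nhds ha] with b hb
    exact ((hcont b hb).mul hf).aestronglyMeasurable
  · exact ((hcont a ha).mul hf).integrable_of_hasCompactSupport hcs.mul_left
  · exact ((hcont' a ha).mul hf).aestronglyMeasurable
  · refine Eventually.of_forall fun y b hb => ?_
    rw [norm_mul, Real.norm_eq_abs, Real.norm_eq_abs]
    by_cases hy : y ∈ tsupport f
    · have := hC (b, y) ⟨hb, hy⟩
      rw [Real.norm_eq_abs] at this
      exact mul_le_mul_of_nonneg_right (this.trans (le_abs_self C)) (abs_nonneg _)
    · rw [image_eq_zero_of_notMem_tsupport hy]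
      simp
  · exact (hf.abs.const_smul |C|).integrable_of_hasCompactSupport (by
      have := hcs.norm
      exact HasCompactSupport.mul_left (f := fun _ => |C|) this)
  · refine Eventually.of_forall fun y b hb => ?_
    exact (hF b (hball hb) y).mul_const _

/-- Continuity of such integrals in the parameters. -/
theorem continuousOn_integral_cs {X : Type*} [TopologicalSpace X]
    {F : X → ℝ → ℝ} {f : ℝ → ℝ} (hf : Continuous f) (hcs : HasCompactSupport f) {s : Set X}
    (hFc : ContinuousOn (fun p : X × ℝ => F p.1 p.2) (s ×ˢ univ)) :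
    ContinuousOn (fun a => ∫ y, F a y * f y) s := by
  refine continuousOn_integral_of_compact_support (k := tsupport f) hcs ?_ ?_
  · exact hFc.mul (hf.comp continuous_snd).continuousOn
  · intro a y _ hy
    rw [image_eq_zero_of_notMem_tsupport hy, mul_zero]

/-- A continuous function whose integral against every nonnegative test function is nonnegative is
nonnegative. -/
theorem nonneg_of_integral_nonneg {h : ℝ → ℝ} (hh : Continuous h)
    (hint : ∀ f : ℝ → ℝ, Continuous f → HasCompactSupport f → (∀ x, 0 ≤ f x) →
      0 ≤ ∫ y, h y * f y) (y₀ : ℝ) : 0 ≤ h y₀ := by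
  by_contra hcon
  push Not at hcon
  obtain ⟨δ, hδ, hball⟩ := Metric.eventually_nhds_iff_ball.1
    (hh.continuousAt.eventually_lt (continuousAt_const (y := 0)) hcon : ∀ᶠ y in 𝓝 y₀, h y < 0)
  set f : ℝ → ℝ := fun y => max 0 (δ / 2 - |y - y₀|) with hfdef
  have hfc : Continuous f := by fun_prop
  have hfs : HasCompactSupport f := by
    refine HasCompactSupport.intro (isCompact_closedBall y₀ (δ / 2)) fun y hy => ?_
    rw [Metric.mem_closedBall, Real.dist_eq, not_le] at hy
    exact max_eq_left (by linarith)
  have hf0 : ∀ y, 0 ≤ f y := fun y => le_max_left _ _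
  have h1 := hint f hfc hfs hf0
  have hle : ∀ y, h y * f y ≤ 0 := by
    intro y
    by_cases hy : |y - y₀| < δ
    · exact mul_nonpos_of_nonpos_of_nonneg (hball y (by rwa [Metric.mem_ball, Real.dist_eq])).le
        (hf0 y)
    · have : f y = 0 := max_eq_left (by linarith)
      rw [this, mul_zero]
  have hc : Continuous fun y => -(h y * f y) := (hh.mul hfc).neg
  have hcs2 : HasCompactSupport fun y => -(h y * f y) := by
    have : HasCompactSupport fun y => h y * f y := hfs.mul_left
    exact this.neg
  have h2 : 0 < ∫ y, -(h y * f y) := by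
    refine hc.integral_pos_of_hasCompactSupport_nonneg_nonzero hcs2 (fun y => ?_) (x := y₀) ?_
    · have := hle y
      simp only [Pi.zero_apply]
      linarith
    · have h3 : f y₀ = δ / 2 := by
        simp only [hfdef, sub_self, abs_zero, sub_zero]
        exact max_eq_right (by linarith)
      rw [h3]
      have : h y₀ * (δ / 2) < 0 := mul_neg_of_neg_of_pos hcon (by linarith)
      linarith
  rw [integral_neg] at h2
  linarith

end Pool.Agent.helper34.Soliton
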