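import Pool.Agent.helper34.Soliton.Kernel
import Pool.Agent.helper34.Soliton.MaxPrinciple
import Pool.Agent.helper34.Soliton.Param

set_option autoImplicit false

/-!
# The kernel `exp (-t) k` of `-d²/dx² + V + 1`: positivity and minimality
-/

open MeasureTheory Set Real Filter Topology

namespace Pool.Agent.helper34.Soliton

/-- A kernel with its derivatives. -/
structure IsKer (N Nx Nxx Nt : ℝ → ℝ → ℝ → ℝ) : Prop where
  c : ContinuousOn (fun p : ℝ × ℝ × ℝ => N p.1 p.2.1 p.2.2) Params.Ω₃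
  cx : ContinuousOn (fun p : ℝ × ℝ × ℝ => Nx p.1 p.2.1 p.2.2) Params.Ω₃
  cxx : ContinuousOn (fun p : ℝ × ℝ × ℝ => Nxx p.1 p.2.1 p.2.2) Params.Ω₃
  ct : ContinuousOn (fun p : ℝ × ℝ × ℝ => Nt p.1 p.2.1 p.2.2) Params.Ω₃
  dx : ∀ x y t, 0 < t → HasDerivAt (fun x => N x y t) (Nx x y t) x
  dxx : ∀ x y t, 0 < t → HasDerivAt (fun x => Nx x y t) (Nxx x y t) x
  dt : ∀ x y t, 0 < t → HasDerivAt (fun t => N x y t) (Nt x y t) t

namespace IsKer

variable {N Nx Nxx Nt : ℝ → ℝ → ℝ → ℝ} (hN : IsKer N Nx Nxx Nt)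

/-- The integral of a kernel against a function. -/
noncomputable def ap (N : ℝ → ℝ → ℝ → ℝ) (f : ℝ → ℝ) (x t : ℝ) : ℝ := ∫ y, N x y t * f y

theorem slice {N : ℝ → ℝ → ℝ → ℝ}
    (h : ContinuousOn (fun p : ℝ × ℝ × ℝ => N p.1 p.2.1 p.2.2) Params.Ω₃) (x : ℝ) {t : ℝ}
    (ht : 0 < t) : Continuous fun y => N x y t := by
  have h := h.comp (s := univ) (f := fun y : ℝ => (x, y, t)) (by fun_prop)
    (fun y _ => ht)
  exact continuousOn_univ.1 h

theorem slice_x {N : ℝ → ℝ → ℝ → ℝ}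
    (h : ContinuousOn (fun p : ℝ × ℝ × ℝ => N p.1 p.2.1 p.2.2) Params.Ω₃) {t : ℝ}
    (ht : 0 < t) : ContinuousOn (fun p : ℝ × ℝ => N p.1 p.2 t) (univ ×ˢ univ) :=
  h.comp (f := fun p : ℝ × ℝ => (p.1, p.2, t)) (by fun_prop) (fun p _ => ht)

theorem slice_t {N : ℝ → ℝ → ℝ → ℝ}
    (h : ContinuousOn (fun p : ℝ × ℝ × ℝ => N p.1 p.2.1 p.2.2) Params.Ω₃) (x : ℝ) :
    ContinuousOn (fun p : ℝ × ℝ => N x p.2 p.1) (Ioi 0 ×ˢ univ) :=
  h.comp (f := fun p : ℝ × ℝ => (x, p.2, p.1)) (by fun_prop) (fun p hp => hp.1)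

theorem integrable_slice {N : ℝ → ℝ → ℝ → ℝ}
    (h : ContinuousOn (fun p : ℝ × ℝ × ℝ => N p.1 p.2.1 p.2.2) Params.Ω₃) {f : ℝ → ℝ}
    (hf : Continuous f) (hcs : HasCompactSupport f) (x : ℝ) {t : ℝ}
    (ht : 0 < t) : Integrable fun y => N x y t * f y :=
  ((slice h x ht).mul hf).integrable_of_hasCompactSupport hcs.mul_left

variable {f : ℝ → ℝ} (hf : Continuous f) (hcs : HasCompactSupport f)

include hN hf hcs

theorem ap_dx (x : ℝ) {t : ℝ} (ht : 0 < t) :
    HasDerivAt (fun x => ap N f x t) (ap Nx f x t) x :=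
  hasDerivAt_integral_cs (F := fun x y => N x y t) (F' := fun x y => Nx x y t) hf hcs isOpen_univ
    (mem_univ x) (fun x _ y => hN.dx x y t ht) (slice_x hN.c ht) (slice_x hN.cx ht)

theorem ap_dxx (x : ℝ) {t : ℝ} (ht : 0 < t) :
    HasDerivAt (fun x => ap Nx f x t) (ap Nxx f x t) x :=
  hasDerivAt_integral_cs (F := fun x y => Nx x y t) (F' := fun x y => Nxx x y t) hf hcs
    isOpen_univ (mem_univ x) (fun x _ y => hN.dxx x y t ht) (slice_x hN.cx ht) (slice_x hN.cxx ht)

theorem ap_dt (x : ℝ) {t : ℝ} (ht : 0 < t) :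
    HasDerivAt (fun t => ap N f x t) (ap Nt f x t) t :=
  hasDerivAt_integral_cs (F := fun t y => N x y t) (F' := fun t y => Nt x y t) hf hcs
    isOpen_Ioi ht (fun s hs y => hN.dt x y s hs) (slice_t hN.c x) (slice_t hN.ct x)

theorem ap_c : ContinuousOn (fun p : ℝ × ℝ => ap N f p.1 p.2) Ω₂ := by
  refine continuousOn_integral_cs (F := fun (p : ℝ × ℝ) y => N p.1 y p.2) hf hcs ?_
  exact hN.c.comp (f := fun p : (ℝ × ℝ) × ℝ => (p.1.1, p.2, p.1.2)) (by fun_prop)
    (fun p hp => hp.1)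

theorem integrable_ap (x : ℝ) {t : ℝ} (ht : 0 < t) : Integrable fun y => N x y t * f y :=
  ((slice hN.c x ht).mul hf).integrable_of_hasCompactSupport hcs.mul_left

end IsKer

namespace Params

variable (P : Params)

/-- The potential `V + 1`. -/
noncomputable def W (x : ℝ) : ℝ := P.V x + 1

/-- The heat kernel of `-d²/dx² + V + 1`. -/
noncomputable def K' (x y t : ℝ) : ℝ := exp (-t) * P.k x y t

noncomputable def Kx (x y t : ℝ) : ℝ := exp (-t) * P.kx x y t

noncomputable def Kxx (x y t : ℝ) : ℝ := exp (-t) * P.kxx x y t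

noncomputable def Kt (x y t : ℝ) : ℝ := exp (-t) * (P.kt x y t - P.k x y t)

theorem hasDerivAt_exp_neg (t : ℝ) : HasDerivAt (fun t : ℝ => exp (-t)) (-exp (-t)) t := by
  simpa using (hasDerivAt_neg t).exp

theorem continuousOn_exp : ContinuousOn (fun p : ℝ × ℝ × ℝ => exp (-p.2.2)) Ω₃ := by
  fun_prop

theorem isKer_K : IsKer P.K' P.Kx P.Kxx P.Kt where
  c := continuousOn_exp.mul P.continuousOn_k
  cx := continuousOn_exp.mul P.continuousOn_kx
  cxx := continuousOn_exp.mul P.continuousOn_kxx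
  ct := continuousOn_exp.mul (P.continuousOn_kt.sub P.continuousOn_k)
  dx := fun x y _ ht => (P.hasDerivAt_k_x x y ht).const_mul _
  dxx := fun x y _ ht => (P.hasDerivAt_k_xx x y ht).const_mul _
  dt := fun x y t ht => by
    refine ((hasDerivAt_exp_neg t).mul (P.hasDerivAt_k_t x y ht)).congr_deriv ?_
    unfold Kt
    ring

theorem pde_K (x y : ℝ) {t : ℝ} (ht : 0 < t) :
    P.Kt x y t = P.Kxx x y t - P.W x * P.K' x y t := by
  unfold Kt Kxx W K'
  rw [P.pde x y ht]
  ring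

/-- The Gaussian part `exp (-t) g`. -/
noncomputable def G' (x y t : ℝ) : ℝ := exp (-t) * g (x - y) t

theorem isKer_G : IsKer G' (fun x y t => exp (-t) * (-((x - y) / (2 * t)) * g (x - y) t))
    (fun x y t => exp (-t) * (((x - y) ^ 2 / (4 * t ^ 2) - 1 / (2 * t)) * g (x - y) t))
    (fun x y t => exp (-t) * (((x - y) ^ 2 / (4 * t ^ 2) - 1 / (2 * t)) * g (x - y) t -
      g (x - y) t)) where
  c := continuousOn_exp.mul (continuousOn_comp continuousOn_g)
  cx := continuousOn_exp.mul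
    (continuousOn_comp (f := fun ξ t => -(ξ / (2 * t)) * g ξ t) continuousOn_gx)
  cxx := continuousOn_exp.mul (continuousOn_comp
    (f := fun ξ t => (ξ ^ 2 / (4 * t ^ 2) - 1 / (2 * t)) * g ξ t) continuousOn_gxx)
  ct := continuousOn_exp.mul ((continuousOn_comp
    (f := fun ξ t => (ξ ^ 2 / (4 * t ^ 2) - 1 / (2 * t)) * g ξ t) continuousOn_gxx).sub
      (continuousOn_comp continuousOn_g))
  dx := fun x y _ ht => ((hasDerivAt_g_x ht (x - y)).comp_sub_const x y).const_mul _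
  dxx := fun x y _ ht => ((hasDerivAt_g_xx ht (x - y)).comp_sub_const x y).const_mul _
  dt := fun x y t ht => by
    refine ((hasDerivAt_exp_neg t).mul (hasDerivAt_g_t ht (x - y))).congr_deriv ?_
    ring

theorem abs_K_sub_le (x y : ℝ) {t : ℝ} (ht : 0 ≤ t) : |P.K' x y t - G' x y t| ≤ 4 * √t := by
  have h := P.abs_k_sub_g_le x y ht
  unfold K' G'
  rw [← mul_sub, abs_mul, abs_of_pos (exp_pos _)]
  calc exp (-t) * |P.k x y t - g (x - y) t| ≤ exp (-t) * (4 * exp t * √t) :=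
        mul_le_mul_of_nonneg_left h (exp_pos _).le
    _ = 4 * √t := by
        rw [show exp (-t) * (4 * exp t * √t) = exp (-t) * exp t * (4 * √t) by ring, ← exp_add,
          neg_add_cancel, exp_zero, one_mul]

theorem abs_K_le (x y : ℝ) {t : ℝ} (ht : 0 < t) :
    |P.K' x y t| ≤ g (x - y) t * (1 + 8 * t * exp |x - y|) := by
  have h := P.abs_k_le x y ht
  have hg := g_pos ht (x - y)
  unfold K'
  rw [abs_mul, abs_of_pos (exp_pos _)]
  calc exp (-t) * |P.k x y t| ≤ exp (-t) * (g (x - y) t * (1 + 8 * t * exp (t + |x - y|))) :=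
        mul_le_mul_of_nonneg_left h (exp_pos _).le
    _ = g (x - y) t * (exp (-t) + 8 * t * exp |x - y| * (exp (-t) * exp t)) := by
        rw [exp_add]
        ring
    _ ≤ _ := by
        rw [← exp_add, neg_add_cancel, exp_zero, mul_one]
        refine mul_le_mul_of_nonneg_left ?_ hg.le
        have : exp (-t) ≤ 1 := exp_le_one_iff.2 (by linarith)
        linarith

theorem K_symm (x y t : ℝ) : P.K' x y t = P.K' y x t := by
  unfold K'
  rw [P.k_symm]

theorem W_ge (x : ℝ) : -7 ≤ P.W x := by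
  have := P.D.V_ge x
  change -7 ≤ P.D.V x + 1
  linarith

theorem V_nonpos (x : ℝ) : P.V x ≤ 0 := P.D.V_nonpos x

/-- The Gaussian average, written so that it is continuous up to `t = 0`. -/
noncomputable def Gf (f : ℝ → ℝ) (x t : ℝ) : ℝ := (√π)⁻¹ * ∫ s, exp (-(s ^ 2)) * f (x - 2 * √t * s)

theorem integrable_gauss : Integrable fun s : ℝ => exp (-(s ^ 2)) := by
  have := integrable_exp_neg_mul_sq one_pos
  simpa using this

theorem integral_gauss : ∫ s : ℝ, exp (-(s ^ 2)) = √π := by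
  have := integral_gaussian 1
  simpa using this

theorem continuous_Gf {f : ℝ → ℝ} (hf : Continuous f) (hcs : HasCompactSupport f) :
    Continuous fun p : ℝ × ℝ => Gf f p.1 p.2 := by
  obtain ⟨C, hC⟩ := hcs.exists_bound_of_continuous hf
  unfold Gf
  refine continuous_const.mul ?_
  refine continuous_of_dominated (bound := fun s => exp (-(s ^ 2)) * C) (fun p => ?_) (fun p => ?_)
    (integrable_gauss.mul_const C) (Eventually.of_forall fun s => ?_)
  · exact Continuous.aestronglyMeasurable (by fun_prop)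
  · refine Eventually.of_forall fun s => ?_
    rw [norm_mul, Real.norm_eq_abs, abs_of_pos (exp_pos _)]
    exact mul_le_mul_of_nonneg_left (hC _) (exp_pos _).le
  · fun_prop

theorem Gf_zero (f : ℝ → ℝ) (x : ℝ) : Gf f x 0 = f x := by
  unfold Gf
  simp only [sqrt_zero, mul_zero, zero_mul, sub_zero]
  rw [integral_mul_const, integral_gauss]
  have : √π ≠ 0 := (sqrt_pos.2 pi_pos).ne'
  field_simp

theorem Gf_eq (f : ℝ → ℝ) (x : ℝ) {t : ℝ} (ht : 0 < t) :
    ∫ y, g (x - y) t * f y = Gf f x t := by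
  have hs : 0 < √t := sqrt_pos.2 ht
  have hp : 0 < √π := sqrt_pos.2 pi_pos
  have h1 : ∫ y, g (x - y) t * f y = ∫ u, g u t * f (x - u) := by
    have h := integral_sub_left_eq_self (fun u => g u t * f (x - u)) volume x
    rw [← h]
    refine integral_congr_ae (Eventually.of_forall fun y => ?_)
    simp only [sub_sub_cancel]
  have h2 : ∫ s, g (2 * √t * s) t * f (x - 2 * √t * s) =
      |(2 * √t)⁻¹| • ∫ u, g u t * f (x - u) :=
    Measure.integral_comp_mul_left (fun u => g u t * f (x - u)) (2 * √t)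
  have h3 : ∀ s, g (2 * √t * s) t * f (x - 2 * √t * s) =
      (2 * √π * √t)⁻¹ * (exp (-(s ^ 2)) * f (x - 2 * √t * s)) := by
    intro s
    rw [g_eq ht]
    have h4 : (2 * √t * s) ^ 2 / (4 * t) = s ^ 2 := by
      rw [mul_pow, mul_pow, sq_sqrt ht.le]
      field_simp
      ring
    rw [h4]
    ring
  rw [h1]
  simp_rw [h3] at h2
  rw [integral_const_mul, abs_of_pos (by positivity), smul_eq_mul] at h2
  unfold Gf
  have h5 : ∫ u, g u t * f (x - u) = (2 * √t) * ((2 * √t)⁻¹ * ∫ u, g u t * f (x - u)) := by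
    field_simp
  rw [h5, ← h2]
  field_simp

/-- The solution of the Cauchy problem with initial value `f`. -/
noncomputable def uf (f : ℝ → ℝ) (x t : ℝ) : ℝ := if 0 < t then IsKer.ap P.K' f x t else f x

theorem uf_pos (f : ℝ → ℝ) (x : ℝ) {t : ℝ} (ht : 0 < t) : P.uf f x t = IsKer.ap P.K' f x t :=
  if_pos ht

theorem uf_zero (f : ℝ → ℝ) (x : ℝ) : P.uf f x 0 = f x := if_neg (lt_irrefl 0)

theorem abs_uf_sub_le {f : ℝ → ℝ} (hf : Continuous f) (hcs : HasCompactSupport f) (x : ℝ) {t : ℝ}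
    (ht : 0 ≤ t) : |P.uf f x t - exp (-t) * Gf f x t| ≤ 4 * √t * ∫ y, |f y| := by
  rcases eq_or_lt_of_le ht with h | h
  · rw [← h, P.uf_zero, Gf_zero]
    simp
  · rw [P.uf_pos f x h, ← Gf_eq f x h, IsKer.ap, ← integral_const_mul, ← integral_sub
      (P.isKer_K.integrable_ap hf hcs x h)]
    · have h1 : (fun y => P.K' x y t * f y - exp (-t) * (g (x - y) t * f y)) =
          fun y => (P.K' x y t - G' x y t) * f y := by
        funext y
        unfold G'
        ring
      rw [h1]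
      have h2 := norm_integral_le_of_norm_le (f := fun y => (P.K' x y t - G' x y t) * f y)
        (g := fun y => 4 * √t * |f y|) (μ := volume) ?_ ?_
      · rwa [integral_const_mul] at h2
      · exact ((hf.abs.integrable_of_hasCompactSupport hcs.norm)).const_mul _
      · refine Eventually.of_forall fun y => ?_
        rw [norm_mul]
        exact mul_le_mul_of_nonneg_right (P.abs_K_sub_le x y ht) (norm_nonneg _)
    · have h1 := isKer_G.integrable_ap hf hcs x h
      refine h1.congr (Eventually.of_forall fun y => ?_)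
      unfold G'
      ring

theorem continuousOn_uf {f : ℝ → ℝ} (hf : Continuous f) (hcs : HasCompactSupport f) :
    ContinuousOn (fun p : ℝ × ℝ => P.uf f p.1 p.2) (univ ×ˢ Ici 0) := by
  rintro ⟨x₀, t₀⟩ hp
  have ht₀ : 0 ≤ t₀ := hp.2
  rcases eq_or_lt_of_le ht₀ with h | h
  · subst h
    have h1 : Tendsto (fun p : ℝ × ℝ => P.uf f p.1 p.2 - exp (-p.2) * Gf f p.1 p.2)
        (𝓝[univ ×ˢ Ici 0] (x₀, 0)) (𝓝 0) := by
      refine squeeze_zero_norm' (a := fun p : ℝ × ℝ => 4 * √p.2 * ∫ y, |f y|) ?_ ?_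
      · filter_upwards [self_mem_nhdsWithin] with p hp
        exact P.abs_uf_sub_le hf hcs p.1 hp.2
      · have h2 : Continuous fun p : ℝ × ℝ => 4 * √p.2 * ∫ y, |f y| := by fun_prop
        have h3 := h2.tendsto (x₀, 0)
        simp only [sqrt_zero, mul_zero, zero_mul] at h3
        exact h3.mono_left nhdsWithin_le_nhds
    have h4 : Continuous fun p : ℝ × ℝ => exp (-p.2) * Gf f p.1 p.2 := by
      have := continuous_Gf hf hcs
      fun_prop
    have h5 := (h4.tendsto (x₀, 0)).mono_left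
      (nhdsWithin_le_nhds (s := (univ : Set ℝ) ×ˢ Ici (0 : ℝ)))
    have h6 := h1.add h5
    simp only [sub_add_cancel, neg_zero, exp_zero, one_mul, zero_add, Gf_zero] at h6
    change Tendsto _ _ (𝓝 (P.uf f x₀ 0))
    rw [P.uf_zero]
    exact h6
  · have h1 := (P.isKer_K.ap_c hf hcs).continuousAt
      (isOpen_Ω₂.mem_nhds (show (x₀, t₀) ∈ Ω₂ from h))
    refine (h1.congr ?_).continuousWithinAt
    filter_upwards [isOpen_Ω₂.mem_nhds (show (x₀, t₀) ∈ Ω₂ from h)] with p hp
    exact (P.uf_pos f p.1 hp).symm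

theorem kernel_decay {ξ t T : ℝ} (ht : 0 < t) (htT : t ≤ T) (h1 : 1 ≤ |ξ|) (h2 : 16 * T ≤ |ξ|) :
    g ξ t * (1 + 8 * t * exp |ξ|) ≤ (1 + 8 * T) * exp (-|ξ|) := by
  have hT : 0 < T := lt_of_lt_of_le ht htT
  have h3 : g ξ t ≤ exp (-(2 * |ξ|)) := by
    refine (g_le ht htT h1).trans ?_
    rw [exp_le_exp, neg_le_neg_iff, le_div_iff₀ (by positivity), ← sq_abs ξ]
    nlinarith [abs_nonneg ξ]
  have h4 : 1 + 8 * t * exp |ξ| ≤ (1 + 8 * T) * exp |ξ| := by
    have h5 : 1 ≤ exp |ξ| := one_le_exp (abs_nonneg ξ)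
    nlinarith
  calc g ξ t * (1 + 8 * t * exp |ξ|) ≤ exp (-(2 * |ξ|)) * ((1 + 8 * T) * exp |ξ|) :=
        mul_le_mul h3 h4 (by positivity) (exp_pos _).le
    _ = (1 + 8 * T) * (exp (-(2 * |ξ|)) * exp |ξ|) := by ring
    _ = (1 + 8 * T) * exp (-|ξ|) := by
        rw [← exp_add]
        congr 2
        ring

theorem decay_gen {N : ℝ → ℝ → ℝ → ℝ}
    (hN : ∀ x y t, 0 < t → |N x y t| ≤ g (x - y) t * (1 + 8 * t * exp |x - y|))
    {f : ℝ → ℝ} (hf : Continuous f) (hcs : HasCompactSupport f) {T : ℝ} (hT : 0 < T)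
    {ε : ℝ} (hε : 0 < ε) : ∃ R, ∀ x, R ≤ |x| → ∀ t ∈ Ioc 0 T, |IsKer.ap N f x t| ≤ ε := by
  obtain ⟨L, hL⟩ : ∃ L, ∀ y, y ∈ tsupport f → |y| ≤ L := by
    obtain ⟨L, hL⟩ := hcs.isBounded.subset_closedBall 0
    exact ⟨L, fun y hy => by simpa using hL hy⟩
  set I := ∫ y, |f y| with hI
  have hI0 : 0 ≤ I := integral_nonneg fun y => abs_nonneg _
  obtain ⟨ρ, hρ⟩ : ∃ ρ : ℝ, ∀ r, ρ ≤ r → (1 + 8 * T) * exp (-r) * I ≤ ε := by
    have h1 : Tendsto (fun r : ℝ => (1 + 8 * T) * exp (-r) * I) atTop (𝓝 0) := by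
      have := (tendsto_exp_neg_atTop_nhds_zero.const_mul (1 + 8 * T)).mul_const I
      simpa using this
    have h2 := h1.eventually (ge_mem_nhds hε)
    exact eventually_atTop.1 h2
  refine ⟨L + max ρ (max 1 (16 * T)), fun x hx t ht => ?_⟩
  have h := ht.1
  have hfar : ∀ y, y ∈ tsupport f → max ρ (max 1 (16 * T)) ≤ |x - y| := by
    intro y hy
    have h1 := hL y hy
    have h2 := abs_sub_abs_le_abs_sub x y
    linarith
  rw [IsKer.ap]
  set r := max ρ (max 1 (16 * T)) with hr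
  have h2 := norm_integral_le_of_norm_le (f := fun y => N x y t * f y)
    (g := fun y => (1 + 8 * T) * exp (-r) * |f y|) (μ := volume) ?_ ?_
  · rw [integral_const_mul] at h2
    exact h2.trans (hρ r (le_max_left _ _))
  · exact ((hf.abs.integrable_of_hasCompactSupport hcs.norm)).const_mul _
  · refine Eventually.of_forall fun y => ?_
    rw [norm_mul]
    by_cases hy : y ∈ tsupport f
    · refine mul_le_mul_of_nonneg_right ?_ (norm_nonneg _)
      have h3 := hfar y hy
      have h4 : 1 ≤ |x - y| := ((le_max_left _ _).trans (le_max_right _ _)).trans h3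
      have h5 : 16 * T ≤ |x - y| := ((le_max_right _ _).trans (le_max_right _ _)).trans h3
      refine (hN x y t h).trans ((kernel_decay h ht.2 h4 h5).trans ?_)
      refine mul_le_mul_of_nonneg_left ?_ (by positivity)
      rw [exp_le_exp]
      linarith
    · rw [image_eq_zero_of_notMem_tsupport hy]
      simp

theorem abs_G_le (x y t : ℝ) (ht : 0 < t) :
    |G' x y t| ≤ g (x - y) t * (1 + 8 * t * exp |x - y|) := by
  have hg := g_pos ht (x - y)
  unfold G'
  rw [abs_of_pos (mul_pos (exp_pos _) hg), mul_comm]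
  refine mul_le_mul_of_nonneg_left ?_ hg.le
  have h1 : exp (-t) ≤ 1 := exp_le_one_iff.2 (by linarith)
  have h2 : 0 ≤ 8 * t * exp |x - y| := by positivity
  linarith

theorem uf_decay {f : ℝ → ℝ} (hf : Continuous f) (hcs : HasCompactSupport f) {T : ℝ} (hT : 0 < T)
    {ε : ℝ} (hε : 0 < ε) : ∃ R, ∀ x, R ≤ |x| → ∀ t ∈ Icc 0 T, |P.uf f x t| ≤ ε := by
  obtain ⟨R, hR⟩ := decay_gen (fun x y t ht => P.abs_K_le x y ht) hf hcs hT hε
  obtain ⟨L, hL⟩ : ∃ L, ∀ y, y ∈ tsupport f → |y| ≤ L := by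
    obtain ⟨L, hL⟩ := hcs.isBounded.subset_closedBall 0
    exact ⟨L, fun y hy => by simpa using hL hy⟩
  refine ⟨max R (L + 1), fun x hx t ht => ?_⟩
  rcases eq_or_lt_of_le ht.1 with h | h
  · rw [← h, P.uf_zero]
    by_cases hx' : x ∈ tsupport f
    · have h1 := hL x hx'
      have h2 := (le_max_right _ _).trans hx
      linarith
    · rw [image_eq_zero_of_notMem_tsupport hx', abs_zero]
      exact hε.le
  · rw [P.uf_pos f x h]
    exact hR x ((le_max_left _ _).trans hx) t ⟨h, ht.2⟩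

theorem exp_mul_G_eq (x y t : ℝ) : G' x y t = exp (-t) * g (x - y) t := rfl

theorem ap_sub {f : ℝ → ℝ} (hf : Continuous f) (hcs : HasCompactSupport f) (x : ℝ) {t : ℝ}
    (ht : 0 < t) : IsKer.ap (fun x y t => P.K' x y t - G' x y t) f x t =
      IsKer.ap P.K' f x t - IsKer.ap G' f x t := by
  unfold IsKer.ap
  rw [← integral_sub (P.isKer_K.integrable_ap hf hcs x ht) (isKer_G.integrable_ap hf hcs x ht)]
  refine integral_congr_ae (Eventually.of_forall fun y => ?_)
  ring

/-- The difference `K' - G'` integrates to something nonnegative against nonnegative functions. -/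
theorem ap_diff_nonneg {f : ℝ → ℝ} (hf : Continuous f) (hcs : HasCompactSupport f)
    (hf0 : ∀ x, 0 ≤ f x) (x : ℝ) {t : ℝ} (ht : 0 < t) :
    0 ≤ IsKer.ap P.K' f x t - IsKer.ap G' f x t := by
  set Gx : ℝ → ℝ → ℝ → ℝ := fun x y t => exp (-t) * (-((x - y) / (2 * t)) * g (x - y) t)
  set Gxx : ℝ → ℝ → ℝ → ℝ := fun x y t =>
    exp (-t) * (((x - y) ^ 2 / (4 * t ^ 2) - 1 / (2 * t)) * g (x - y) t)
  set Gt : ℝ → ℝ → ℝ → ℝ := fun x y t =>
    exp (-t) * (((x - y) ^ 2 / (4 * t ^ 2) - 1 / (2 * t)) * g (x - y) t - g (x - y) t)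
  have hG : IsKer G' Gx Gxx Gt := isKer_G
  have hK := P.isKer_K
  set w : ℝ → ℝ → ℝ := fun x t => P.uf f x t - exp (-t) * Gf f x t with hw
  have hG_eq : ∀ x t, 0 < t → IsKer.ap G' f x t = exp (-t) * Gf f x t := by
    intro x t ht
    rw [← Gf_eq f x ht, ← integral_const_mul]
    unfold IsKer.ap
    refine integral_congr_ae (Eventually.of_forall fun y => ?_)
    change exp (-t) * g (x - y) t * f y = _
    ring
  have hw_eq : ∀ x t, 0 < t → w x t = IsKer.ap P.K' f x t - IsKer.ap G' f x t := by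
    intro x t ht
    rw [hG_eq x t ht, ← P.uf_pos f x ht]
  have key := max_principle (W := P.W) (m := -7) P.W_ge (T := t)
    (w := w) (wx := fun x t => IsKer.ap P.Kx f x t - IsKer.ap Gx f x t)
    (wxx := fun x t => IsKer.ap P.Kxx f x t - IsKer.ap Gxx f x t)
    (wt := fun x t => IsKer.ap P.Kt f x t - IsKer.ap Gt f x t) ?_ ?_ ?_ ?_ ?_ ?_ ?_ x t
    ⟨ht.le, le_refl t⟩
  · rwa [hw_eq x t ht] at key
  · have h1 := P.continuousOn_uf hf hcs
    have h2 : Continuous fun p : ℝ × ℝ => exp (-p.2) * Gf f p.1 p.2 := by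
      have := continuous_Gf hf hcs
      fun_prop
    exact (h1.mono (prod_mono subset_rfl fun s hs => hs.1)).sub h2.continuousOn
  · intro x s hs
    have h1 := (hK.ap_dx hf hcs x hs.1).sub (hG.ap_dx hf hcs x hs.1)
    have h2 : (fun x => w x s) = fun x => IsKer.ap P.K' f x s - IsKer.ap G' f x s :=
      funext fun x => hw_eq x s hs.1
    rw [h2]
    exact h1
  · intro x s hs
    exact (hK.ap_dxx hf hcs x hs.1).sub (hG.ap_dxx hf hcs x hs.1)
  · intro x s hs
    have h1 := (hK.ap_dt hf hcs x hs.1).sub (hG.ap_dt hf hcs x hs.1)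
    refine h1.congr_of_eventuallyEq ?_
    filter_upwards [Ioi_mem_nhds hs.1] with r hr
    exact hw_eq x r hr
  · intro x s hs
    have hs' : 0 < s := hs.1
    change 0 ≤ IsKer.ap P.Kt f x s - IsKer.ap Gt f x s -
      (IsKer.ap P.Kxx f x s - IsKer.ap Gxx f x s) + P.W x * w x s
    rw [hw_eq x s hs']
    have i1 := IsKer.integrable_slice hK.ct hf hcs x hs'
    have i2 := IsKer.integrable_slice hG.ct hf hcs x hs'
    have i3 := IsKer.integrable_slice hK.cxx hf hcs x hs'
    have i4 := IsKer.integrable_slice hG.cxx hf hcs x hs'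
    have i5 := IsKer.integrable_slice hK.c hf hcs x hs'
    have i6 := IsKer.integrable_slice hG.c hf hcs x hs'
    have h1 : IsKer.ap P.Kt f x s - IsKer.ap Gt f x s -
      (IsKer.ap P.Kxx f x s - IsKer.ap Gxx f x s) +
      P.W x * (IsKer.ap P.K' f x s - IsKer.ap G' f x s) =
      ∫ y, -(P.V x) * (G' x y s * f y) := by
      have j1 : Integrable fun y => P.Kt x y s * f y - Gt x y s * f y := i1.sub i2
      have j2 : Integrable fun y => P.Kxx x y s * f y - Gxx x y s * f y := i3.sub i4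
      have j3 : Integrable fun y => P.W x * (P.K' x y s * f y - G' x y s * f y) :=
        (i5.sub i6).const_mul _
      have j4 : Integrable fun y => P.Kt x y s * f y - Gt x y s * f y -
        (P.Kxx x y s * f y - Gxx x y s * f y) := j1.sub j2
      unfold IsKer.ap
      rw [← integral_sub i1 i2, ← integral_sub i3 i4, ← integral_sub i5 i6,
        ← integral_const_mul, ← integral_sub j1 j2, ← integral_add j4 j3]
      refine integral_congr_ae (Eventually.of_forall fun y => ?_)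
      have h2 := P.pde_K x y hs'
      simp only [h2, Gt, Gxx, G', W]
      ring
    rw [h1]
    refine integral_nonneg fun y => ?_
    have h2 := P.V_nonpos x
    have h3 : 0 ≤ G' x y s := mul_nonneg (exp_pos _).le (g_pos hs' _).le
    exact mul_nonneg (by linarith) (mul_nonneg h3 (hf0 y))
  · intro x
    simp only [hw, P.uf_zero, Gf_zero, neg_zero, exp_zero, one_mul, sub_self, le_refl]
  · intro ε hε
    obtain ⟨R₁, hR₁⟩ := decay_gen (fun x y t ht => P.abs_K_le x y ht) hf hcs ht (half_pos hε)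
    obtain ⟨R₂, hR₂⟩ := decay_gen abs_G_le hf hcs ht (half_pos hε)
    refine ⟨max R₁ R₂, fun x hx s hs => ?_⟩
    rcases eq_or_lt_of_le hs.1 with h | h
    · have h1 : w x s = 0 := by
        rw [← h]
        simp only [hw, P.uf_zero, Gf_zero, neg_zero, exp_zero, one_mul, sub_self]
      rw [h1]
      linarith
    · rw [hw_eq x s h]
      have h1 := hR₁ x ((le_max_left _ _).trans hx) s ⟨h, hs.2⟩
      have h2 := hR₂ x ((le_max_right _ _).trans hx) s ⟨h, hs.2⟩
      have h3 := neg_abs_le (IsKer.ap P.K' f x s)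
      have h4 := le_abs_self (IsKer.ap G' f x s)
      linarith

end Params

end Pool.Agent.helper34.Soliton
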