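import Mathlib

set_option autoImplicit false

/-!
# Elliptic operators on the line, their heat kernels, and criticality

The manifold is `M = ℝ`, a connected noncompact smooth manifold.
-/

open MeasureTheory Set Filter Topology
open scoped NNReal ENNReal

namespace Pool.Agent.helper34.HeatLine

/-- `f` is locally Hölder continuous. -/
def LocallyHolder (f : ℝ → ℝ) : Prop :=
  ∀ x, ∃ U ∈ 𝓝 x, ∃ C r : ℝ≥0, 0 < r ∧ HolderOnWith C r f U

/-- A second order elliptic operator `P u = -a u'' + b u' + c u` on `ℝ` with real, locally Hölder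
continuous coefficients, `a > 0`. -/
structure EllipticOp where
  a : ℝ → ℝ
  b : ℝ → ℝ
  c : ℝ → ℝ
  a_pos : ∀ x, 0 < a x
  a_holder : LocallyHolder a
  b_holder : LocallyHolder b
  c_holder : LocallyHolder c

/-- The value of `P u = -a u'' + b u' + c u` at `x`. -/
noncomputable def EllipticOp.apply (P : EllipticOp) (u : ℝ → ℝ) (x : ℝ) : ℝ :=
  -(P.a x * deriv (deriv u) x) + P.b x * deriv u x + P.c x * u x

/-- `P ≥ 0` on `ℝ`: the equation `P u = 0` has a positive solution. -/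
def EllipticOp.Nonneg (P : EllipticOp) : Prop :=
  ∃ u : ℝ → ℝ, ContDiff ℝ 2 u ∧ (∀ x, 0 < u x) ∧ ∀ x, P.apply u x = 0

/-- `u = u(x, t)` is a classical solution, of class `C^{2,1}`, of `∂_t u + P u = 0` on
`ℝ × (0, ∞)`. -/
structure EllipticOp.IsSolution (P : EllipticOp) (u : ℝ → ℝ → ℝ) : Prop where
  contDiff : ∀ t > 0, ContDiff ℝ 2 fun x => u x t
  differentiableAt : ∀ x, ∀ t > 0, DifferentiableAt ℝ (fun t => u x t) t
  cont : ContinuousOn (fun p : ℝ × ℝ => u p.1 p.2) {p | 0 < p.2}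
  cont_x : ContinuousOn (fun p : ℝ × ℝ => deriv (fun x => u x p.2) p.1) {p | 0 < p.2}
  cont_xx : ContinuousOn (fun p : ℝ × ℝ => deriv (deriv fun x => u x p.2) p.1) {p | 0 < p.2}
  cont_t : ContinuousOn (fun p : ℝ × ℝ => deriv (fun t => u p.1 t) p.2) {p | 0 < p.2}
  eq : ∀ x, ∀ t > 0, deriv (fun t => u x t) t + P.apply (fun x => u x t) x = 0

/-- `u` is a positive fundamental solution of `∂_t u + P u = 0` with pole `y`: a positive classical
solution on `ℝ × (0, ∞)` with initial value the Dirac mass at `y`. -/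
structure EllipticOp.IsFundamental (P : EllipticOp) (y : ℝ) (u : ℝ → ℝ → ℝ) : Prop where
  sol : P.IsSolution u
  pos : ∀ x, ∀ t > 0, 0 < u x t
  init : ∀ f : ℝ → ℝ, Continuous f → HasCompactSupport f →
    Tendsto (fun t => ∫ x, u x t * f x) (𝓝[>] 0) (𝓝 (f y))

/-- `k` is the heat kernel of `P` on `ℝ`: for every `y` the function `(x, t) ↦ k x y t` is the
minimal positive fundamental solution of `∂_t u + P u = 0` with pole `y`. -/
def EllipticOp.IsHeatKernel (P : EllipticOp) (k : ℝ → ℝ → ℝ → ℝ) : Prop :=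
  ∀ y, P.IsFundamental y (fun x t => k x y t) ∧
    ∀ u, P.IsFundamental y u → ∀ x, ∀ t > 0, k x y t ≤ u x t

/-- The Green function `G(x, y) = ∫_0^∞ k(x, y, t) dt ∈ [0, ∞]`. -/
noncomputable def green (k : ℝ → ℝ → ℝ → ℝ) (x y : ℝ) : ℝ≥0∞ :=
  ∫⁻ t in Ioi (0 : ℝ), ENNReal.ofReal (k x y t)

/-- `P ≥ 0`, with heat kernel `k`, is subcritical: `G(x, y) < ∞` for `x ≠ y`. -/
def EllipticOp.IsSubcritical (P : EllipticOp) (k : ℝ → ℝ → ℝ → ℝ) : Prop :=
  P.Nonneg ∧ P.IsHeatKernel k ∧ ∀ x y, x ≠ y → green k x y < ∞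

/-- `P ≥ 0`, with heat kernel `k`, is critical: it is not subcritical. -/
def EllipticOp.IsCritical (P : EllipticOp) (k : ℝ → ℝ → ℝ → ℝ) : Prop :=
  P.Nonneg ∧ P.IsHeatKernel k ∧ ¬ ∀ x y, x ≠ y → green k x y < ∞

end Pool.Agent.helper34.HeatLine
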