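import Pool.Agent.helper34.Soliton.Heat
import Pool.Agent.helper34.Soliton.HeatDefs

set_option autoImplicit false

/-!
# The kernel `exp (-t) k` is the minimal heat kernel of `-d²/dx² + V + 1`
-/

open MeasureTheory Set Real Filter Topology
open scoped NNReal ENNReal

namespace Pool.Agent.helper34.Soliton

open HeatLine

theorem locallyHolder_const (r : ℝ) : LocallyHolder fun _ => r := by
  intro x
  refine ⟨univ, univ_mem, 0, 1, one_pos, ?_⟩
  intro y _ z _
  simp

theorem locallyHolder_of_deriv {f f' : ℝ → ℝ} (h : ∀ x, HasDerivAt f (f' x) x)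
    (hc : Continuous f') : LocallyHolder f := by
  intro x
  obtain ⟨C, hC⟩ := (isCompact_closedBall x 1).exists_bound_of_continuousOn hc.continuousOn
  refine ⟨Metric.closedBall x 1, Metric.closedBall_mem_nhds x one_pos, Real.toNNReal C, 1,
    one_pos, ?_⟩
  have h1 : LipschitzOnWith (Real.toNNReal C) f (Metric.closedBall x 1) := by
    refine (convex_closedBall x 1).lipschitzOnWith_of_nnnorm_hasDerivWithin_le
      (f' := f') (fun y _ => (h y).hasDerivWithinAt) fun y hy => ?_
    rw [← NNReal.coe_le_coe, coe_nnnorm]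
    exact (hC y hy).trans (Real.le_coe_toNNReal C)
  exact h1.holderOnWith

namespace Params

variable (P : Params)

theorem K_ge (x y : ℝ) {t : ℝ} (ht : 0 < t) : G' x y t ≤ P.K' x y t := by
  have h := nonneg_of_integral_nonneg (h := fun y => P.K' x y t - G' x y t)
    ((IsKer.slice P.isKer_K.c x ht).sub (IsKer.slice isKer_G.c x ht)) (fun f hf hcs hf0 => by
      have h1 := P.ap_diff_nonneg hf hcs hf0 x ht
      rw [← P.ap_sub hf hcs x ht] at h1
      exact h1) y
  linarith

theorem G_pos (x y : ℝ) {t : ℝ} (ht : 0 < t) : 0 < G' x y t :=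
  mul_pos (exp_pos _) (g_pos ht _)

theorem K_pos' (x y : ℝ) {t : ℝ} (ht : 0 < t) : 0 < P.K' x y t :=
  (G_pos x y ht).trans_le (P.K_ge x y ht)

theorem hasDerivAt_V (x : ℝ) :
    HasDerivAt P.V (-8 * inner ℝ (P.D.ψ' x) (P.D.K (P.D.ψ x))) x := P.D.hasDerivAt_V x

/-- The operator `-d²/dx² + V + 1`. -/
noncomputable def op : EllipticOp where
  a := fun _ => 1
  b := fun _ => 0
  c := P.W
  a_pos := fun _ => one_pos
  a_holder := locallyHolder_const 1
  b_holder := locallyHolder_const 0
  c_holder := by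
    refine locallyHolder_of_deriv (f' := fun x => -8 * inner ℝ (P.D.ψ' x) (P.D.K (P.D.ψ x)))
      (fun x => (P.hasDerivAt_V x).add_const 1) ?_
    have h1 := P.D.continuous_ψ'
    have h2 := P.D.continuous_ψ
    have h3 : Continuous fun x => P.D.K (P.D.ψ x) := P.D.K.continuous.comp h2
    exact continuous_const.mul (h1.inner h3)

theorem op_apply (u : ℝ → ℝ) (x : ℝ) :
    P.op.apply u x = -deriv (deriv u) x + P.W x * u x := by
  unfold EllipticOp.apply op
  simp

theorem contDiff_two_of {f f' f'' : ℝ → ℝ} (h1 : ∀ x, HasDerivAt f (f' x) x)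
    (h2 : ∀ x, HasDerivAt f' (f'' x) x) (hc : Continuous f'') : ContDiff ℝ 2 f := by
  have hd : deriv f = f' := funext fun x => (h1 x).deriv
  have hd' : deriv f' = f'' := funext fun x => (h2 x).deriv
  have e2 : (2 : WithTop ℕ∞) = 1 + 1 := by norm_num
  have h3 : ContDiff ℝ 1 f' := by
    rw [contDiff_one_iff_deriv]
    exact ⟨fun x => (h2 x).differentiableAt, hd' ▸ hc⟩
  rw [e2, contDiff_succ_iff_deriv]
  refine ⟨fun x => (h1 x).differentiableAt, by simp, ?_⟩
  rw [hd]
  exact h3

theorem isSolution_K (y : ℝ) : P.op.IsSolution fun x t => P.K' x y t := by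
  have hK := P.isKer_K
  have hdx : ∀ t, 0 < t → deriv (fun x => P.K' x y t) = fun x => P.Kx x y t := fun t ht =>
    funext fun x => (hK.dx x y t ht).deriv
  have hdxx : ∀ t, 0 < t → deriv (deriv fun x => P.K' x y t) = fun x => P.Kxx x y t := by
    intro t ht
    rw [hdx t ht]
    exact funext fun x => (hK.dxx x y t ht).deriv
  have hsl : ∀ {N : ℝ → ℝ → ℝ → ℝ},
      ContinuousOn (fun p : ℝ × ℝ × ℝ => N p.1 p.2.1 p.2.2) Params.Ω₃ →
      ContinuousOn (fun p : ℝ × ℝ => N p.1 y p.2) {p | 0 < p.2} := fun h =>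
    h.comp (f := fun p : ℝ × ℝ => (p.1, y, p.2)) (by fun_prop) (fun p hp => hp)
  refine ⟨?_, ?_, ?_, ?_, ?_, ?_, ?_⟩
  · intro t ht
    refine contDiff_two_of (fun x => hK.dx x y t ht) (fun x => hK.dxx x y t ht) ?_
    have h := (hsl hK.cxx).comp (s := univ) (f := fun x : ℝ => (x, t)) (by fun_prop)
      (fun x _ => ht)
    exact continuousOn_univ.1 h
  · intro x t ht
    exact (hK.dt x y t ht).differentiableAt
  · exact hsl hK.c
  · refine (hsl hK.cx).congr fun p hp => ?_
    simp only
    rw [hdx p.2 hp]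
  · refine (hsl hK.cxx).congr fun p hp => ?_
    simp only
    rw [hdxx p.2 hp]
  · refine (hsl hK.ct).congr fun p hp => ?_
    exact (hK.dt p.1 y p.2 hp).deriv
  · intro x t ht
    rw [P.op_apply, (hK.dt x y t ht).deriv, hdxx t ht, P.pde_K x y ht]
    ring

theorem init_K (y : ℝ) {f : ℝ → ℝ} (hf : Continuous f) (hcs : HasCompactSupport f) :
    Tendsto (fun t => ∫ x, P.K' x y t * f x) (𝓝[>] 0) (𝓝 (f y)) := by
  have h1 := P.continuousOn_uf hf hcs (y, 0) ⟨mem_univ _, mem_Ici.2 le_rfl⟩
  have h2 : Tendsto (fun t : ℝ => (y, t)) (𝓝[>] 0) (𝓝[univ ×ˢ Ici 0] (y, 0)) := by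
    refine tendsto_nhdsWithin_iff.2 ⟨?_, ?_⟩
    · exact (Continuous.tendsto (by fun_prop : Continuous fun t : ℝ => (y, t)) 0).mono_left
        nhdsWithin_le_nhds
    · filter_upwards [self_mem_nhdsWithin] with t ht
      exact ⟨mem_univ _, mem_Ici.2 (le_of_lt ht)⟩
  have h3 := Tendsto.comp h1 h2
  simp only [P.uf_zero] at h3
  refine h3.congr' ?_
  filter_upwards [self_mem_nhdsWithin] with t ht
  simp only [Function.comp_apply]
  rw [P.uf_pos f y ht]
  unfold IsKer.ap
  refine integral_congr_ae (Eventually.of_forall fun x => ?_)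
  simp only
  rw [P.K_symm]

/-- Tent function. -/
noncomputable def χ (y z : ℝ) : ℝ := max 0 (1 - |z - y|)

theorem χ_cont (y : ℝ) : Continuous (χ y) := by
  unfold χ
  fun_prop

theorem χ_nonneg (y z : ℝ) : 0 ≤ χ y z := le_max_left _ _

theorem χ_le_one (y z : ℝ) : χ y z ≤ 1 := max_le zero_le_one (by have := abs_nonneg (z - y); linarith)

theorem χ_self (y : ℝ) : χ y y = 1 := by
  simp [χ]

theorem χ_zero {y z : ℝ} (h : z ∉ Metric.closedBall y 1) : χ y z = 0 := by
  rw [Metric.mem_closedBall, Real.dist_eq, not_le] at h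
  exact max_eq_left (by linarith)

theorem χ_cs (y : ℝ) : HasCompactSupport (χ y) :=
  HasCompactSupport.intro (isCompact_closedBall y 1) fun _ hz => χ_zero hz

/-- Comparison with the solution started at time `s`. -/
theorem comparison {u : ℝ → ℝ → ℝ} (hu : P.op.IsSolution u) (hpos : ∀ x, ∀ t > 0, 0 ≤ u x t)
    (y x : ℝ) {s t : ℝ} (hs : 0 < s) (hst : s < t) :
    ∫ z, P.K' x z (t - s) * (χ y z * u z s) ≤ u x t := by
  set f : ℝ → ℝ := fun z => χ y z * u z s with hfdef
  have hucont : Continuous fun z => u z s := (hu.contDiff s hs).continuous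
  have hf : Continuous f := (χ_cont y).mul hucont
  have hcs : HasCompactSupport f := (χ_cs y).mul_right
  have hK := P.isKer_K
  have hT : 0 < t - s := by linarith
  have e2 : (2 : WithTop ℕ∞) = 1 + 1 := by norm_num
  have hux : ∀ x, ∀ r > 0, HasDerivAt (fun x => u x r) (deriv (fun x => u x r) x) x := fun x r hr =>
    ((hu.contDiff r hr).differentiable (by norm_num) x).hasDerivAt
  have huxx : ∀ x, ∀ r > 0, HasDerivAt (fun x => deriv (fun x => u x r) x)
      (deriv (deriv fun x => u x r) x) x := by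
    intro x r hr
    have h1 := hu.contDiff r hr
    rw [e2, contDiff_succ_iff_deriv] at h1
    exact (h1.2.2.differentiable (by norm_num) x).hasDerivAt
  have hut : ∀ x, ∀ r > 0, HasDerivAt (fun r => u x r) (deriv (fun r => u x r) r) r :=
    fun x r hr => (hu.differentiableAt x r hr).hasDerivAt
  have key := max_principle (W := P.W) (m := -7) P.W_ge (T := t - s)
    (w := fun x τ => u x (s + τ) - P.uf f x τ)
    (wx := fun x τ => deriv (fun x => u x (s + τ)) x - IsKer.ap P.Kx f x τ)
    (wxx := fun x τ => deriv (deriv fun x => u x (s + τ)) x - IsKer.ap P.Kxx f x τ)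
    (wt := fun x τ => deriv (fun r => u x r) (s + τ) - IsKer.ap P.Kt f x τ)
    ?_ ?_ ?_ ?_ ?_ ?_ ?_ x (t - s) ⟨hT.le, le_rfl⟩
  · simp only [add_sub_cancel] at key
    rw [P.uf_pos f x hT] at key
    unfold IsKer.ap at key
    linarith
  · have h1 : ContinuousOn (fun p : ℝ × ℝ => u p.1 (s + p.2)) (univ ×ˢ Icc 0 (t - s)) :=
      hu.cont.comp (f := fun p : ℝ × ℝ => (p.1, s + p.2)) (by fun_prop) fun p hp => by
        have := hp.2.1
        change 0 < s + p.2
        linarith
    exact h1.sub ((P.continuousOn_uf hf hcs).mono (prod_mono subset_rfl fun r hr => hr.1))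
  · intro x τ hτ
    have h1 : (fun x => P.uf f x τ) = fun x => IsKer.ap P.K' f x τ :=
      funext fun x => P.uf_pos f x hτ.1
    have h2 := (hux x (s + τ) (by linarith [hτ.1])).sub (hK.ap_dx hf hcs x hτ.1)
    have h3 : (fun x => u x (s + τ) - P.uf f x τ) = fun x => u x (s + τ) - IsKer.ap P.K' f x τ :=
      funext fun x => by rw [P.uf_pos f x hτ.1]
    rw [h3]
    exact h2
  · intro x τ hτ
    exact (huxx x (s + τ) (by linarith [hτ.1])).sub (hK.ap_dxx hf hcs x hτ.1)
  · intro x τ hτ
    have h1 : HasDerivAt (fun r => u x (s + r)) (deriv (fun r => u x r) (s + τ)) τ :=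
      (hut x (s + τ) (by linarith [hτ.1])).comp_const_add s τ
    have h2 := h1.sub (hK.ap_dt hf hcs x hτ.1)
    refine h2.congr_of_eventuallyEq ?_
    filter_upwards [Ioi_mem_nhds hτ.1] with r hr
    simp only [Pi.sub_apply]
    rw [P.uf_pos f x hr]
  · intro x τ hτ
    have hτ' : 0 < τ := hτ.1
    have h1 := hu.eq x (s + τ) (by linarith)
    rw [P.op_apply] at h1
    have h2 : IsKer.ap P.Kt f x τ = IsKer.ap P.Kxx f x τ - P.W x * IsKer.ap P.K' f x τ := by
      have i3 := IsKer.integrable_slice hK.cxx hf hcs x hτ'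
      have i5 := IsKer.integrable_slice hK.c hf hcs x hτ'
      unfold IsKer.ap
      rw [← integral_const_mul, ← integral_sub i3 (i5.const_mul _)]
      refine integral_congr_ae (Eventually.of_forall fun y => ?_)
      simp only
      rw [P.pde_K x y hτ']
      ring
    rw [P.uf_pos f x hτ', h2]
    linarith
  · intro x
    simp only [add_zero, P.uf_zero, hfdef]
    have h1 := hpos x s hs
    have h2 := χ_le_one y x
    nlinarith
  · intro ε hε
    obtain ⟨R, hR⟩ := P.uf_decay hf hcs hT hε
    refine ⟨R, fun x hx τ hτ => ?_⟩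
    have h1 := hR x hx τ hτ
    have h2 := hpos x (s + τ) (by linarith [hτ.1])
    have h3 := le_abs_self (P.uf f x τ)
    linarith

theorem minimal {u : ℝ → ℝ → ℝ} (y : ℝ) (hu : P.op.IsFundamental y u) (x : ℝ) {t : ℝ}
    (ht : 0 < t) : P.K' x y t ≤ u x t := by
  have hK := P.isKer_K
  have hcont : Continuous fun z => P.K' x z t := IsKer.slice hK.c x ht
  refine le_of_forall_pos_le_add fun ε hε => ?_
  have h1 : Tendsto (fun s => ∫ z, u z s * (P.K' x z t * χ y z)) (𝓝[>] 0)
      (𝓝 (P.K' x y t * χ y y)) :=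
    hu.init _ (hcont.mul (χ_cont y)) (χ_cs y).mul_left
  have h2 : Tendsto (fun s => ∫ z, u z s * χ y z) (𝓝[>] 0) (𝓝 (χ y y)) :=
    hu.init _ (χ_cont y) (χ_cs y)
  rw [χ_self, mul_one] at h1
  rw [χ_self] at h2
  have h3 := h1.sub (h2.const_mul ε)
  have h4 : P.K' x y t - ε * 1 ≤ u x t := by
    refine le_of_tendsto h3 ?_
    -- uniform continuity
    have hcomp : IsCompact (Metric.closedBall y 1 ×ˢ Icc (t / 2) t) :=
      (isCompact_closedBall y 1).prod isCompact_Icc
    have hcon : ContinuousOn (fun p : ℝ × ℝ => P.K' x p.1 p.2)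
        (Metric.closedBall y 1 ×ˢ Icc (t / 2) t) :=
      hK.c.comp (f := fun p : ℝ × ℝ => (x, p.1, p.2)) (by fun_prop) fun p hp => by
        have := hp.2.1
        change 0 < p.2
        linarith
    have huc := hcomp.uniformContinuousOn_of_continuous hcon
    obtain ⟨δ, hδ, hδ'⟩ := Metric.uniformContinuousOn_iff.1 huc ε hε
    have hsmall : ∀ᶠ s : ℝ in 𝓝[>] 0, 0 < s ∧ s < min δ (t / 2) := by
      filter_upwards [Ioo_mem_nhdsGT (lt_min hδ (half_pos ht))] with s hs
      exact ⟨hs.1, hs.2⟩
    filter_upwards [hsmall] with s hs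
    have hs1 : s < δ := hs.2.trans_le (min_le_left _ _)
    have hs2 : s < t / 2 := hs.2.trans_le (min_le_right _ _)
    have hc := P.comparison hu.sol (fun x t ht => (hu.pos x t ht).le) y x hs.1
      (by linarith : s < t)
    refine le_trans ?_ hc
    have hucont : Continuous fun z => u z s := (hu.sol.contDiff s hs.1).continuous
    have i1 : Integrable fun z => u z s * (P.K' x z t * χ y z) :=
      (hucont.mul (hcont.mul (χ_cont y))).integrable_of_hasCompactSupport
        ((χ_cs y).mul_left.mul_left)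
    have i2 : Integrable fun z => ε * (u z s * χ y z) :=
      ((hucont.mul (χ_cont y)).integrable_of_hasCompactSupport (χ_cs y).mul_left).const_mul ε
    have i3 : Integrable fun z => P.K' x z (t - s) * (χ y z * u z s) :=
      ((IsKer.slice hK.c x (by linarith)).mul
        ((χ_cont y).mul hucont)).integrable_of_hasCompactSupport ((χ_cs y).mul_right.mul_left)
    rw [← integral_const_mul, ← integral_sub i1 i2]
    refine integral_mono (i1.sub i2) i3 fun z => ?_
    have h5 : 0 ≤ χ y z * u z s := mul_nonneg (χ_nonneg y z) (hu.pos z s hs.1).le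
    by_cases hz : z ∈ Metric.closedBall y 1
    · have h6 := hδ' (z, t - s) ⟨hz, by constructor <;> linarith [hs.1]⟩ (z, t)
        ⟨hz, by constructor <;> linarith⟩ (by
          rw [Prod.dist_eq]
          simp only [dist_self]
          rw [Real.dist_eq, max_eq_right (abs_nonneg _)]
          rw [show t - s - t = -s by ring, abs_neg, abs_of_pos hs.1]
          exact hs1)
      rw [Real.dist_eq] at h6
      have h7 := (abs_lt.1 h6).1
      simp only at h7
      have h8 : (P.K' x z t - ε) * (χ y z * u z s) ≤ P.K' x z (t - s) * (χ y z * u z s) :=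
        mul_le_mul_of_nonneg_right (by linarith) h5
      calc u z s * (P.K' x z t * χ y z) - ε * (u z s * χ y z) =
          (P.K' x z t - ε) * (χ y z * u z s) := by ring
        _ ≤ _ := h8
    · simp only
      rw [χ_zero hz]
      simp
  linarith

theorem isHeatKernel : P.op.IsHeatKernel P.K' := fun y =>
  ⟨⟨P.isSolution_K y, fun x _ ht => P.K_pos' x y ht, fun _ hf hcs => P.init_K y hf hcs⟩,
    fun _ hu x _ ht => P.minimal y hu x ht⟩

end Params

end Pool.Agent.helper34.Soliton
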