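import Mathlib

set_option autoImplicit false

/-!
# The scalar functions: Gaussian kernel and the functions `E κ`
-/

open MeasureTheory Set Real

namespace Pool.Agent.helper34.Soliton

/-- The heat kernel of the line, `g ξ t = exp (-ξ²/(4t)) / √(4 π t)`. -/
noncomputable def g (ξ t : ℝ) : ℝ := exp (-(ξ ^ 2 / (4 * t))) / √(4 * π * t)

/-- `Φ z = ∫_0^z exp (-s²) ds`. -/
noncomputable def Φ (z : ℝ) : ℝ := ∫ s in (0 : ℝ)..z, exp (-(s ^ 2))

theorem hasDerivAt_Φ (z : ℝ) : HasDerivAt Φ (exp (-(z ^ 2))) z := by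
  have hc : Continuous fun s : ℝ => exp (-(s ^ 2)) := by fun_prop
  exact hc.integral_hasStrictDerivAt 0 z |>.hasDerivAt

theorem continuous_Φ : Continuous Φ :=
  continuous_iff_continuousAt.2 fun z => (hasDerivAt_Φ z).continuousAt

/-- The function `E κ ξ t = exp (κ² t) / √π * (Φ (ξ / (2√t) + κ√t) - Φ (ξ / (2√t) - κ√t))`. -/
noncomputable def E (κ ξ t : ℝ) : ℝ :=
  exp (κ ^ 2 * t) / √π * (Φ (ξ / (2 * √t) + κ * √t) - Φ (ξ / (2 * √t) - κ * √t))

theorem sqrt_four_pi {t : ℝ} (ht : 0 < t) : √(4 * π * t) = 2 * √π * √t := by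
  rw [show 4 * π * t = (2 * √π * √t) ^ 2 by
    rw [mul_pow, mul_pow, sq_sqrt pi_pos.le, sq_sqrt ht.le]
    ring]
  exact sqrt_sq (by positivity)

theorem g_pos {t : ℝ} (ht : 0 < t) (ξ : ℝ) : 0 < g ξ t := by
  unfold g
  have := pi_pos
  positivity

theorem g_eq {t : ℝ} (ht : 0 < t) (ξ : ℝ) : g ξ t = exp (-(ξ ^ 2 / (4 * t))) / (2 * √π * √t) := by
  rw [g, sqrt_four_pi ht]

theorem exp_sq_add {t : ℝ} (ht : 0 < t) (κ ξ : ℝ) :
    exp (κ ^ 2 * t) * exp (-((ξ / (2 * √t) + κ * √t) ^ 2)) =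
      exp (-(ξ ^ 2 / (4 * t))) * exp (-(κ * ξ)) := by
  rw [← exp_add, ← exp_add]
  congr 1
  have h1 : √t ≠ 0 := (sqrt_pos.2 ht).ne'
  have h2 : t = √t ^ 2 := (sq_sqrt ht.le).symm
  have h3 : ξ ^ 2 / (4 * t) = ξ ^ 2 / (4 * √t ^ 2) := by rw [← h2]
  rw [h3]
  have h4 : κ ^ 2 * t = κ ^ 2 * √t ^ 2 := by rw [← h2]
  rw [h4]
  field_simp
  ring

theorem exp_sq_sub {t : ℝ} (ht : 0 < t) (κ ξ : ℝ) :
    exp (κ ^ 2 * t) * exp (-((ξ / (2 * √t) - κ * √t) ^ 2)) =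
      exp (-(ξ ^ 2 / (4 * t))) * exp (κ * ξ) := by
  have h := exp_sq_add ht (-κ) ξ
  rw [neg_sq, neg_mul, neg_mul, neg_neg, ← sub_eq_add_neg] at h
  exact h

theorem hasDerivAt_g_x {t : ℝ} (ht : 0 < t) (ξ : ℝ) :
    HasDerivAt (fun ξ => g ξ t) (-(ξ / (2 * t)) * g ξ t) ξ := by
  have h1 : HasDerivAt (fun ξ : ℝ => -(ξ ^ 2 / (4 * t))) (-(2 * ξ / (4 * t))) ξ := by
    refine (((hasDerivAt_pow 2 ξ).div_const (4 * t)).neg).congr_deriv ?_
    simp
  refine ((h1.exp).div_const (√(4 * π * t))).congr_deriv ?_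
  unfold g
  have : t ≠ 0 := ht.ne'
  field_simp
  ring

theorem hasDerivAt_g_xx {t : ℝ} (ht : 0 < t) (ξ : ℝ) :
    HasDerivAt (fun ξ => -(ξ / (2 * t)) * g ξ t) ((ξ ^ 2 / (4 * t ^ 2) - 1 / (2 * t)) * g ξ t) ξ := by
  have h1 : HasDerivAt (fun ξ : ℝ => -(ξ / (2 * t))) (-(1 / (2 * t))) ξ :=
    ((hasDerivAt_id ξ).div_const (2 * t)).neg
  refine (h1.mul (hasDerivAt_g_x ht ξ)).congr_deriv ?_
  have : t ≠ 0 := ht.ne'
  field_simp
  ring

theorem hasDerivAt_g_t {t : ℝ} (ht : 0 < t) (ξ : ℝ) :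
    HasDerivAt (fun t => g ξ t) ((ξ ^ 2 / (4 * t ^ 2) - 1 / (2 * t)) * g ξ t) t := by
  have h1 : HasDerivAt (fun t : ℝ => -(ξ ^ 2 / (4 * t))) (ξ ^ 2 / (4 * t ^ 2)) t := by
    have h := ((hasDerivAt_id t).const_mul 4).inv (by simpa using ht.ne')
    have h2 := (h.const_mul (-ξ ^ 2))
    refine (h2.congr_deriv ?_).congr_of_eventuallyEq ?_
    · simp only [id]
      field_simp
    · refine Filter.Eventually.of_forall fun s => ?_
      simp only [id, Pi.inv_apply]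
      ring
  have h2 : HasDerivAt (fun t : ℝ => √(4 * π * t)) (4 * π / (2 * √(4 * π * t))) t := by
    have h := ((hasDerivAt_id t).const_mul (4 * π)).sqrt (by have := pi_pos; simp only [id]; positivity)
    simpa using h
  have h3 : √(4 * π * t) ≠ 0 := by have := pi_pos; positivity
  refine ((h1.exp).div h2 h3).congr_deriv ?_
  unfold g
  have h4 : √(4 * π * t) ^ 2 = 4 * π * t := sq_sqrt (by have := pi_pos; positivity)
  have h5 : t ≠ 0 := ht.ne'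
  have h6 : π ≠ 0 := pi_pos.ne'
  set r := √(4 * π * t) with hr
  have h7 : t = r ^ 2 / (4 * π) := by
    rw [h4]
    field_simp
  field_simp
  rw [h4]
  ring


/-- The derivative of `E κ` in `ξ`. -/
noncomputable def Ex (κ ξ t : ℝ) : ℝ := -(2 * (g ξ t * sinh (κ * ξ)))

/-- The second derivative of `E κ` in `ξ`. -/
noncomputable def Exx (κ ξ t : ℝ) : ℝ :=
  g ξ t * (ξ / t * sinh (κ * ξ) - 2 * κ * cosh (κ * ξ))

/-- The derivative of `E κ` in `t`. -/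
noncomputable def Et (κ ξ t : ℝ) : ℝ :=
  κ ^ 2 * E κ ξ t + g ξ t * (ξ / t * sinh (κ * ξ) + 2 * κ * cosh (κ * ξ))

theorem hasDerivAt_E_x {t : ℝ} (ht : 0 < t) (κ ξ : ℝ) :
    HasDerivAt (fun ξ => E κ ξ t) (Ex κ ξ t) ξ := by
  have hs : 0 < √t := sqrt_pos.2 ht
  have h1 : HasDerivAt (fun ξ : ℝ => ξ / (2 * √t) + κ * √t) (1 / (2 * √t)) ξ :=
    ((hasDerivAt_id ξ).div_const _).add_const _
  have h2 : HasDerivAt (fun ξ : ℝ => ξ / (2 * √t) - κ * √t) (1 / (2 * √t)) ξ :=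
    ((hasDerivAt_id ξ).div_const _).sub_const _
  have h3 := (hasDerivAt_Φ _).comp ξ h1
  have h4 := (hasDerivAt_Φ _).comp ξ h2
  have h5 := (h3.sub h4).const_mul (exp (κ ^ 2 * t) / √π)
  refine h5.congr_deriv ?_
  have h6 := exp_sq_add ht κ ξ
  have h7 := exp_sq_sub ht κ ξ
  have h8 : exp (κ ^ 2 * t) / √π * (exp (-((ξ / (2 * √t) + κ * √t) ^ 2)) * (1 / (2 * √t)) -
      exp (-((ξ / (2 * √t) - κ * √t) ^ 2)) * (1 / (2 * √t))) =
      (exp (κ ^ 2 * t) * exp (-((ξ / (2 * √t) + κ * √t) ^ 2)) -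
        exp (κ ^ 2 * t) * exp (-((ξ / (2 * √t) - κ * √t) ^ 2))) / (2 * √π * √t) := by
    field_simp
  rw [h8, h6, h7, Ex, g_eq ht, sinh_eq]
  have : √π ≠ 0 := (sqrt_pos.2 pi_pos).ne'
  field_simp
  ring

theorem hasDerivAt_E_xx {t : ℝ} (ht : 0 < t) (κ ξ : ℝ) :
    HasDerivAt (fun ξ => Ex κ ξ t) (Exx κ ξ t) ξ := by
  have h1 : HasDerivAt (fun ξ : ℝ => sinh (κ * ξ)) (cosh (κ * ξ) * κ) ξ := by
    have := ((hasDerivAt_id ξ).const_mul κ).sinh
    simpa using this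
  have h2 := (((hasDerivAt_g_x ht ξ).mul h1).const_mul 2).neg
  refine h2.congr_deriv ?_
  unfold Exx
  have : t ≠ 0 := ht.ne'
  field_simp
  ring

theorem hasDerivAt_E_t {t : ℝ} (ht : 0 < t) (κ ξ : ℝ) :
    HasDerivAt (fun t => E κ ξ t) (Et κ ξ t) t := by
  have hs : 0 < √t := sqrt_pos.2 ht
  have hp : 0 < √π := sqrt_pos.2 pi_pos
  have hq : HasDerivAt (fun t : ℝ => √t) (1 / (2 * √t)) t := hasDerivAt_sqrt ht.ne'
  have h0 : HasDerivAt (fun t : ℝ => ξ / (2 * √t)) (-(ξ / (4 * t * √t))) t := by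
    have h := ((hq.const_mul 2).inv (by positivity)).const_mul ξ
    refine (h.congr_deriv ?_).congr_of_eventuallyEq (Filter.Eventually.of_forall fun s => ?_)
    · have h2 : √t ^ 2 = t := sq_sqrt ht.le
      field_simp
      rw [h2]
      ring
    · simp only [Pi.inv_apply]
      rw [div_eq_mul_inv]
  have h1 : HasDerivAt (fun t : ℝ => ξ / (2 * √t) + κ * √t)
      (-(ξ / (4 * t * √t)) + κ * (1 / (2 * √t))) t := h0.add (hq.const_mul κ)
  have h2 : HasDerivAt (fun t : ℝ => ξ / (2 * √t) - κ * √t)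
      (-(ξ / (4 * t * √t)) - κ * (1 / (2 * √t))) t := h0.sub (hq.const_mul κ)
  have h3 := (hasDerivAt_Φ _).comp t h1
  have h4 := (hasDerivAt_Φ _).comp t h2
  have h9 : HasDerivAt (fun t : ℝ => exp (κ ^ 2 * t) / √π) (exp (κ ^ 2 * t) * κ ^ 2 / √π) t := by
    have := (((hasDerivAt_id t).const_mul (κ ^ 2)).exp).div_const √π
    refine this.congr_deriv ?_
    simp
  have h5 := h9.mul (h3.sub h4)
  refine h5.congr_deriv ?_
  have h6 := exp_sq_add ht κ ξ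
  have h7 := exp_sq_sub ht κ ξ
  have h8 : exp (κ ^ 2 * t) * κ ^ 2 / √π * (((Φ ∘ fun t => ξ / (2 * √t) + κ * √t) -
        (Φ ∘ fun t => ξ / (2 * √t) - κ * √t)) t) +
      exp (κ ^ 2 * t) / √π * (exp (-((ξ / (2 * √t) + κ * √t) ^ 2)) *
        (-(ξ / (4 * t * √t)) + κ * (1 / (2 * √t))) -
      exp (-((ξ / (2 * √t) - κ * √t) ^ 2)) * (-(ξ / (4 * t * √t)) - κ * (1 / (2 * √t)))) =
      κ ^ 2 * E κ ξ t + ((exp (κ ^ 2 * t) * exp (-((ξ / (2 * √t) + κ * √t) ^ 2))) *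
        (-(ξ / (4 * t * √t)) + κ * (1 / (2 * √t))) -
      (exp (κ ^ 2 * t) * exp (-((ξ / (2 * √t) - κ * √t) ^ 2))) *
        (-(ξ / (4 * t * √t)) - κ * (1 / (2 * √t)))) / √π := by
    rw [E, Pi.sub_apply, Function.comp_apply, Function.comp_apply]
    field_simp
  rw [h8, h6, h7, Et, g_eq ht, sinh_eq, cosh_eq]
  have : t ≠ 0 := ht.ne'
  field_simp
  ring

theorem Φ_neg (z : ℝ) : Φ (-z) = -Φ z := by
  unfold Φ
  have h := intervalIntegral.integral_comp_neg (a := 0) (b := -z) (fun s : ℝ => exp (-(s ^ 2)))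
  simp only [neg_sq, neg_neg, neg_zero] at h
  rw [h, intervalIntegral.integral_symm]

theorem E_neg (κ ξ t : ℝ) : E κ (-ξ) t = E κ ξ t := by
  unfold E
  have h1 : -ξ / (2 * √t) + κ * √t = -(ξ / (2 * √t) - κ * √t) := by ring
  have h2 : -ξ / (2 * √t) - κ * √t = -(ξ / (2 * √t) + κ * √t) := by ring
  rw [h1, h2, Φ_neg, Φ_neg]
  ring

theorem Φ_sub (a b : ℝ) : Φ b - Φ a = ∫ s in a..b, exp (-(s ^ 2)) := by
  have hc : Continuous fun s : ℝ => exp (-(s ^ 2)) := by fun_prop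
  unfold Φ
  rw [intervalIntegral.integral_interval_sub_left (hc.intervalIntegrable _ _)
    (hc.intervalIntegrable _ _)]

theorem Φ_mono : Monotone Φ := by
  refine monotone_of_deriv_nonneg (fun z => (hasDerivAt_Φ z).differentiableAt) fun z => ?_
  rw [(hasDerivAt_Φ z).deriv]
  exact (exp_pos _).le

theorem Φ_sub_le {a b M : ℝ} (hab : a ≤ b) (h : ∀ s ∈ Icc a b, exp (-(s ^ 2)) ≤ M) :
    Φ b - Φ a ≤ M * (b - a) := by
  have hc : Continuous fun s : ℝ => exp (-(s ^ 2)) := by fun_prop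
  rw [Φ_sub]
  have h2 := intervalIntegral.integral_mono_on hab (hc.intervalIntegrable a b)
    (intervalIntegrable_const (μ := volume) (c := M)) h
  rw [intervalIntegral.integral_const, smul_eq_mul, mul_comm] at h2
  exact h2

theorem le_Φ_sub {a b M : ℝ} (hab : a ≤ b) (h : ∀ s ∈ Icc a b, M ≤ exp (-(s ^ 2))) :
    M * (b - a) ≤ Φ b - Φ a := by
  have hc : Continuous fun s : ℝ => exp (-(s ^ 2)) := by fun_prop
  rw [Φ_sub]
  have h2 := intervalIntegral.integral_mono_on hab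
    (intervalIntegrable_const (μ := volume) (c := M)) (hc.intervalIntegrable a b) h
  rw [intervalIntegral.integral_const, smul_eq_mul, mul_comm] at h2
  exact h2

theorem Φ_sub_le_sqrt_pi {a b : ℝ} (hab : a ≤ b) : Φ b - Φ a ≤ √π := by
  rw [Φ_sub, intervalIntegral.integral_of_le hab]
  have h1 : Integrable fun s : ℝ => exp (-(s ^ 2)) := by
    have := integrable_exp_neg_mul_sq one_pos
    simpa using this
  have h2 : ∫ s : ℝ, exp (-(s ^ 2)) = √π := by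
    have := integral_gaussian 1
    simpa using this
  rw [← h2]
  exact setIntegral_le_integral h1 (Filter.Eventually.of_forall fun s => (exp_pos _).le)

theorem E_nonneg {κ : ℝ} (hκ : 0 ≤ κ) (ξ t : ℝ) : 0 ≤ E κ ξ t := by
  unfold E
  have h : Φ (ξ / (2 * √t) - κ * √t) ≤ Φ (ξ / (2 * √t) + κ * √t) := by
    apply Φ_mono
    have := mul_nonneg hκ (sqrt_nonneg t)
    linarith
  have := sqrt_nonneg π
  have h2 := exp_pos (κ ^ 2 * t)
  exact mul_nonneg (div_nonneg h2.le this) (sub_nonneg.2 h)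

theorem E_le_exp {κ : ℝ} (hκ : 0 ≤ κ) (ξ t : ℝ) : E κ ξ t ≤ exp (κ ^ 2 * t) := by
  have h0 := mul_nonneg hκ (sqrt_nonneg t)
  have h : Φ (ξ / (2 * √t) + κ * √t) - Φ (ξ / (2 * √t) - κ * √t) ≤ √π :=
    Φ_sub_le_sqrt_pi (by linarith)
  have hp : 0 < √π := sqrt_pos.2 pi_pos
  unfold E
  calc exp (κ ^ 2 * t) / √π * (Φ (ξ / (2 * √t) + κ * √t) - Φ (ξ / (2 * √t) - κ * √t))
      ≤ exp (κ ^ 2 * t) / √π * √π := mul_le_mul_of_nonneg_left h (by positivity)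
    _ = exp (κ ^ 2 * t) := div_mul_cancel₀ _ hp.ne'

theorem one_le_sqrt_pi : 1 ≤ √π := by
  rw [one_le_sqrt]
  linarith [pi_gt_three]

theorem sqrt_pi_le_two : √π ≤ 2 := by
  rw [sqrt_le_left (by norm_num)]
  linarith [pi_lt_four]

theorem E_le_sqrt {κ : ℝ} (hκ : 0 ≤ κ) (hκ1 : κ ≤ 1) (ξ : ℝ) {t : ℝ} (ht : 0 ≤ t) :
    E κ ξ t ≤ 2 * exp t * √t := by
  have h0 := mul_nonneg hκ (sqrt_nonneg t)
  have h : Φ (ξ / (2 * √t) + κ * √t) - Φ (ξ / (2 * √t) - κ * √t) ≤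
      1 * (ξ / (2 * √t) + κ * √t - (ξ / (2 * √t) - κ * √t)) := by
    refine Φ_sub_le (by linarith) fun s _ => ?_
    rw [exp_le_one_iff]
    have := sq_nonneg s
    linarith
  have h1 : κ * √t ≤ √t := by
    have := sqrt_nonneg t
    nlinarith
  have h2 : exp (κ ^ 2 * t) ≤ exp t := by
    rw [exp_le_exp]
    have : κ ^ 2 ≤ 1 := by nlinarith
    nlinarith
  have h3 : exp (κ ^ 2 * t) / √π ≤ exp t := by
    refine (div_le_self (exp_pos _).le one_le_sqrt_pi).trans h2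
  unfold E
  calc exp (κ ^ 2 * t) / √π * (Φ (ξ / (2 * √t) + κ * √t) - Φ (ξ / (2 * √t) - κ * √t))
      ≤ exp t * (2 * √t) := by
        refine mul_le_mul h3 (by linarith) ?_ (exp_pos _).le
        exact sub_nonneg.2 (Φ_mono (by linarith))
    _ = 2 * exp t * √t := by ring

theorem E_le_g {κ : ℝ} (hκ : 0 ≤ κ) (hκ1 : κ ≤ 1) (ξ : ℝ) {t : ℝ} (ht : 0 < t) :
    E κ ξ t ≤ 4 * t * exp (t + |ξ|) * g ξ t := by
  have hs : 0 < √t := sqrt_pos.2 ht
  have hp : 0 < √π := sqrt_pos.2 pi_pos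
  have h0 := mul_nonneg hκ hs.le
  set z := ξ / (2 * √t) with hz
  have h : Φ (z + κ * √t) - Φ (z - κ * √t) ≤
      exp (-(ξ ^ 2 / (4 * t)) + κ * |ξ|) * (z + κ * √t - (z - κ * √t)) := by
    refine Φ_sub_le (by linarith) fun s hs' => ?_
    rw [exp_le_exp]
    have h1 : |s - z| ≤ κ * √t := by
      rw [abs_le]
      constructor <;> linarith [hs'.1, hs'.2]
    have h2 : z ^ 2 = ξ ^ 2 / (4 * t) := by
      rw [hz, div_pow, mul_pow, sq_sqrt ht.le]
      norm_num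
    have h3 : 2 * |z| * (κ * √t) = κ * |ξ| := by
      rw [hz, abs_div, abs_of_pos (by positivity : (0 : ℝ) < 2 * √t)]
      field_simp
    rw [← h2, ← h3]
    have h4 : |z * (s - z)| ≤ |z| * (κ * √t) := by
      rw [abs_mul]
      exact mul_le_mul_of_nonneg_left h1 (abs_nonneg z)
    have h5 := neg_abs_le (z * (s - z))
    nlinarith [sq_nonneg (s - z)]
  have h5 : κ * √t ≤ √t := by nlinarith
  have h6 : exp (κ ^ 2 * t) ≤ exp t := by
    rw [exp_le_exp]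
    have : κ ^ 2 ≤ 1 := by nlinarith
    nlinarith
  have h7 : exp (-(ξ ^ 2 / (4 * t)) + κ * |ξ|) ≤ exp (-(ξ ^ 2 / (4 * t))) * exp |ξ| := by
    rw [← exp_add, exp_le_exp]
    have := abs_nonneg ξ
    nlinarith
  have h8 : Φ (z + κ * √t) - Φ (z - κ * √t) ≤
      exp (-(ξ ^ 2 / (4 * t))) * exp |ξ| * (2 * √t) := by
    refine h.trans (mul_le_mul h7 (by linarith) ?_ (by positivity))
    linarith
  unfold E
  rw [g_eq ht]
  calc exp (κ ^ 2 * t) / √π * (Φ (z + κ * √t) - Φ (z - κ * √t))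
      ≤ exp t / √π * (exp (-(ξ ^ 2 / (4 * t))) * exp |ξ| * (2 * √t)) := by
        refine mul_le_mul (div_le_div_of_nonneg_right h6 hp.le) h8 ?_ (by positivity)
        exact sub_nonneg.2 (Φ_mono (by linarith))
    _ = 4 * t * exp (t + |ξ|) * (exp (-(ξ ^ 2 / (4 * t))) / (2 * √π * √t)) := by
        rw [exp_add]
        have : t = √t * √t := (mul_self_sqrt ht.le).symm
        field_simp
        rw [sq_sqrt ht.le]
        ring

theorem le_E {κ ξ t : ℝ} (hκ : 1 / 2 ≤ κ) (hξ : |ξ| ≤ 1) (ht : 1 ≤ t) :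
    exp (κ ^ 2 * t) / 8 ≤ E κ ξ t := by
  wlog hξ0 : 0 ≤ ξ generalizing ξ with hw
  · rw [← E_neg]
    exact hw (by rwa [abs_neg]) (by linarith)
  have hs : 1 ≤ √t := one_le_sqrt.2 ht
  have hz0 : 0 ≤ ξ / (2 * √t) := by positivity
  have hz1 : ξ / (2 * √t) ≤ 1 / 2 := by
    rw [div_le_div_iff₀ (by positivity) (by norm_num)]
    have := (abs_le.1 hξ).2
    linarith
  have ha : 1 / 2 ≤ κ * √t := by nlinarith
  have h1 : Φ (1 / 2) ≤ Φ (ξ / (2 * √t) + κ * √t) := Φ_mono (by linarith)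
  have h2 : Φ (ξ / (2 * √t) - κ * √t) ≤ Φ 0 := Φ_mono (by linarith)
  have h3 : 3 / 4 * (1 / 2 - 0) ≤ Φ (1 / 2) - Φ 0 := by
    refine le_Φ_sub (by norm_num) fun s hs => ?_
    have h4 := add_one_le_exp (-(s ^ 2))
    have h5 : s ^ 2 ≤ 1 / 4 := by
      have := hs.1
      have := hs.2
      nlinarith
    linarith
  unfold E
  have hp : 0 < √π := sqrt_pos.2 pi_pos
  have h4 := sqrt_pi_le_two
  have h5 := exp_pos (κ ^ 2 * t)
  have h6 : exp (κ ^ 2 * t) / 2 ≤ exp (κ ^ 2 * t) / √π :=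
    div_le_div_of_nonneg_left h5.le hp h4
  calc exp (κ ^ 2 * t) / 8 ≤ exp (κ ^ 2 * t) / 2 * (3 / 8) := by linarith
    _ ≤ _ := mul_le_mul h6 (by linarith) (by norm_num) (by positivity)

theorem sqrt_pi_ge : 8 / 5 ≤ √π := by
  rw [le_sqrt (by norm_num) pi_pos.le]
  linarith [pi_gt_three]

/-- `g` is small away from the diagonal. -/
theorem g_le {ξ t T : ℝ} (ht : 0 < t) (htT : t ≤ T) (hξ : 1 ≤ |ξ|) :
    g ξ t ≤ exp (-(ξ ^ 2 / (8 * T))) := by
  have hs : 0 < √t := sqrt_pos.2 ht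
  have hp := sqrt_pi_ge
  have hT : 0 < T := lt_of_lt_of_le ht htT
  have hξ2 : 1 ≤ ξ ^ 2 := by
    rw [← sq_abs]
    nlinarith
  rw [g_eq ht]
  have h1 : exp (-(ξ ^ 2 / (4 * t))) = exp (-(ξ ^ 2 / (8 * t))) * exp (-(ξ ^ 2 / (8 * t))) := by
    rw [← exp_add]
    congr 1
    field_simp
    ring
  have h2 : exp (-(ξ ^ 2 / (8 * t))) ≤ exp (-(ξ ^ 2 / (8 * T))) := by
    rw [exp_le_exp, neg_le_neg_iff]
    exact div_le_div_of_nonneg_left (by positivity) (by positivity) (by linarith)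
  have h3 : exp (-(ξ ^ 2 / (8 * t))) ≤ 2 * √π * √t := by
    rcases le_or_gt 1 (2 * √π * √t) with h | h
    · exact (exp_le_one_iff.2 (by have : 0 ≤ ξ ^ 2 / (8 * t) := by positivity
                                  linarith)).trans h
    · have h4 : √t < 5 / 16 := by nlinarith
      have h6 : 1 / (8 * t) ≤ ξ ^ 2 / (8 * t) := div_le_div_of_nonneg_right hξ2 (by positivity)
      have h7 : exp (-(ξ ^ 2 / (8 * t))) ≤ exp (-(1 / (8 * t))) := by
        rw [exp_le_exp]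
        linarith
      have h8 : exp (-(1 / (8 * t))) ≤ 8 * t := by
        rw [exp_neg, inv_le_comm₀ (exp_pos _) (by positivity)]
        have := add_one_le_exp (1 / (8 * t))
        rw [← one_div]
        linarith
      have h9 : 8 * t ≤ 5 / 2 * √t := by
        have := mul_self_sqrt ht.le
        nlinarith
      have h10 : 5 / 2 * √t ≤ 2 * √π * √t := by nlinarith
      linarith
  rw [h1, div_le_iff₀ (by positivity)]
  exact mul_le_mul h2 h3 (exp_pos _).le (exp_pos _).le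

end Pool.Agent.helper34.Soliton
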