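import Pool.Agent.helper34.Soliton.Model
import Pool.Agent.helper34.Soliton.Scalar

set_option autoImplicit false

/-!
# The explicit heat kernel of an infinite soliton potential
-/

open MeasureTheory Set Real Filter Topology

namespace Pool.Agent.helper34.Soliton

/-- The open set `t > 0` in `(ξ, t)` space. -/
def Ω₂ : Set (ℝ × ℝ) := {p | 0 < p.2}

theorem isOpen_Ω₂ : IsOpen Ω₂ := isOpen_lt continuous_const continuous_snd

theorem continuousOn_g : ContinuousOn (fun p : ℝ × ℝ => g p.1 p.2) Ω₂ := by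
  unfold g
  refine ContinuousOn.div ?_ (by fun_prop) fun p hp => ?_
  · refine (ContinuousOn.neg ?_).rexp
    refine ContinuousOn.div (by fun_prop) (by fun_prop) fun p hp => ?_
    have : 0 < p.2 := hp
    positivity
  · have h1 : 0 < p.2 := hp
    have := pi_pos
    positivity

theorem continuousOn_E (κ : ℝ) : ContinuousOn (fun p : ℝ × ℝ => E κ p.1 p.2) Ω₂ := by
  unfold E
  have h1 : ContinuousOn (fun p : ℝ × ℝ => p.1 / (2 * √p.2)) Ω₂ := by
    refine ContinuousOn.div (by fun_prop) (by fun_prop) fun p hp => ?_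
    have : 0 < p.2 := hp
    positivity
  have h2 : ContinuousOn (fun p : ℝ × ℝ => κ * √p.2) Ω₂ := by fun_prop
  refine ContinuousOn.mul (by fun_prop) ?_
  exact (continuous_Φ.comp_continuousOn (h1.add h2)).sub
    (continuous_Φ.comp_continuousOn (h1.sub h2))

theorem continuousOn_div : ContinuousOn (fun p : ℝ × ℝ => p.1 / p.2) Ω₂ :=
  ContinuousOn.div (by fun_prop) (by fun_prop) fun p hp => ne_of_gt hp

theorem continuousOn_Ex (κ : ℝ) : ContinuousOn (fun p : ℝ × ℝ => Ex κ p.1 p.2) Ω₂ := by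
  unfold Ex
  have h := continuousOn_g
  have h2 : ContinuousOn (fun p : ℝ × ℝ => sinh (κ * p.1)) Ω₂ := by fun_prop
  exact ((h.mul h2).const_smul (2 : ℝ)).neg

theorem continuousOn_Exx (κ : ℝ) : ContinuousOn (fun p : ℝ × ℝ => Exx κ p.1 p.2) Ω₂ := by
  unfold Exx
  have h := continuousOn_g
  have h1 := continuousOn_div
  have h2 : ContinuousOn (fun p : ℝ × ℝ => sinh (κ * p.1)) Ω₂ := by fun_prop
  have h3 : ContinuousOn (fun p : ℝ × ℝ => 2 * κ * cosh (κ * p.1)) Ω₂ := by fun_prop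
  exact h.mul ((h1.mul h2).sub h3)

theorem continuousOn_Et (κ : ℝ) : ContinuousOn (fun p : ℝ × ℝ => Et κ p.1 p.2) Ω₂ := by
  unfold Et
  have h := continuousOn_g
  have h0 := continuousOn_E κ
  have h1 := continuousOn_div
  have h2 : ContinuousOn (fun p : ℝ × ℝ => sinh (κ * p.1)) Ω₂ := by fun_prop
  have h3 : ContinuousOn (fun p : ℝ × ℝ => 2 * κ * cosh (κ * p.1)) Ω₂ := by fun_prop
  exact (h0.const_smul (κ ^ 2)).add (h.mul ((h1.mul h2).add h3))

/-- A common bound. -/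
noncomputable def Q (ξ t : ℝ) : ℝ := 2 * exp t * √t + 2 * (g ξ t * (|ξ| / t + 2) * cosh ξ)

theorem continuousOn_Q : ContinuousOn (fun p : ℝ × ℝ => Q p.1 p.2) Ω₂ := by
  unfold Q
  have h := continuousOn_g
  have h1 : ContinuousOn (fun p : ℝ × ℝ => |p.1| / p.2) Ω₂ :=
    ContinuousOn.div (by fun_prop) (by fun_prop) fun p hp => ne_of_gt hp
  have h2 : ContinuousOn (fun p : ℝ × ℝ => 2 * exp p.2 * √p.2) Ω₂ := by fun_prop
  have h3 : ContinuousOn (fun p : ℝ × ℝ => cosh p.1) Ω₂ := by fun_prop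
  exact h2.add (((h.mul (h1.add continuousOn_const)).mul h3).const_smul (2 : ℝ))

section bounds

variable {κ : ℝ} (hκ : 0 ≤ κ) (hκ1 : κ ≤ 1) (ξ : ℝ) {t : ℝ} (ht : 0 < t)

include hκ hκ1 in
theorem cosh_le : cosh (κ * ξ) ≤ cosh ξ := by
  rw [cosh_le_cosh, abs_mul, abs_of_nonneg hκ]
  have := abs_nonneg ξ
  nlinarith

include hκ hκ1 in
theorem sinh_le : |sinh (κ * ξ)| ≤ cosh ξ := by
  refine le_trans ?_ (cosh_le hκ hκ1 ξ)
  have h := cosh_sq (κ * ξ)
  exact abs_le_of_sq_le_sq (by linarith) (cosh_pos _).le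

include ht in
theorem base_le : g ξ t * cosh ξ * 2 ≤ g ξ t * (|ξ| / t + 2) * cosh ξ := by
  have h1 := g_pos ht ξ
  have h2 := cosh_pos ξ
  have h3 : 0 ≤ |ξ| / t := by positivity
  have h4 := mul_pos h1 h2
  nlinarith

include ht in
theorem Q_ge : 2 * exp t * √t + (g ξ t * (|ξ| / t + 2) * cosh ξ) ≤ Q ξ t := by
  have h1 := g_pos ht ξ
  have h2 := cosh_pos ξ
  have h3 : 0 ≤ |ξ| / t := by positivity
  unfold Q
  have : 0 ≤ g ξ t * (|ξ| / t + 2) * cosh ξ := by positivity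
  linarith

include ht in
theorem Q_ge' : (g ξ t * (|ξ| / t + 2) * cosh ξ) ≤ Q ξ t := by
  have h1 := Q_ge ξ ht
  have : 0 ≤ 2 * exp t * √t := by positivity
  linarith

include ht in
theorem Q_pos : 0 < Q ξ t := by
  have h1 := g_pos ht ξ
  have h2 := cosh_pos ξ
  have h3 : 0 ≤ |ξ| / t := by positivity
  unfold Q
  positivity

include hκ hκ1 ht in
theorem abs_E_le : |E κ ξ t| ≤ Q ξ t := by
  rw [abs_of_nonneg (E_nonneg hκ ξ t)]
  refine (E_le_sqrt hκ hκ1 ξ ht.le).trans ?_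
  have h1 := g_pos ht ξ
  have h2 := cosh_pos ξ
  have h3 : 0 ≤ |ξ| / t := by positivity
  have : 0 ≤ g ξ t * (|ξ| / t + 2) * cosh ξ := by positivity
  have := Q_ge ξ ht
  linarith

include hκ hκ1 ht in
theorem abs_Ex_le : |Ex κ ξ t| ≤ Q ξ t := by
  refine le_trans ?_ (Q_ge' ξ ht)
  refine le_trans ?_ (base_le ξ ht)
  unfold Ex
  rw [abs_neg, abs_mul, abs_mul, abs_of_pos (g_pos ht ξ), abs_of_pos (by norm_num : (0 : ℝ) < 2)]
  have := mul_le_mul_of_nonneg_left (sinh_le hκ hκ1 ξ) (g_pos ht ξ).le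
  linarith

include hκ hκ1 ht in
theorem abs_mix_le (a b : ℝ) (ha : |a| ≤ 1) (hb : |b| ≤ 2) :
    |g ξ t * (a * (ξ / t * sinh (κ * ξ)) + b * cosh (κ * ξ))| ≤
      g ξ t * (|ξ| / t + 2) * cosh ξ := by
  rw [abs_mul, abs_of_pos (g_pos ht ξ), mul_assoc]
  refine mul_le_mul_of_nonneg_left ?_ (g_pos ht ξ).le
  refine (abs_add_le _ _).trans ?_
  rw [abs_mul, abs_mul, abs_mul, abs_div, abs_of_pos ht, abs_of_pos (cosh_pos (κ * ξ)), add_mul]
  have h1 := sinh_le hκ hκ1 ξ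
  have h2 := cosh_le hκ hκ1 ξ
  have h3 : 0 ≤ |ξ| / t := by positivity
  refine add_le_add ?_ ?_
  · calc |a| * (|ξ| / t * |sinh (κ * ξ)|) ≤ 1 * (|ξ| / t * cosh ξ) := by
          refine mul_le_mul ha (mul_le_mul_of_nonneg_left h1 h3) (by positivity) zero_le_one
      _ = _ := one_mul _
  · exact mul_le_mul hb h2 (cosh_pos _).le (by norm_num)

include hκ hκ1 ht in
theorem abs_Exx_le : |Exx κ ξ t| ≤ Q ξ t := by
  refine le_trans ?_ (Q_ge' ξ ht)
  have h := abs_mix_le hκ hκ1 ξ ht 1 (-(2 * κ)) (by norm_num) (by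
    rw [abs_neg, abs_of_nonneg (by linarith)]
    linarith)
  have h2 : Exx κ ξ t = g ξ t * (1 * (ξ / t * sinh (κ * ξ)) + -(2 * κ) * cosh (κ * ξ)) := by
    unfold Exx
    ring
  rw [h2]
  exact h

include hκ hκ1 ht in
theorem abs_Et_le : |Et κ ξ t| ≤ Q ξ t := by
  refine le_trans ?_ (Q_ge ξ ht)
  have h := abs_mix_le hκ hκ1 ξ ht 1 (2 * κ) (by norm_num) (by
    rw [abs_of_nonneg (by linarith)]
    linarith)
  have h2 : Et κ ξ t = κ ^ 2 * E κ ξ t +
      g ξ t * (1 * (ξ / t * sinh (κ * ξ)) + (2 * κ) * cosh (κ * ξ)) := by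
    unfold Et
    ring
  rw [h2]
  refine (abs_add_le _ _).trans (add_le_add ?_ h)
  rw [abs_mul, abs_of_nonneg (E_nonneg hκ ξ t), abs_of_nonneg (sq_nonneg κ)]
  have h3 := E_le_sqrt hκ hκ1 ξ ht.le
  have h4 := E_nonneg hκ ξ t
  have h5 : κ ^ 2 ≤ 1 := by nlinarith
  nlinarith

end bounds

/-- Termwise differentiation with a locally bounded majorant. -/
theorem hasDerivAt_tsum_loc {f f' : ℕ → ℝ → ℝ} {c : ℕ → ℝ} (hc : Summable c)
    (hc0 : ∀ j, 0 ≤ c j) {B : ℝ → ℝ} {s : Set ℝ} (hs : IsOpen s) {x : ℝ} (hx : x ∈ s)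
    (hB : ContinuousAt B x) (hf : ∀ j, ∀ y ∈ s, HasDerivAt (f j) (f' j y) y)
    (hb : ∀ j, ∀ y ∈ s, |f' j y| ≤ c j * B y) (hsum : Summable fun j => f j x) :
    HasDerivAt (fun y => ∑' j, f j y) (∑' j, f' j x) x := by
  have h1 : ∀ᶠ y in 𝓝 x, B y < B x + 1 := hB.eventually_lt continuousAt_const (by linarith)
  have h2 : ∀ᶠ y in 𝓝 x, y ∈ s := hs.mem_nhds hx
  obtain ⟨ε, hε, hball⟩ := Metric.eventually_nhds_iff_ball.1 (h1.and h2)
  refine hasDerivAt_tsum_of_isPreconnected (hc.mul_right (B x + 1)) Metric.isOpen_ball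
    (convex_ball x ε).isPreconnected (fun j y hy => hf j y (hball y hy).2) (fun j y hy => ?_)
    (Metric.mem_ball_self hε) hsum (Metric.mem_ball_self hε)
  rw [Real.norm_eq_abs]
  exact (hb j y (hball y hy).2).trans (mul_le_mul_of_nonneg_left (hball y hy).1.le (hc0 j))

/-- Continuity of a series with a locally bounded majorant. -/
theorem continuousOn_tsum_loc {X : Type*} [TopologicalSpace X] {f : ℕ → X → ℝ} {c : ℕ → ℝ}
    (hc : Summable c) (hc0 : ∀ j, 0 ≤ c j) {B : X → ℝ} {s : Set X} (hs : IsOpen s)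
    (hB : ContinuousOn B s) (hf : ∀ j, ContinuousOn (f j) s)
    (hb : ∀ j, ∀ y ∈ s, |f j y| ≤ c j * B y) : ContinuousOn (fun y => ∑' j, f j y) s := by
  intro x hx
  have h1 : ∀ᶠ y in 𝓝 x, B y < B x + 1 :=
    (hB.continuousAt (hs.mem_nhds hx)).eventually_lt continuousAt_const (by linarith)
  have h2 : ∀ᶠ y in 𝓝 x, y ∈ s := hs.mem_nhds hx
  obtain ⟨u, hu, huo, hxu⟩ := mem_nhds_iff.1 (h1.and h2)
  have h3 : ContinuousOn (fun y => ∑' j, f j y) u := by
    refine continuousOn_tsum (fun j => (hf j).mono fun y hy => (hu hy).2)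
      (hc.mul_right (B x + 1)) fun j y hy => ?_
    rw [Real.norm_eq_abs]
    exact (hb j y (hu hy).2).trans (mul_le_mul_of_nonneg_left (hu hy).1.le (hc0 j))
  exact (h3.continuousAt (huo.mem_nhds hxu)).continuousWithinAt

namespace Params

variable (P : Params)

/-- The summands of the kernel. -/
noncomputable def T (j : ℕ) (x y t : ℝ) : ℝ := P.ψ j x * P.ψ j y * E (P.κ j) (x - y) t

/-- First `x`-derivative of the summands. -/
noncomputable def Tx (j : ℕ) (x y t : ℝ) : ℝ :=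
  P.ψ j y * (P.ψ' j x * E (P.κ j) (x - y) t + P.ψ j x * Ex (P.κ j) (x - y) t)

/-- Second `x`-derivative of the summands. -/
noncomputable def Txx (j : ℕ) (x y t : ℝ) : ℝ :=
  P.ψ j y * ((P.V x + P.κ j ^ 2) * P.ψ j x * E (P.κ j) (x - y) t +
    2 * (P.ψ' j x * Ex (P.κ j) (x - y) t) + P.ψ j x * Exx (P.κ j) (x - y) t)

/-- The `t`-derivative of the summands. -/
noncomputable def Tt (j : ℕ) (x y t : ℝ) : ℝ := P.ψ j x * P.ψ j y * Et (P.κ j) (x - y) t

theorem hasDerivAt_T_x (j : ℕ) (x y : ℝ) {t : ℝ} (ht : 0 < t) :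
    HasDerivAt (fun x => P.T j x y t) (P.Tx j x y t) x := by
  have h1 : HasDerivAt (fun x => E (P.κ j) (x - y) t) (Ex (P.κ j) (x - y) t) x :=
    (hasDerivAt_E_x ht (P.κ j) (x - y)).comp_sub_const x y
  have h2 := ((P.hasDerivAt_ψ j x).mul_const (P.ψ j y)).mul h1
  refine h2.congr_deriv ?_
  unfold Tx
  ring

theorem hasDerivAt_T_xx (j : ℕ) (x y : ℝ) {t : ℝ} (ht : 0 < t) :
    HasDerivAt (fun x => P.Tx j x y t) (P.Txx j x y t) x := by
  have h1 : HasDerivAt (fun x => E (P.κ j) (x - y) t) (Ex (P.κ j) (x - y) t) x :=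
    (hasDerivAt_E_x ht (P.κ j) (x - y)).comp_sub_const x y
  have h1' : HasDerivAt (fun x => Ex (P.κ j) (x - y) t) (Exx (P.κ j) (x - y) t) x :=
    (hasDerivAt_E_xx ht (P.κ j) (x - y)).comp_sub_const x y
  have h2 := (((P.hasDerivAt_ψ' j x).mul h1).add ((P.hasDerivAt_ψ j x).mul h1')).const_mul
    (P.ψ j y)
  refine h2.congr_deriv ?_
  unfold Txx
  ring

theorem hasDerivAt_T_t (j : ℕ) (x y : ℝ) {t : ℝ} (ht : 0 < t) :
    HasDerivAt (fun t => P.T j x y t) (P.Tt j x y t) t :=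
  (hasDerivAt_E_t ht (P.κ j) (x - y)).const_mul _

theorem T_identity (j : ℕ) (x y t : ℝ) :
    P.Tt j x y t - P.Txx j x y t + P.V x * P.T j x y t =
      4 * g (x - y) t * (P.ψ j y * (P.κ j * P.ψ j x * cosh (P.κ j * (x - y)) +
        P.ψ' j x * sinh (P.κ j * (x - y)))) := by
  unfold Tt Txx T Et Ex Exx
  ring

/-- The common majorant. -/
noncomputable def B (x y t : ℝ) : ℝ := 28 * bd x * Q (x - y) t

theorem B_pos (x y : ℝ) {t : ℝ} (ht : 0 < t) : 0 < B x y t := by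
  have := bd_pos x
  have := Q_pos (x - y) ht
  unfold B
  positivity

theorem abs_bound {a b c d q : ℝ} (hb : |b| ≤ 2) (hq : |d| ≤ q) (ha : |a| ≤ c) (hc : 0 ≤ c) :
    |a * b * d| ≤ 2 * c * q := by
  have h0 : 0 ≤ q := (abs_nonneg _).trans hq
  rw [abs_mul, abs_mul]
  calc |a| * |b| * |d| ≤ c * 2 * q :=
        mul_le_mul (mul_le_mul ha hb (abs_nonneg _) hc) hq (abs_nonneg _) (by positivity)
    _ = _ := by ring

theorem abs_T_le (j : ℕ) (x y : ℝ) {t : ℝ} (ht : 0 < t) :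
    |P.T j x y t| ≤ P.c j * B x y t := by
  have h1 := abs_E_le (P.κ_pos j).le (P.κ_lt j).le (x - y) ht
  have h2 := P.abs_ψ_le j x
  have h3 := P.abs_ψ_le_two j y
  have h4 := P.c_pos j
  have h5 := bd_pos x
  have h6 := Q_pos (x - y) ht
  have h7 := abs_bound h3 h1 h2 (by positivity)
  refine h7.trans ?_
  unfold B
  have : 0 ≤ P.c j * bd x * Q (x - y) t := by positivity
  linarith

theorem abs_Tt_le (j : ℕ) (x y : ℝ) {t : ℝ} (ht : 0 < t) :
    |P.Tt j x y t| ≤ P.c j * B x y t := by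
  have h1 := abs_Et_le (P.κ_pos j).le (P.κ_lt j).le (x - y) ht
  have h2 := P.abs_ψ_le j x
  have h3 := P.abs_ψ_le_two j y
  have h4 := P.c_pos j
  have h5 := bd_pos x
  have h6 := Q_pos (x - y) ht
  have h7 := abs_bound h3 h1 h2 (by positivity)
  refine h7.trans ?_
  unfold B
  have : 0 ≤ P.c j * bd x * Q (x - y) t := by positivity
  linarith

theorem abs_Tx_le (j : ℕ) (x y : ℝ) {t : ℝ} (ht : 0 < t) :
    |P.Tx j x y t| ≤ P.c j * B x y t := by
  have h1 := abs_E_le (P.κ_pos j).le (P.κ_lt j).le (x - y) ht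
  have h1' := abs_Ex_le (P.κ_pos j).le (P.κ_lt j).le (x - y) ht
  have h2 := P.abs_ψ_le j x
  have h2' := P.abs_ψ'_le j x
  have h3 := P.abs_ψ_le_two j y
  have h4 := P.c_pos j
  have h5 := bd_pos x
  have h6 := Q_pos (x - y) ht
  have h7 := abs_bound h3 h1 h2' (by positivity)
  have h8 := abs_bound h3 h1' h2 (by positivity)
  have h9 : P.Tx j x y t = P.ψ' j x * P.ψ j y * E (P.κ j) (x - y) t +
      P.ψ j x * P.ψ j y * Ex (P.κ j) (x - y) t := by
    unfold Tx
    ring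
  rw [h9]
  refine (abs_add_le _ _).trans ?_
  unfold B
  have : 0 ≤ P.c j * bd x * Q (x - y) t := by positivity
  linarith

theorem abs_V_add_le (j : ℕ) (x : ℝ) : |P.V x + P.κ j ^ 2| ≤ 8 := by
  have h1 := P.D.V_nonpos x
  have h2 := P.D.V_ge x
  have h3 := P.κ_pos j
  have h4 := P.κ_lt j
  rw [abs_le]
  constructor
  · change -8 ≤ P.D.V x + _
    nlinarith [sq_nonneg (P.κ j)]
  · change P.D.V x + _ ≤ 8
    nlinarith

theorem abs_Txx_le (j : ℕ) (x y : ℝ) {t : ℝ} (ht : 0 < t) :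
    |P.Txx j x y t| ≤ P.c j * B x y t := by
  have h1 := abs_E_le (P.κ_pos j).le (P.κ_lt j).le (x - y) ht
  have h1' := abs_Ex_le (P.κ_pos j).le (P.κ_lt j).le (x - y) ht
  have h1'' := abs_Exx_le (P.κ_pos j).le (P.κ_lt j).le (x - y) ht
  have h2 := P.abs_ψ_le j x
  have h2' := P.abs_ψ'_le j x
  have h3 := P.abs_ψ_le_two j y
  have h4 := P.c_pos j
  have h5 := bd_pos x
  have h6 := Q_pos (x - y) ht
  have h2'' : |(P.V x + P.κ j ^ 2) * P.ψ j x| ≤ 8 * (P.c j * bd x) := by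
    rw [abs_mul]
    exact mul_le_mul (P.abs_V_add_le j x) h2 (abs_nonneg _) (by norm_num)
  have h2a : |2 * P.ψ' j x| ≤ 2 * (P.c j * (2 * bd x)) := by
    rw [abs_mul, abs_of_pos (by norm_num : (0 : ℝ) < 2)]
    linarith
  have h7 := abs_bound h3 h1 h2'' (by positivity)
  have h8 := abs_bound h3 h1' h2a (by positivity)
  have h8' := abs_bound h3 h1'' h2 (by positivity)
  have h9 : P.Txx j x y t = (P.V x + P.κ j ^ 2) * P.ψ j x * P.ψ j y * E (P.κ j) (x - y) t +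
      2 * P.ψ' j x * P.ψ j y * Ex (P.κ j) (x - y) t +
      P.ψ j x * P.ψ j y * Exx (P.κ j) (x - y) t := by
    unfold Txx
    ring
  rw [h9]
  refine (abs_add_three _ _ _).trans ?_
  unfold B
  have : 0 ≤ P.c j * bd x * Q (x - y) t := by positivity
  linarith

theorem summable_of_le {f : ℕ → ℝ} {b : ℝ} (h : ∀ j, |f j| ≤ P.c j * b) : Summable f :=
  Summable.of_norm_bounded (P.c_sum.mul_right b) h

/-- The heat kernel of `-d²/dx² + V`. -/
noncomputable def k (x y t : ℝ) : ℝ := g (x - y) t + ∑' j, P.T j x y t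

/-- Its first `x`-derivative. -/
noncomputable def kx (x y t : ℝ) : ℝ :=
  -((x - y) / (2 * t)) * g (x - y) t + ∑' j, P.Tx j x y t

/-- Its second `x`-derivative. -/
noncomputable def kxx (x y t : ℝ) : ℝ :=
  ((x - y) ^ 2 / (4 * t ^ 2) - 1 / (2 * t)) * g (x - y) t + ∑' j, P.Txx j x y t

/-- Its `t`-derivative. -/
noncomputable def kt (x y t : ℝ) : ℝ :=
  ((x - y) ^ 2 / (4 * t ^ 2) - 1 / (2 * t)) * g (x - y) t + ∑' j, P.Tt j x y t

/-- The set `t > 0` in `(x, y, t)` space. -/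
def Ω₃ : Set (ℝ × ℝ × ℝ) := {p | 0 < p.2.2}

theorem isOpen_Ω₃ : IsOpen Ω₃ := isOpen_lt continuous_const (by fun_prop)

theorem continuousOn_comp {f : ℝ → ℝ → ℝ} (hf : ContinuousOn (fun p : ℝ × ℝ => f p.1 p.2) Ω₂) :
    ContinuousOn (fun p : ℝ × ℝ × ℝ => f (p.1 - p.2.1) p.2.2) Ω₃ := by
  have h : ContinuousOn (fun p : ℝ × ℝ × ℝ => (p.1 - p.2.1, p.2.2)) Ω₃ := by fun_prop
  exact hf.comp h fun p hp => hp

theorem continuousOn_B : ContinuousOn (fun p : ℝ × ℝ × ℝ => B p.1 p.2.1 p.2.2) Ω₃ := by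
  unfold B
  have h := continuousOn_comp continuousOn_Q
  have h2 : ContinuousOn (fun p : ℝ × ℝ × ℝ => 28 * bd p.1) Ω₃ :=
    (continuous_const.mul (continuous_bd.comp continuous_fst)).continuousOn
  exact h2.mul h

theorem continuous_ψ (j : ℕ) : Continuous (P.ψ j) :=
  continuous_iff_continuousAt.2 fun x => (P.hasDerivAt_ψ j x).continuousAt

theorem continuous_ψ' (j : ℕ) : Continuous (P.ψ' j) :=
  continuous_iff_continuousAt.2 fun x => (P.hasDerivAt_ψ' j x).continuousAt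

theorem continuous_V : Continuous P.V := P.D.continuous_V

theorem continuousOn_T (j : ℕ) : ContinuousOn (fun p : ℝ × ℝ × ℝ => P.T j p.1 p.2.1 p.2.2) Ω₃ := by
  unfold T
  have h := continuousOn_comp (continuousOn_E (P.κ j))
  have h1 : ContinuousOn (fun p : ℝ × ℝ × ℝ => P.ψ j p.1) Ω₃ :=
    ((P.continuous_ψ j).comp continuous_fst).continuousOn
  have h2 : ContinuousOn (fun p : ℝ × ℝ × ℝ => P.ψ j p.2.1) Ω₃ :=
    ((P.continuous_ψ j).comp (by fun_prop)).continuousOn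
  exact (h1.mul h2).mul h

theorem continuousOn_Tt (j : ℕ) :
    ContinuousOn (fun p : ℝ × ℝ × ℝ => P.Tt j p.1 p.2.1 p.2.2) Ω₃ := by
  unfold Tt
  have h := continuousOn_comp (continuousOn_Et (P.κ j))
  have h1 : ContinuousOn (fun p : ℝ × ℝ × ℝ => P.ψ j p.1) Ω₃ :=
    ((P.continuous_ψ j).comp continuous_fst).continuousOn
  have h2 : ContinuousOn (fun p : ℝ × ℝ × ℝ => P.ψ j p.2.1) Ω₃ :=
    ((P.continuous_ψ j).comp (by fun_prop)).continuousOn
  exact (h1.mul h2).mul h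

theorem continuousOn_Tx (j : ℕ) :
    ContinuousOn (fun p : ℝ × ℝ × ℝ => P.Tx j p.1 p.2.1 p.2.2) Ω₃ := by
  unfold Tx
  have h := continuousOn_comp (continuousOn_E (P.κ j))
  have h' := continuousOn_comp (continuousOn_Ex (P.κ j))
  have h1 : ContinuousOn (fun p : ℝ × ℝ × ℝ => P.ψ j p.1) Ω₃ :=
    ((P.continuous_ψ j).comp continuous_fst).continuousOn
  have h1' : ContinuousOn (fun p : ℝ × ℝ × ℝ => P.ψ' j p.1) Ω₃ :=
    ((P.continuous_ψ' j).comp continuous_fst).continuousOn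
  have h2 : ContinuousOn (fun p : ℝ × ℝ × ℝ => P.ψ j p.2.1) Ω₃ :=
    ((P.continuous_ψ j).comp (by fun_prop)).continuousOn
  exact h2.mul ((h1'.mul h).add (h1.mul h'))

theorem continuousOn_Txx (j : ℕ) :
    ContinuousOn (fun p : ℝ × ℝ × ℝ => P.Txx j p.1 p.2.1 p.2.2) Ω₃ := by
  unfold Txx
  have h := continuousOn_comp (continuousOn_E (P.κ j))
  have h' := continuousOn_comp (continuousOn_Ex (P.κ j))
  have h'' := continuousOn_comp (continuousOn_Exx (P.κ j))
  have h1 : ContinuousOn (fun p : ℝ × ℝ × ℝ => P.ψ j p.1) Ω₃ :=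
    ((P.continuous_ψ j).comp continuous_fst).continuousOn
  have h1' : ContinuousOn (fun p : ℝ × ℝ × ℝ => P.ψ' j p.1) Ω₃ :=
    ((P.continuous_ψ' j).comp continuous_fst).continuousOn
  have h2 : ContinuousOn (fun p : ℝ × ℝ × ℝ => P.ψ j p.2.1) Ω₃ :=
    ((P.continuous_ψ j).comp (by fun_prop)).continuousOn
  have h3 : ContinuousOn (fun p : ℝ × ℝ × ℝ => P.V p.1 + P.κ j ^ 2) Ω₃ :=
    ((P.continuous_V.comp continuous_fst).add continuous_const).continuousOn
  exact h2.mul ((((h3.mul h1).mul h).add ((h1'.mul h').const_smul (2 : ℝ))).add (h1.mul h''))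

theorem continuousOn_k : ContinuousOn (fun p : ℝ × ℝ × ℝ => P.k p.1 p.2.1 p.2.2) Ω₃ := by
  unfold k
  refine (continuousOn_comp continuousOn_g).add ?_
  exact continuousOn_tsum_loc P.c_sum (fun j => (P.c_pos j).le) isOpen_Ω₃ continuousOn_B
    P.continuousOn_T fun j p hp => P.abs_T_le j _ _ hp

theorem continuousOn_gx : ContinuousOn (fun p : ℝ × ℝ => -(p.1 / (2 * p.2)) * g p.1 p.2) Ω₂ := by
  refine ContinuousOn.mul ?_ continuousOn_g
  refine (ContinuousOn.div (by fun_prop) (by fun_prop) fun p hp => ?_).neg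
  have : 0 < p.2 := hp
  positivity

theorem continuousOn_gxx : ContinuousOn
    (fun p : ℝ × ℝ => (p.1 ^ 2 / (4 * p.2 ^ 2) - 1 / (2 * p.2)) * g p.1 p.2) Ω₂ := by
  refine ContinuousOn.mul ?_ continuousOn_g
  refine ContinuousOn.sub ?_ ?_
  · refine ContinuousOn.div (by fun_prop) (by fun_prop) fun p hp => ?_
    have : 0 < p.2 := hp
    positivity
  · refine ContinuousOn.div (by fun_prop) (by fun_prop) fun p hp => ?_
    have : 0 < p.2 := hp
    positivity

theorem continuousOn_kx : ContinuousOn (fun p : ℝ × ℝ × ℝ => P.kx p.1 p.2.1 p.2.2) Ω₃ := by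
  unfold kx
  refine (continuousOn_comp (f := fun ξ t => -(ξ / (2 * t)) * g ξ t) continuousOn_gx).add ?_
  exact continuousOn_tsum_loc P.c_sum (fun j => (P.c_pos j).le) isOpen_Ω₃ continuousOn_B
    P.continuousOn_Tx fun j p hp => P.abs_Tx_le j _ _ hp

theorem continuousOn_kxx : ContinuousOn (fun p : ℝ × ℝ × ℝ => P.kxx p.1 p.2.1 p.2.2) Ω₃ := by
  unfold kxx
  refine (continuousOn_comp (f := fun ξ t => (ξ ^ 2 / (4 * t ^ 2) - 1 / (2 * t)) * g ξ t)
    continuousOn_gxx).add ?_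
  exact continuousOn_tsum_loc P.c_sum (fun j => (P.c_pos j).le) isOpen_Ω₃ continuousOn_B
    P.continuousOn_Txx fun j p hp => P.abs_Txx_le j _ _ hp

theorem continuousOn_kt : ContinuousOn (fun p : ℝ × ℝ × ℝ => P.kt p.1 p.2.1 p.2.2) Ω₃ := by
  unfold kt
  refine (continuousOn_comp (f := fun ξ t => (ξ ^ 2 / (4 * t ^ 2) - 1 / (2 * t)) * g ξ t)
    continuousOn_gxx).add ?_
  exact continuousOn_tsum_loc P.c_sum (fun j => (P.c_pos j).le) isOpen_Ω₃ continuousOn_B
    P.continuousOn_Tt fun j p hp => P.abs_Tt_le j _ _ hp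

theorem hasDerivAt_k_x (x y : ℝ) {t : ℝ} (ht : 0 < t) :
    HasDerivAt (fun x => P.k x y t) (P.kx x y t) x := by
  have h1 : HasDerivAt (fun x => g (x - y) t) (-((x - y) / (2 * t)) * g (x - y) t) x :=
    (hasDerivAt_g_x ht (x - y)).comp_sub_const x y
  refine h1.add ?_
  have hB : ContinuousAt (fun z => B z y t) x := by
    have h := continuousOn_B.comp (s := univ) (f := fun z : ℝ => (z, y, t)) (by fun_prop)
      (fun z _ => ht)
    exact (continuousOn_univ.1 h).continuousAt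
  exact hasDerivAt_tsum_loc P.c_sum (fun j => (P.c_pos j).le) isOpen_univ (mem_univ x) hB
    (fun j z _ => P.hasDerivAt_T_x j z y ht) (fun j z _ => P.abs_Tx_le j z y ht)
    (P.summable_of_le fun j => P.abs_T_le j x y ht)

theorem hasDerivAt_k_xx (x y : ℝ) {t : ℝ} (ht : 0 < t) :
    HasDerivAt (fun x => P.kx x y t) (P.kxx x y t) x := by
  have h1 : HasDerivAt (fun x => -((x - y) / (2 * t)) * g (x - y) t)
      (((x - y) ^ 2 / (4 * t ^ 2) - 1 / (2 * t)) * g (x - y) t) x :=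
    (hasDerivAt_g_xx ht (x - y)).comp_sub_const x y
  refine h1.add ?_
  have hB : ContinuousAt (fun z => B z y t) x := by
    have h := continuousOn_B.comp (s := univ) (f := fun z : ℝ => (z, y, t)) (by fun_prop)
      (fun z _ => ht)
    exact (continuousOn_univ.1 h).continuousAt
  exact hasDerivAt_tsum_loc P.c_sum (fun j => (P.c_pos j).le) isOpen_univ (mem_univ x) hB
    (fun j z _ => P.hasDerivAt_T_xx j z y ht) (fun j z _ => P.abs_Txx_le j z y ht)
    (P.summable_of_le fun j => P.abs_Tx_le j x y ht)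

theorem hasDerivAt_k_t (x y : ℝ) {t : ℝ} (ht : 0 < t) :
    HasDerivAt (fun t => P.k x y t) (P.kt x y t) t := by
  refine (hasDerivAt_g_t ht (x - y)).add ?_
  have hB : ContinuousAt (fun s => B x y s) t := by
    have h := continuousOn_B.comp (s := Ioi (0 : ℝ)) (f := fun s : ℝ => (x, y, s)) (by fun_prop)
      (fun s hs => hs)
    exact h.continuousAt (Ioi_mem_nhds ht)
  exact hasDerivAt_tsum_loc P.c_sum (fun j => (P.c_pos j).le) isOpen_Ioi ht hB
    (fun j s hs => P.hasDerivAt_T_t j x y hs) (fun j s hs => P.abs_Tt_le j x y hs)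
    (P.summable_of_le fun j => P.abs_T_le j x y ht)

/-- The heat equation. -/
theorem pde (x y : ℝ) {t : ℝ} (ht : 0 < t) : P.kt x y t = P.kxx x y t - P.V x * P.k x y t := by
  have h1 : HasSum (fun j => P.Tt j x y t) (∑' j, P.Tt j x y t) :=
    (P.summable_of_le fun j => P.abs_Tt_le j x y ht).hasSum
  have h2 : HasSum (fun j => P.Txx j x y t) (∑' j, P.Txx j x y t) :=
    (P.summable_of_le fun j => P.abs_Txx_le j x y ht).hasSum
  have h3 : HasSum (fun j => P.T j x y t) (∑' j, P.T j x y t) :=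
    (P.summable_of_le fun j => P.abs_T_le j x y ht).hasSum
  have h4 := (h1.sub h2).add (h3.mul_left (P.V x))
  have h5 := (P.bilinear x y).mul_left (4 * g (x - y) t)
  have h6 : (fun j => P.Tt j x y t - P.Txx j x y t + P.V x * P.T j x y t) =
      fun j => 4 * g (x - y) t * (P.ψ j y * (P.κ j * P.ψ j x * cosh (P.κ j * (x - y)) +
        P.ψ' j x * sinh (P.κ j * (x - y)))) := funext fun j => P.T_identity j x y t
  rw [← h6] at h5
  have h7 := h4.unique h5
  unfold kt kxx k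
  linarith

theorem k_symm (x y t : ℝ) : P.k x y t = P.k y x t := by
  unfold k T
  have h1 : x - y = -(y - x) := by ring
  rw [h1]
  congr 1
  · unfold g
    rw [neg_sq]
  · refine tsum_congr fun j => ?_
    rw [E_neg]
    ring

theorem abs_tsum_le (x y : ℝ) {t b : ℝ} (hb : 0 ≤ b) (h : ∀ j, E (P.κ j) (x - y) t ≤ b) :
    |∑' j, P.T j x y t| ≤ 2 * b := by
  have h1 := P.hasSum_ψ_sq x
  have h2 := P.hasSum_ψ_sq y
  have h3 := ((h1.add h2).mul_left (b / 2))
  have h4 : ∀ j, |P.T j x y t| ≤ b / 2 * (P.ψ j x ^ 2 + P.ψ j y ^ 2) := by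
    intro j
    unfold T
    rw [abs_mul, abs_of_nonneg (E_nonneg (P.κ_pos j).le _ _), abs_mul]
    have h5 : |P.ψ j x| * |P.ψ j y| ≤ (P.ψ j x ^ 2 + P.ψ j y ^ 2) / 2 := by
      rw [← sq_abs (P.ψ j x), ← sq_abs (P.ψ j y)]
      nlinarith [sq_nonneg (|P.ψ j x| - |P.ψ j y|)]
    calc |P.ψ j x| * |P.ψ j y| * E (P.κ j) (x - y) t
        ≤ (P.ψ j x ^ 2 + P.ψ j y ^ 2) / 2 * b :=
          mul_le_mul h5 (h j) (E_nonneg (P.κ_pos j).le _ _) (by positivity)
      _ = _ := by ring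
  have h5 : Summable fun j => |P.T j x y t| :=
    Summable.of_nonneg_of_le (fun j => abs_nonneg _) h4 h3.summable
  have h6 : |∑' j, P.T j x y t| ≤ ∑' j, |P.T j x y t| := by
    have := norm_tsum_le_tsum_norm (f := fun j => P.T j x y t) (by simpa using h5)
    simpa using this
  refine h6.trans ((h5.tsum_le_tsum h4 h3.summable).trans ?_)
  rw [h3.tsum_eq]
  have h7 := P.D.norm_ψ_sq_le x
  have h8 := P.D.norm_ψ_sq_le y
  nlinarith

theorem abs_k_sub_g_le (x y : ℝ) {t : ℝ} (ht : 0 ≤ t) :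
    |P.k x y t - g (x - y) t| ≤ 4 * exp t * √t := by
  have h := P.abs_tsum_le x y (b := 2 * exp t * √t) (by positivity)
    fun j => E_le_sqrt (P.κ_pos j).le (P.κ_lt j).le (x - y) ht
  unfold k
  rw [add_sub_cancel_left]
  linarith

theorem abs_k_le (x y : ℝ) {t : ℝ} (ht : 0 < t) :
    |P.k x y t| ≤ g (x - y) t * (1 + 8 * t * exp (t + |x - y|)) := by
  have h0 := g_pos ht (x - y)
  have h := P.abs_tsum_le x y (b := 4 * t * exp (t + |x - y|) * g (x - y) t) (by positivity)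
    fun j => E_le_g (P.κ_pos j).le (P.κ_lt j).le (x - y) ht
  unfold k
  refine (abs_add_le _ _).trans ?_
  rw [abs_of_pos h0]
  linarith

end Params

end Pool.Agent.helper34.Soliton
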