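import Pool.Agent.helper34.Soliton.Abstract

set_option autoImplicit false

/-!
# Infinite soliton systems: the model on `ℓ²`
-/

open scoped RealInnerProductSpace
open MeasureTheory Set

namespace Pool.Agent.helper34.Soliton

/-- The parameters `κ j` (so that `-(κ j)²` are the eigenvalues) and `c j` (norming constants) of an
infinite soliton system. -/
structure Params where
  κ : ℕ → ℝ
  c : ℕ → ℝ
  κ_ge : ∀ j, 1 / 2 ≤ κ j
  κ_lt : ∀ j, κ j < 1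
  c_pos : ∀ j, 0 < c j
  c_sum : Summable c
  c_small : ∑' j, c j ≤ 1 / 8

/-- The Hilbert space `ℓ²`. -/
abbrev Hs : Type := lp (fun _ : ℕ => ℝ) 2

namespace Params

variable (P : Params)

theorem κ_pos (j : ℕ) : 0 < P.κ j := lt_of_lt_of_le (by norm_num) (P.κ_ge j)

/-- The diagonal operator with entries `κ j`. -/
noncomputable def K : Hs →L[ℝ] Hs :=
  lp.mapCLM 2 (fun i => P.κ i • ContinuousLinearMap.id ℝ ℝ) zero_le_one (fun i => by
    rw [norm_smul, ContinuousLinearMap.norm_id, mul_one, Real.norm_eq_abs,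
      abs_of_pos (P.κ_pos i)]
    exact (P.κ_lt i).le)

theorem K_apply (φ : Hs) (j : ℕ) : P.K φ j = P.κ j * φ j := rfl

theorem norm_K_le : ‖P.K‖ ≤ 1 := lp.norm_mapCLM_le _ _ _ _

theorem hasSum_inner (u v : Hs) : HasSum (fun j => u j * v j) ⟪u, v⟫ := by
  have h := lp.hasSum_inner (𝕜 := ℝ) u v
  have h2 : (fun j => u j * v j) = fun j => ⟪u j, v j⟫ := by
    funext j
    simp [mul_comm]
  rw [h2]
  exact h

theorem inner_eq (u v : Hs) : ⟪u, v⟫ = ∑' j, u j * v j := (hasSum_inner u v).tsum_eq.symm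

theorem K_sa (u v : Hs) : ⟪P.K u, v⟫ = ⟪u, P.K v⟫ := by
  rw [inner_eq, inner_eq]
  refine tsum_congr fun j => ?_
  rw [K_apply, K_apply]
  ring

theorem K_pos (u : Hs) : 0 ≤ ⟪u, P.K u⟫ := by
  rw [inner_eq]
  refine tsum_nonneg fun j => ?_
  rw [K_apply]
  have := P.κ_pos j
  nlinarith [mul_self_nonneg (u j)]

/-- The vector `(c j)`. -/
noncomputable def e₀ : Hs := ⟨P.c, by
  have h : Memℓp P.c 1 := by
    rw [memℓp_gen_iff (by simp)]
    simpa using P.c_sum.abs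
  exact h.of_exponent_ge (by norm_num)⟩

theorem e₀_apply (j : ℕ) : P.e₀ j = P.c j := rfl

/-- The `j`-th coordinate as a continuous linear functional. -/
noncomputable def ev (j : ℕ) : Hs →L[ℝ] ℝ := innerSL ℝ (lp.single 2 j (1 : ℝ))

theorem ev_apply (j : ℕ) (u : Hs) : ev j u = u j := by
  change ⟪lp.single 2 j (1 : ℝ), u⟫ = u j
  rw [lp.inner_single_left]
  simp

/-- Coordinates of `exp (-x K) u`. -/
theorem expK_apply (x : ℝ) (u : Hs) (j : ℕ) :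
    expK P.K x u j = Real.exp (-(P.κ j * x)) * u j := by
  have hd : ∀ y : ℝ, HasDerivAt (fun y => Real.exp (P.κ j * y) * ev j (expK P.K y u)) 0 y := by
    intro y
    have h1 : HasDerivAt (fun y => ev j (expK P.K y u)) (ev j (-P.K (expK P.K y u))) y :=
      (ev j).hasFDerivAt.comp_hasDerivAt y (hasDerivAt_expK_apply P.K u y)
    have h2 : HasDerivAt (fun y : ℝ => Real.exp (P.κ j * y)) (Real.exp (P.κ j * y) * P.κ j) y := by
      have := ((hasDerivAt_id y).const_mul (P.κ j)).exp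
      simpa using this
    refine (h2.mul h1).congr_deriv ?_
    rw [map_neg, ev_apply, ev_apply, K_apply]
    ring
  have h0 := is_const_of_deriv_eq_zero (fun y => (hd y).differentiableAt)
    (fun y => (hd y).deriv) x 0
  simp only [ev_apply, mul_zero, Real.exp_zero, one_mul, expK_zero] at h0
  have h3 : Real.exp (P.κ j * x) * (Real.exp (-(P.κ j * x)) * u j) = u j := by
    rw [← mul_assoc, ← Real.exp_add, add_neg_cancel, Real.exp_zero, one_mul]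
  have h4 : Real.exp (P.κ j * x) * expK P.K x u j =
      Real.exp (P.κ j * x) * (Real.exp (-(P.κ j * x)) * u j) := by
    rw [h3, h0]
    rfl
  exact mul_left_cancel₀ (Real.exp_pos _).ne' h4

theorem norm_expK_le {s : ℝ} (hs : 0 ≤ s) (u : Hs) :
    ‖expK P.K s u‖ ≤ Real.exp (-(s / 2)) * ‖u‖ := by
  have h : ‖Real.exp (-(s / 2)) • u‖ = Real.exp (-(s / 2)) * ‖u‖ := by
    rw [norm_smul, Real.norm_eq_abs, abs_of_pos (Real.exp_pos _)]
  rw [← h]
  refine lp.norm_mono (by norm_num) fun j => ?_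
  rw [P.expK_apply, lp.coeFn_smul, Pi.smul_apply, smul_eq_mul, norm_mul, norm_mul]
  refine mul_le_mul_of_nonneg_right ?_ (norm_nonneg _)
  rw [Real.norm_eq_abs, Real.norm_eq_abs, abs_of_pos (Real.exp_pos _),
    abs_of_pos (Real.exp_pos _), Real.exp_le_exp]
  have := P.κ_ge j
  nlinarith

theorem norm_expK_le' (x : ℝ) (u : Hs) :
    ‖expK P.K x u‖ ≤ Real.exp |x| * ‖u‖ := by
  have h : ‖Real.exp |x| • u‖ = Real.exp |x| * ‖u‖ := by
    rw [norm_smul, Real.norm_eq_abs, abs_of_pos (Real.exp_pos _)]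
  rw [← h]
  refine lp.norm_mono (by norm_num) fun j => ?_
  rw [P.expK_apply, lp.coeFn_smul, Pi.smul_apply, smul_eq_mul, norm_mul, norm_mul]
  refine mul_le_mul_of_nonneg_right ?_ (norm_nonneg _)
  rw [Real.norm_eq_abs, Real.norm_eq_abs, abs_of_pos (Real.exp_pos _),
    abs_of_pos (Real.exp_pos _), Real.exp_le_exp]
  have h1 := P.κ_pos j
  have h2 := P.κ_lt j
  have h3 := neg_abs_le x
  have h4 := abs_nonneg x
  nlinarith

/-- The vector `e s = exp (-s K) e₀`. -/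
noncomputable def es (s : ℝ) : Hs := expK P.K s P.e₀

theorem hasDerivAt_es (s : ℝ) : HasDerivAt P.es (-P.K (P.es s)) s :=
  hasDerivAt_expK_apply _ _ _

theorem continuous_es : Continuous P.es :=
  continuous_iff_continuousAt.2 fun s => (P.hasDerivAt_es s).continuousAt

/-- The rank one operator `v ⊗ v`. -/
noncomputable def rk (v : Hs) : Hs →L[ℝ] Hs := (innerSL ℝ v).smulRight v

theorem rk_apply (v u : Hs) : rk v u = ⟪v, u⟫ • v := rfl

theorem norm_rk_le (v : Hs) : ‖rk v‖ ≤ ‖v‖ * ‖v‖ := by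
  rw [rk, ContinuousLinearMap.norm_smulRight_apply, innerSL_apply_norm]

theorem continuous_rk_es : Continuous fun s => rk (P.es s) := by
  have h1 : Continuous fun s => innerSL ℝ (P.es s) := (innerSL ℝ).continuous.comp P.continuous_es
  exact ((ContinuousLinearMap.smulRightL ℝ Hs Hs).continuous₂.comp (h1.prodMk P.continuous_es))

theorem integrableOn_rk : IntegrableOn (fun s => rk (P.es s)) (Ioi 0) := by
  have h1 : IntegrableOn (fun s : ℝ => Real.exp (-s) * (‖P.e₀‖ * ‖P.e₀‖)) (Ioi 0) :=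
    (integrableOn_exp_neg_Ioi 0).mul_const _
  refine Integrable.mono' h1 P.continuous_rk_es.aestronglyMeasurable ?_
  refine (ae_restrict_mem measurableSet_Ioi).mono fun s hs => ?_
  refine (norm_rk_le _).trans ?_
  have h2 := P.norm_expK_le (le_of_lt hs) P.e₀
  have h3 : Real.exp (-s) = Real.exp (-(s / 2)) * Real.exp (-(s / 2)) := by
    rw [← Real.exp_add]
    congr 1
    ring
  rw [h3, mul_mul_mul_comm]
  exact mul_le_mul h2 h2 (norm_nonneg _) (by positivity)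

/-- The operator `C₀ = ∫_0^∞ e(s) ⊗ e(s) ds`. -/
noncomputable def C₀ : Hs →L[ℝ] Hs := ∫ s in Ioi (0 : ℝ), rk (P.es s)

theorem inner_C₀ (u v : Hs) :
    ⟪P.C₀ u, v⟫ = ∫ s in Ioi (0 : ℝ), ⟪P.es s, u⟫ * ⟪P.es s, v⟫ := by
  let L : (Hs →L[ℝ] Hs) →L[ℝ] ℝ := (innerSL ℝ v).comp (ContinuousLinearMap.apply ℝ Hs u)
  have h1 : ∫ s in Ioi (0 : ℝ), L (rk (P.es s)) = L P.C₀ :=
    L.integral_comp_comm P.integrableOn_rk
  have h2 : L P.C₀ = ⟪P.C₀ u, v⟫ := by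
    change ⟪v, P.C₀ u⟫ = _
    rw [real_inner_comm]
  rw [← h2, ← h1]
  refine integral_congr_ae (Filter.Eventually.of_forall fun s => ?_)
  change ⟪v, rk (P.es s) u⟫ = _
  rw [rk_apply, inner_smul_right, real_inner_comm (P.es s) v]

theorem integrableOn_inner (u v : Hs) :
    IntegrableOn (fun s => ⟪P.es s, u⟫ * ⟪P.es s, v⟫) (Ioi 0) := by
  let L : (Hs →L[ℝ] Hs) →L[ℝ] ℝ := (innerSL ℝ v).comp (ContinuousLinearMap.apply ℝ Hs u)
  have h := L.integrable_comp P.integrableOn_rk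
  refine h.congr (Filter.Eventually.of_forall fun s => ?_)
  change ⟪v, rk (P.es s) u⟫ = _
  rw [rk_apply, inner_smul_right, real_inner_comm (P.es s) v]

theorem C₀_sa (u v : Hs) : ⟪P.C₀ u, v⟫ = ⟪u, P.C₀ v⟫ := by
  rw [inner_C₀, real_inner_comm, inner_C₀]
  refine integral_congr_ae (Filter.Eventually.of_forall fun s => ?_)
  exact mul_comm _ _

theorem C₀_pos (u : Hs) : 0 ≤ ⟪P.C₀ u, u⟫ := by
  rw [inner_C₀]
  exact integral_nonneg fun s => mul_self_nonneg _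

theorem tendsto_es : Filter.Tendsto P.es Filter.atTop (nhds 0) := by
  rw [tendsto_zero_iff_norm_tendsto_zero]
  have h1 : Filter.Tendsto (fun s : ℝ => Real.exp (-(s / 2)) * ‖P.e₀‖) Filter.atTop (nhds 0) := by
    have h2 : Filter.Tendsto (fun s : ℝ => Real.exp (-(s / 2))) Filter.atTop (nhds 0) :=
      Real.tendsto_exp_neg_atTop_nhds_zero.comp
        (Filter.tendsto_id.atTop_div_const (by norm_num))
    simpa using h2.mul_const ‖P.e₀‖
  refine squeeze_zero' (Filter.Eventually.of_forall fun s => norm_nonneg _) ?_ h1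
  filter_upwards [Filter.eventually_ge_atTop 0] with s hs
  exact P.norm_expK_le hs P.e₀

theorem lyap_inner (u v : Hs) :
    ⟪P.K (P.C₀ u) + P.C₀ (P.K u), v⟫ = ⟪P.e₀, u⟫ * ⟪P.e₀, v⟫ := by
  have hd : ∀ s ∈ Ici (0 : ℝ), HasDerivAt (fun s => ⟪P.es s, u⟫ * ⟪P.es s, v⟫)
      (-(⟪P.es s, P.K u⟫ * ⟪P.es s, v⟫ + ⟪P.es s, u⟫ * ⟪P.es s, P.K v⟫)) s := by
    intro s _
    have h1 := (P.hasDerivAt_es s).inner ℝ (hasDerivAt_const s u)
    have h2 := (P.hasDerivAt_es s).inner ℝ (hasDerivAt_const s v)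
    refine (h1.mul h2).congr_deriv ?_
    rw [inner_zero_right, inner_neg_left, inner_neg_left, P.K_sa, P.K_sa]
    ring
  have hi : IntegrableOn (fun s => -(⟪P.es s, P.K u⟫ * ⟪P.es s, v⟫ +
      ⟪P.es s, u⟫ * ⟪P.es s, P.K v⟫)) (Ioi 0) :=
    ((P.integrableOn_inner _ _).add (P.integrableOn_inner _ _)).neg
  have ht : Filter.Tendsto (fun s => ⟪P.es s, u⟫ * ⟪P.es s, v⟫) Filter.atTop (nhds 0) := by
    have h1 : Filter.Tendsto (fun s => ⟪P.es s, u⟫) Filter.atTop (nhds ⟪(0 : Hs), u⟫) :=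
      P.tendsto_es.inner tendsto_const_nhds
    have h2 : Filter.Tendsto (fun s => ⟪P.es s, v⟫) Filter.atTop (nhds ⟪(0 : Hs), v⟫) :=
      P.tendsto_es.inner tendsto_const_nhds
    simpa using h1.mul h2
  have h := integral_Ioi_of_hasDerivAt_of_tendsto' hd hi ht
  rw [integral_neg, integral_add (P.integrableOn_inner _ _) (P.integrableOn_inner _ _),
    ← P.inner_C₀, ← P.inner_C₀] at h
  have h0 : P.es 0 = P.e₀ := by
    rw [es, expK_zero]
    rfl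
  rw [h0] at h
  rw [inner_add_left, P.K_sa]
  linarith

theorem lyap (u : Hs) : P.K (P.C₀ u) + P.C₀ (P.K u) = ⟪P.e₀, u⟫ • P.e₀ := by
  refine ext_inner_right ℝ fun v => ?_
  rw [P.lyap_inner, inner_smul_left]
  rfl

/-- The soliton data of the parameters. -/
noncomputable def D : Data Hs where
  K := P.K
  C₀ := P.C₀
  e₀ := P.e₀
  K_sa := P.K_sa
  C₀_sa := P.C₀_sa
  C₀_pos := P.C₀_pos
  lyap := P.lyap
  K_le := P.norm_K_le
  K_pos := P.K_pos

theorem D_U (x : ℝ) (u : Hs) (j : ℕ) : P.D.U x u j = Real.exp (-(P.κ j * x)) * u j :=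
  P.expK_apply x u j

theorem D_e_apply (x : ℝ) (j : ℕ) : P.D.e x j = Real.exp (-(P.κ j * x)) * P.c j :=
  P.expK_apply x P.e₀ j

theorem D_K_apply (u : Hs) (j : ℕ) : P.D.K u j = P.κ j * u j := rfl

/-- The functions `ψ_j`. -/
noncomputable def ψ (j : ℕ) (x : ℝ) : ℝ := P.D.ψ x j

/-- The derivatives of `ψ_j`. -/
noncomputable def ψ' (j : ℕ) (x : ℝ) : ℝ := P.D.ψ' x j

/-- The potential `V`. -/
noncomputable def V (x : ℝ) : ℝ := P.D.V x

theorem hasDerivAt_ψ (j : ℕ) (x : ℝ) : HasDerivAt (P.ψ j) (P.ψ' j x) x := by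
  have h : HasDerivAt (fun y => ev j (P.D.ψ y)) (ev j (P.D.ψ' x)) x :=
    (ev j).hasFDerivAt.comp_hasDerivAt x (P.D.hasDerivAt_ψ x)
  simp only [ev_apply] at h
  exact h

theorem hasDerivAt_ψ' (j : ℕ) (x : ℝ) :
    HasDerivAt (P.ψ' j) ((P.V x + P.κ j ^ 2) * P.ψ j x) x := by
  have h : HasDerivAt (fun y => ev j (P.D.ψ' y))
      (ev j (P.D.K (P.D.K (P.D.ψ x)) + P.D.V x • P.D.ψ x)) x :=
    (ev j).hasFDerivAt.comp_hasDerivAt x (P.D.hasDerivAt_ψ' x)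
  rw [map_add, map_smul, ev_apply, ev_apply, D_K_apply, D_K_apply] at h
  simp only [ev_apply] at h
  refine h.congr_deriv ?_
  change P.κ j * (P.κ j * P.ψ j x) + P.V x * P.ψ j x = _
  ring

theorem V_eq (x : ℝ) : HasSum (fun j => -4 * (P.κ j * P.ψ j x ^ 2)) (P.V x) := by
  have h := (hasSum_inner (P.D.ψ x) (P.D.K (P.D.ψ x))).mul_left (-4)
  have h2 : (fun j => -4 * (P.κ j * P.ψ j x ^ 2)) =
      fun j => -4 * ((P.D.ψ x) j * (P.D.K (P.D.ψ x)) j) := by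
    funext j
    rw [D_K_apply]
    change _ = -4 * (P.ψ j x * (P.κ j * P.ψ j x))
    ring
  rw [h2]
  exact h

/-- The bilinear identity in coordinates. -/
theorem bilinear (x y : ℝ) :
    HasSum (fun j => P.ψ j y * (P.κ j * P.ψ j x * Real.cosh (P.κ j * (x - y)) +
      P.ψ' j x * Real.sinh (P.κ j * (x - y)))) (-(P.V x) / 4) := by
  have h := hasSum_inner (P.D.ψ y) ((1 / 2 : ℝ) • (P.D.U (y - x) (P.D.K (P.D.ψ x) + P.D.ψ' x) +
      P.D.U (x - y) (P.D.K (P.D.ψ x) - P.D.ψ' x)))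
  rw [P.D.bilinear] at h
  have h2 : -(P.V x) / 4 = ⟪P.D.ψ x, P.D.K (P.D.ψ x)⟫ := by
    change -(-4 * ⟪P.D.ψ x, P.D.K (P.D.ψ x)⟫) / 4 = _
    ring
  rw [h2]
  convert h using 2
  rename_i j
  rw [lp.coeFn_smul, Pi.smul_apply, lp.coeFn_add, Pi.add_apply, P.D_U, P.D_U, lp.coeFn_add,
    lp.coeFn_sub, Pi.add_apply, Pi.sub_apply, D_K_apply, smul_eq_mul, Real.cosh_eq, Real.sinh_eq]
  change P.ψ j y * (P.κ j * P.ψ j x * _ + P.ψ' j x * _) = P.ψ j y * (1 / 2 * (_ * (P.κ j * P.ψ j x +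
    P.ψ' j x) + _ * (P.κ j * P.ψ j x - P.ψ' j x)))
  have h3 : -(P.κ j * (y - x)) = P.κ j * (x - y) := by ring
  rw [h3]
  ring

theorem norm_D_e_le (x : ℝ) : ‖P.D.e x‖ ≤ Real.exp |x| * ‖P.e₀‖ := P.norm_expK_le' x P.e₀

theorem abs_apply_le (u : Hs) (j : ℕ) : |u j| ≤ ‖u‖ :=
  lp.norm_apply_le_norm (by norm_num) u j

/-- Decay of the coordinates of vectors in the range of `C₀`. -/
theorem abs_C₀_le (u : Hs) (j : ℕ) : |P.C₀ u j| ≤ 2 * P.c j * ‖P.e₀‖ * ‖u‖ := by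
  set b : Hs := lp.single 2 j (1 : ℝ) with hb
  have hbj : ∀ v : Hs, ⟪b, v⟫ = v j := fun v => ev_apply j v
  have h1 : P.K b = P.κ j • b := by
    apply lp.ext
    funext i
    rw [K_apply, lp.coeFn_smul, Pi.smul_apply, smul_eq_mul]
    by_cases hij : i = j
    · rw [hij]
    · rw [hb, lp.single_apply_ne _ _ _ hij]
      ring
  have h2 := P.lyap b
  rw [h1, map_smul] at h2
  have h3 : ⟪P.e₀, b⟫ = P.c j := by
    rw [real_inner_comm, hbj, e₀_apply]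
  rw [h3] at h2
  set w := P.C₀ b with hw
  have h4 : ⟪P.K w + P.κ j • w, w⟫ = ⟪P.c j • P.e₀, w⟫ := by rw [h2]
  rw [inner_add_left, inner_smul_left, inner_smul_left, real_inner_self_eq_norm_sq] at h4
  have h5 : 0 ≤ ⟪P.K w, w⟫ := by
    rw [real_inner_comm]
    exact P.K_pos w
  have h6 := real_inner_le_norm P.e₀ w
  have h7 : ‖w‖ ≤ 2 * P.c j * ‖P.e₀‖ := by
    by_contra hcon
    push Not at hcon
    have h8 : 0 < ‖w‖ := lt_of_le_of_lt (by have := P.c_pos j; positivity) hcon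
    have h9 := P.κ_ge j
    have h10 := P.c_pos j
    simp only [conj_trivial] at h4
    nlinarith [mul_pos h8 h8, mul_pos h10 h8]
  have h8 : P.C₀ u j = ⟪w, u⟫ := by
    rw [← hbj, ← P.C₀_sa]
  rw [h8]
  exact (abs_real_inner_le_norm w u).trans (mul_le_mul_of_nonneg_right h7 (norm_nonneg _))

theorem abs_C_le (x : ℝ) (u : Hs) (j : ℕ) :
    |P.D.C x u j| ≤ P.c j * (2 * ‖P.e₀‖ * Real.exp |x| * Real.exp |x| * ‖u‖) := by
  have h1 : P.D.C x u j = Real.exp (-(P.κ j * x)) * P.C₀ (P.D.U x u) j := by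
    rw [Data.C_apply, D_U]
    rfl
  have h2 : Real.exp (-(P.κ j * x)) ≤ Real.exp |x| := by
    rw [Real.exp_le_exp]
    have h1 := P.κ_pos j
    have h2 := P.κ_lt j
    have h3 := neg_abs_le x
    have h4 := abs_nonneg x
    nlinarith
  rw [h1, abs_mul, abs_of_pos (Real.exp_pos _)]
  have h3 := P.abs_C₀_le (P.D.U x u) j
  have h4 : ‖P.D.U x u‖ ≤ Real.exp |x| * ‖u‖ := P.norm_expK_le' x u
  have h5 := P.c_pos j
  calc Real.exp (-(P.κ j * x)) * |P.C₀ (P.D.U x u) j|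
      ≤ Real.exp |x| * (2 * P.c j * ‖P.e₀‖ * (Real.exp |x| * ‖u‖)) := by
        refine mul_le_mul h2 (h3.trans ?_) (abs_nonneg _) (Real.exp_pos _).le
        exact mul_le_mul_of_nonneg_left h4 (by positivity)
    _ = _ := by ring

theorem norm_ψ_le_two (x : ℝ) : ‖P.D.ψ x‖ ≤ 2 := by
  have h := P.D.norm_ψ_sq_le x
  nlinarith [norm_nonneg (P.D.ψ x)]

theorem norm_e₀_le : ‖P.e₀‖ ≤ 1 / 8 := by
  have h1 : ∀ j, P.c j ≤ 1 / 8 := fun j =>
    (P.c_sum.le_tsum j fun i _ => (P.c_pos i).le).trans P.c_small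
  refine lp.norm_le_of_tsum_le (by norm_num) (by norm_num) ?_
  have h2 : ∀ j, ‖P.e₀ j‖ ^ (2 : ENNReal).toReal ≤ 1 / 8 * P.c j := by
    intro j
    rw [e₀_apply, Real.norm_eq_abs, abs_of_pos (P.c_pos j)]
    have := h1 j
    have h3 := P.c_pos j
    norm_num
    nlinarith
  have h3 : Summable fun j => ‖P.e₀ j‖ ^ (2 : ENNReal).toReal :=
    Summable.of_nonneg_of_le (fun j => by positivity) h2 (P.c_sum.mul_left _)
  refine (h3.tsum_le_tsum h2 (P.c_sum.mul_left _)).trans ?_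
  rw [tsum_mul_left]
  have := P.c_small
  norm_num
  linarith

/-- `|ψ_j x| ≤ c_j * bd x`. -/
noncomputable def bd (x : ℝ) : ℝ := 3 * Real.exp (2 * |x|)

theorem continuous_bd : Continuous bd := by
  unfold bd
  fun_prop

theorem bd_pos (x : ℝ) : 0 < bd x := by
  unfold bd
  positivity

theorem exp_neg_κ_le (j : ℕ) (x : ℝ) : Real.exp (-(P.κ j * x)) ≤ Real.exp |x| := by
  rw [Real.exp_le_exp]
  have h1 := P.κ_pos j
  have h2 := P.κ_lt j
  have h3 := neg_abs_le x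
  have h4 := abs_nonneg x
  nlinarith

theorem ψ_eq (j : ℕ) (x : ℝ) : P.ψ j x = P.D.e x j - P.D.C x (P.D.ψ x) j := by
  have h : P.D.ψ x + P.D.C x (P.D.ψ x) = P.D.e x := P.D.mul_M x _
  rw [← h, lp.coeFn_add, Pi.add_apply]
  change _ = P.ψ j x + _ - _
  ring

theorem abs_ψ_le (j : ℕ) (x : ℝ) : |P.ψ j x| ≤ P.c j * bd x := by
  have h1 := P.abs_C_le x (P.D.ψ x) j
  have h2 : |P.D.e x j| ≤ P.c j * Real.exp |x| := by
    rw [P.D_e_apply, abs_mul, abs_of_pos (Real.exp_pos _), abs_of_pos (P.c_pos j), mul_comm]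
    exact mul_le_mul_of_nonneg_left (P.exp_neg_κ_le j x) (P.c_pos j).le
  have h3 : Real.exp |x| * Real.exp |x| = Real.exp (2 * |x|) := by
    rw [← Real.exp_add]
    congr 1
    ring
  have h4 : Real.exp |x| ≤ Real.exp (2 * |x|) := by
    rw [Real.exp_le_exp]
    linarith [abs_nonneg x]
  have h5 : 2 * ‖P.e₀‖ * Real.exp |x| * Real.exp |x| * ‖P.D.ψ x‖ ≤ Real.exp (2 * |x|) := by
    have h6 := P.norm_e₀_le
    have h7 := P.norm_ψ_le_two x
    have h8 : 2 * ‖P.e₀‖ * Real.exp |x| * Real.exp |x| * ‖P.D.ψ x‖ =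
        Real.exp (2 * |x|) * (2 * (‖P.e₀‖ * ‖P.D.ψ x‖)) := by
      rw [← h3]
      ring
    rw [h8]
    have h9 : ‖P.e₀‖ * ‖P.D.ψ x‖ ≤ 1 / 8 * 2 :=
      mul_le_mul h6 h7 (norm_nonneg _) (by norm_num)
    have h10 := Real.exp_pos (2 * |x|)
    nlinarith
  rw [P.ψ_eq]
  have h6 := P.c_pos j
  have h7 := abs_sub (P.D.e x j) (P.D.C x (P.D.ψ x) j)
  have h8 := mul_le_mul_of_nonneg_left h5 h6.le
  have h9 := mul_le_mul_of_nonneg_left h4 h6.le
  have h10 := mul_pos h6 (Real.exp_pos (2 * |x|))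
  unfold bd
  linarith

theorem ψ'_eq (j : ℕ) (x : ℝ) :
    P.ψ' j x = -(P.κ j * P.ψ j x) + 2 * P.D.C x (P.D.M x (P.D.K (P.D.ψ x))) j := by
  have h : P.D.ψ' x = -P.D.K (P.D.ψ x) + (2 : ℝ) • P.D.C x (P.D.M x (P.D.K (P.D.ψ x))) := by
    rw [Data.ψ', P.D.C_M]
    module
  change P.D.ψ' x j = _
  rw [h, lp.coeFn_add, lp.coeFn_neg, lp.coeFn_smul, Pi.add_apply, Pi.neg_apply, Pi.smul_apply,
    D_K_apply, smul_eq_mul]
  rfl

theorem abs_ψ'_le (j : ℕ) (x : ℝ) : |P.ψ' j x| ≤ P.c j * (2 * bd x) := by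
  have h1 := P.abs_C_le x (P.D.M x (P.D.K (P.D.ψ x))) j
  have h2 := P.abs_ψ_le j x
  have h0 : ‖P.D.M x (P.D.K (P.D.ψ x))‖ ≤ 2 :=
    (P.D.norm_M_le x _).trans ((P.D.norm_K_le _).trans (P.norm_ψ_le_two x))
  have h3 : Real.exp |x| * Real.exp |x| = Real.exp (2 * |x|) := by
    rw [← Real.exp_add]
    congr 1
    ring
  have h5 : 2 * ‖P.e₀‖ * Real.exp |x| * Real.exp |x| * ‖P.D.M x (P.D.K (P.D.ψ x))‖ ≤
      Real.exp (2 * |x|) := by
    have h6 := P.norm_e₀_le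
    have h8 : 2 * ‖P.e₀‖ * Real.exp |x| * Real.exp |x| * ‖P.D.M x (P.D.K (P.D.ψ x))‖ =
        Real.exp (2 * |x|) * (2 * (‖P.e₀‖ * ‖P.D.M x (P.D.K (P.D.ψ x))‖)) := by
      rw [← h3]
      ring
    rw [h8]
    have h9 : ‖P.e₀‖ * ‖P.D.M x (P.D.K (P.D.ψ x))‖ ≤ 1 / 8 * 2 :=
      mul_le_mul h6 h0 (norm_nonneg _) (by norm_num)
    have h10 := Real.exp_pos (2 * |x|)
    nlinarith
  rw [P.ψ'_eq]
  have h6 := P.c_pos j
  have h7 := abs_add_le (-(P.κ j * P.ψ j x)) (2 * P.D.C x (P.D.M x (P.D.K (P.D.ψ x))) j)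
  rw [abs_neg, abs_mul, abs_mul, abs_of_pos (P.κ_pos j)] at h7
  have h8 := mul_le_mul_of_nonneg_left h5 h6.le
  have h9 : P.κ j * |P.ψ j x| ≤ |P.ψ j x| := by
    have := P.κ_lt j
    nlinarith [abs_nonneg (P.ψ j x)]
  have h10 := mul_pos h6 (Real.exp_pos (2 * |x|))
  norm_num at h7
  unfold bd at h2 ⊢
  linarith

theorem abs_ψ_le_two (j : ℕ) (x : ℝ) : |P.ψ j x| ≤ 2 :=
  (abs_apply_le (P.D.ψ x) j).trans (P.norm_ψ_le_two x)

theorem hasSum_ψ_sq (x : ℝ) : HasSum (fun j => P.ψ j x ^ 2) (‖P.D.ψ x‖ ^ 2) := by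
  have h := hasSum_inner (P.D.ψ x) (P.D.ψ x)
  rw [real_inner_self_eq_norm_sq] at h
  simp only [sq] at h ⊢
  exact h

/-- Two-sided bounds near the origin. -/
theorem ψ_near {x : ℝ} (hx : |x| ≤ 1) (j : ℕ) :
    |P.ψ j x - Real.exp (-(P.κ j * x)) * P.c j| ≤ 1 / 4 * (Real.exp (-(P.κ j * x)) * P.c j) := by
  have h1 : P.ψ j x - Real.exp (-(P.κ j * x)) * P.c j =
      -(Real.exp (-(P.κ j * x)) * P.C₀ (P.D.U x (P.D.ψ x)) j) := by
    rw [P.ψ_eq, P.D_e_apply, Data.C_apply, D_U]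
    change _ - Real.exp (-(P.κ j * x)) * P.C₀ (P.D.U x (P.D.ψ x)) j - _ = _
    ring
  rw [h1, abs_neg, abs_mul, abs_of_pos (Real.exp_pos _)]
  have h2 := P.abs_C₀_le (P.D.U x (P.D.ψ x)) j
  have h3 : ‖P.D.U x (P.D.ψ x)‖ ≤ Real.exp |x| * ‖P.D.ψ x‖ := P.norm_expK_le' x _
  have h4 : ‖P.D.ψ x‖ ≤ Real.exp |x| * ‖P.e₀‖ := (P.D.norm_ψ_le_e x).trans (P.norm_D_e_le x)
  have h5 := P.norm_e₀_le
  have h6 : Real.exp |x| ≤ Real.exp 1 := Real.exp_le_exp.2 hx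
  have h7 := Real.exp_one_lt_d9
  have h8 := Real.exp_pos |x|
  have h9 := P.c_pos j
  have h10 := norm_nonneg P.e₀
  have h11 := norm_nonneg (P.D.ψ x)
  have h12 := norm_nonneg (P.D.U x (P.D.ψ x))
  have h13 : ‖P.D.ψ x‖ ≤ 2.72 * (1 / 8) := h4.trans (by nlinarith)
  have h14 : ‖P.D.U x (P.D.ψ x)‖ ≤ 2.72 * (2.72 * (1 / 8)) := h3.trans (by nlinarith)
  have h15 : |P.C₀ (P.D.U x (P.D.ψ x)) j| ≤ 1 / 4 * P.c j := by
    refine h2.trans ?_
    have h16 : ‖P.e₀‖ * ‖P.D.U x (P.D.ψ x)‖ ≤ 1 / 8 * (2.72 * (2.72 * (1 / 8))) :=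
      mul_le_mul h5 h14 h12 (by norm_num)
    nlinarith
  have h17 := mul_le_mul_of_nonneg_left h15 (Real.exp_pos (-(P.κ j * x))).le
  linarith

end Params

end Pool.Agent.helper34.Soliton
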