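import Pool.Agent.helper34.Soliton.HeatKernel

set_option autoImplicit false

/-!
# The equation `-w'' + (V + 1) w = 0` has a positive solution
-/

open MeasureTheory Set Real Filter Topology
open scoped NNReal ENNReal RealInnerProductSpace

namespace Pool.Agent.helper34.Soliton

open HeatLine

namespace Params

variable (P : Params)

/-- The vector with coordinates `u j / (1 + κ j)`. -/
noncomputable def divK (u : Hs) : Hs := ⟨fun j => u j / (1 + P.κ j), by
  refine (lp.memℓp u).norm.mono fun j => ?_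
  have h := P.κ_pos j
  rw [norm_div, Real.norm_eq_abs (1 + P.κ j), abs_of_pos (by linarith)]
  exact div_le_self (norm_nonneg _) (by linarith)⟩

theorem divK_apply (u : Hs) (j : ℕ) : P.divK u j = u j / (1 + P.κ j) := rfl

theorem divK_add (u : Hs) : P.divK u + P.K (P.divK u) = u := by
  apply lp.ext
  funext j
  have h := P.κ_pos j
  have h2 : 1 + P.κ j ≠ 0 := by positivity
  rw [lp.coeFn_add, Pi.add_apply, K_apply, divK_apply]
  field_simp

/-- The vector `v₀ = (1 + K)⁻¹ e₀`. -/
noncomputable def v₀ : Hs := P.divK P.e₀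

theorem v₀_add : P.v₀ + P.D.K P.v₀ = P.D.e₀ := P.divK_add P.e₀

theorem β_ne_one (x : ℝ) : P.D.β P.v₀ x ≠ 1 := by
  intro h
  set q := P.divK (P.D.ψ x) with hq
  have h1 := P.D.key_of_β_eq_one P.v₀ P.v₀_add x h q (P.divK_add (P.D.ψ x))
  have h2 : ∀ j, (1 + P.κ j) * q j = -((1 - P.κ j) * P.D.C x q j) := by
    intro j
    have h3 := congrArg (fun u : Hs => u j) h1
    simp only [lp.coeFn_add, lp.coeFn_neg, lp.coeFn_sub, Pi.add_apply, Pi.neg_apply,
      Pi.sub_apply, D_K_apply] at h3
    linarith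
  have h3 : ∀ j, P.D.C x q j * q j ≤ 0 := by
    intro j
    have h4 := h2 j
    have h5 := P.κ_pos j
    have h6 := P.κ_lt j
    have h7 : (1 + P.κ j) * (P.D.C x q j * q j) = -((1 - P.κ j) * P.D.C x q j ^ 2) := by
      linear_combination P.D.C x q j * h4
    by_contra hcon
    push Not at hcon
    have h8 : 0 < (1 + P.κ j) * (P.D.C x q j * q j) := mul_pos (by linarith) hcon
    have h9 : 0 ≤ (1 - P.κ j) * P.D.C x q j ^ 2 := mul_nonneg (by linarith) (sq_nonneg _)
    linarith
  have h4 := hasSum_inner (P.D.C x q) q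
  have h5 := P.D.C_pos x q
  have h6 : ∀ j, P.D.C x q j * q j = 0 := by
    intro j
    refine le_antisymm (h3 j) ?_
    have h7 := sum_le_hasSum {j} (f := fun j => -(P.D.C x q j * q j))
      (fun i _ => by have := h3 i; simp only; linarith) h4.neg
    simp only [Finset.sum_singleton] at h7
    linarith
  have h7 : ∀ j, q j = 0 := by
    intro j
    have h8 := h2 j
    have h9 := P.κ_pos j
    have h10 := P.κ_lt j
    rcases mul_eq_zero.1 (h6 j) with h11 | h11
    · rw [h11, mul_zero, neg_zero] at h8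
      rcases mul_eq_zero.1 h8 with h12 | h12
      · linarith
      · exact h12
    · exact h11
  have h8 : q = 0 := by
    apply lp.ext
    funext j
    exact h7 j
  have h9 : P.D.ψ x = 0 := by
    have := P.divK_add (P.D.ψ x)
    rw [← this, ← hq, h8, map_zero, add_zero]
  have h10 : P.D.ψ x + P.D.C x (P.D.ψ x) = P.D.e x := P.D.mul_M x _
  rw [h9, map_zero, add_zero] at h10
  have h11 := P.D_e_apply x 0
  rw [← h10] at h11
  have h12 : 0 < Real.exp (-(P.κ 0 * x)) * P.c 0 := mul_pos (exp_pos _) (P.c_pos 0)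
  rw [← h11] at h12
  exact lt_irrefl _ h12

theorem β_tendsto : Tendsto (P.D.β P.v₀) atTop (𝓝 0) := by
  rw [tendsto_zero_iff_norm_tendsto_zero]
  have h1 : Tendsto (fun s : ℝ => Real.exp (-(s / 2)) * ‖P.v₀‖ * 2) atTop (𝓝 0) := by
    have h2 : Tendsto (fun s : ℝ => Real.exp (-(s / 2))) atTop (𝓝 0) :=
      Real.tendsto_exp_neg_atTop_nhds_zero.comp (tendsto_id.atTop_div_const (by norm_num))
    simpa using (h2.mul_const ‖P.v₀‖).mul_const 2
  refine squeeze_zero' (Eventually.of_forall fun s => norm_nonneg _) ?_ h1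
  filter_upwards [eventually_ge_atTop 0] with s hs
  refine (norm_inner_le_norm _ _).trans ?_
  exact mul_le_mul (P.norm_expK_le hs P.v₀) (P.norm_ψ_le_two s) (norm_nonneg _) (by positivity)

theorem β_continuous : Continuous (P.D.β P.v₀) :=
  continuous_iff_continuousAt.2 fun x => (P.D.hasDerivAt_β P.v₀ x).continuousAt

theorem β_lt_one (x : ℝ) : P.D.β P.v₀ x < 1 := by
  by_contra hcon
  push Not at hcon
  obtain ⟨y, hy⟩ := ((P.β_tendsto.eventually (gt_mem_nhds one_pos)).and
    (eventually_ge_atTop x)).exists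
  have h1 := intermediate_value_Icc' hy.2 P.β_continuous.continuousOn
  obtain ⟨z, _, hz⟩ := h1 ⟨hy.1.le, hcon⟩
  exact P.β_ne_one z hz

theorem nonneg : P.op.Nonneg := by
  refine ⟨P.D.w P.v₀, ?_, ?_, ?_⟩
  · refine contDiff_two_of (fun x => P.D.hasDerivAt_w P.v₀ x)
      (fun x => P.D.hasDerivAt_w' P.v₀ P.v₀_add x) ?_
    have h1 : Continuous (P.D.w P.v₀) :=
      continuous_iff_continuousAt.2 fun x => (P.D.hasDerivAt_w P.v₀ x).continuousAt
    exact (P.D.continuous_V.add continuous_const).mul h1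
  · intro x
    have := P.β_lt_one x
    exact mul_pos (exp_pos _) (by linarith)
  · intro x
    have h1 : deriv (P.D.w P.v₀) = P.D.w' P.v₀ := funext fun x => (P.D.hasDerivAt_w P.v₀ x).deriv
    rw [P.op_apply, h1, (P.D.hasDerivAt_w' P.v₀ P.v₀_add x).deriv]
    change -((P.V x + 1) * _) + (P.V x + 1) * _ = 0
    ring

end Params

end Pool.Agent.helper34.Soliton
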